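import Pool.Agent.Helper826.Bondy.Sq

set_option autoImplicit false

namespace Jia
open Finset
open scoped symmDiff

theorem jG_step' {V : Type*} [DecidableEq V] {G : Finset (Sym2 V)} {n : ℕ}
    (hcyc : ∀ k, 3 ≤ k → k ≤ n → ∃ Z ⊆ G, IsCyc Z ∧ Z.card = k) (hn : 3 ≤ n)
    (A : Finset (Sym2 V)) (hA : A ⊆ G) (hcov : ∀ e ∈ A, ∃ C ∈ Cf A, e ∈ C) (hlt : A.card < n) :
    ∃ B, B ⊆ G ∧ (∀ e ∈ B, ∃ C ∈ Cf B, e ∈ C) ∧ Stq A B := by
  classical
  have hne : ((Cf G).filter (fun C => ¬ C ⊆ A)).Nonempty := by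
    obtain ⟨Z, hZG, hZ, hZn⟩ := hcyc n hn le_rfl
    refine ⟨Z, ?_⟩
    rw [mem_filter, mem_Cf]
    refine ⟨⟨hZG, hZ⟩, fun h => ?_⟩
    have := card_le_card h
    omega
  obtain ⟨C, hC, hmin⟩ := exists_min_image _ (fun C => C.card) hne
  rw [mem_filter, mem_Cf] at hC
  obtain ⟨⟨hCG, hCcyc⟩, hCA⟩ := hC
  have hln : C.card ≤ n := by
    obtain ⟨Z, hZG, hZ, hZn⟩ := hcyc n hn le_rfl
    have h1 : Z ∈ (Cf G).filter (fun C => ¬ C ⊆ A) := by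
      rw [mem_filter, mem_Cf]
      refine ⟨⟨hZG, hZ⟩, fun h => ?_⟩
      have := card_le_card h
      omega
    have := hmin Z h1
    omega
  have hsmall : ∀ k, 3 ≤ k → k < C.card → ∃ Z ∈ Cf A, Z.card = k := by
    intro k hk hkl
    obtain ⟨Z, hZG, hZ, hZk⟩ := hcyc k hk (by omega)
    refine ⟨Z, ?_, hZk⟩
    rw [mem_Cf]
    refine ⟨?_, hZ⟩
    by_contra hcon
    have h1 : Z ∈ (Cf G).filter (fun C => ¬ C ⊆ A) := by
      rw [mem_filter, mem_Cf]; exact ⟨⟨hZG, hZ⟩, hcon⟩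
    have := hmin Z h1
    omega
  have hcount : C.card - 3 ≤ ns A := by
    have h1 : (Finset.Ico 3 C.card) ⊆ (Cf A).image Finset.card := by
      intro k hk
      rw [mem_Ico] at hk
      rw [mem_image]
      exact hsmall k hk.1 hk.2
    have h2 := card_le_card h1
    rw [Nat.card_Ico] at h2
    exact h2
  have hl : C.card ≤ A.card + 3 := by
    by_cases h4 : 4 ≤ C.card
    · obtain ⟨Z, hZ, hZc⟩ := hsmall (C.card - 1) (by omega) (by omega)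
      rw [mem_Cf] at hZ
      have := card_le_card hZ.1
      omega
    · omega
  obtain ⟨hev, _, hNL, hCne⟩ := cyc_ev hCcyc
  have hcovB : ∀ e ∈ A ∪ C, ∃ D ∈ Cf (A ∪ C), e ∈ D := by
    intro e he
    rw [mem_union] at he
    rcases he with he | he
    · obtain ⟨D, hD, heD⟩ := hcov e he
      rw [mem_Cf] at hD
      exact ⟨D, mem_Cf.2 ⟨hD.1.trans subset_union_left, hD.2⟩, heD⟩
    · exact ⟨C, mem_Cf.2 ⟨subset_union_right, hCcyc⟩, he⟩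
  have hcu : (A ∪ C).card ≤ A.card + C.card := card_union_le _ _
  refine ⟨A ∪ C, union_subset hA hCG, hcovB, subset_union_left, ?_, hcovB, ?_, ?_, ?_⟩
  · intro e he
    obtain ⟨D, hD, heD⟩ := hcovB e he
    rw [mem_Cf] at hD
    exact (cyc_ev hD.2).2.2.1 e heD
  · omega
  · omega
  · obtain ⟨e, heC, heA⟩ := Finset.not_subset.1 hCA
    have hCB : C ∈ Zf (A ∪ C) := mem_Zf.2 ⟨subset_union_right, hev⟩
    rw [Zf_erase hCB heC]
    apply Nat.mul_le_mul_left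
    apply card_le_card
    apply Zf_mono
    intro f hf
    rw [mem_erase]
    exact ⟨fun h => heA (h ▸ hf), mem_union_left _ hf⟩

/-- greedy chain: always add a shortest cycle which is not yet contained -/
theorem chain_exists' {V : Type*} [DecidableEq V] {G : Finset (Sym2 V)} {n : ℕ}
    (hcyc : ∀ k, 3 ≤ k → k ≤ n → ∃ Z ⊆ G, IsCyc Z ∧ Z.card = k)
    (J : ℕ) (hJ : 3 * 2 ^ J ≤ n) :
    ∃ U : ℕ → Finset (Sym2 V), U 0 = ∅ ∧ (∀ j ≤ J, U j ⊆ G) ∧ ∀ j < J, Stq (U j) (U (j + 1)) := by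
  classical
  have hn : 3 ≤ n := by
    have : 1 ≤ 2 ^ J := Nat.one_le_two_pow
    omega
  have hstep : ∀ A : Finset (Sym2 V), ∃ B, (A ⊆ G ∧ (∀ e ∈ A, ∃ C ∈ Cf A, e ∈ C) ∧ A.card < n) →
      (B ⊆ G ∧ (∀ e ∈ B, ∃ C ∈ Cf B, e ∈ C) ∧ Stq A B) := by
    intro A
    by_cases h : A ⊆ G ∧ (∀ e ∈ A, ∃ C ∈ Cf A, e ∈ C) ∧ A.card < n
    · obtain ⟨B, hB⟩ := jG_step' hcyc hn A h.1 h.2.1 h.2.2
      exact ⟨B, fun _ => hB⟩
    · exact ⟨A, fun h' => absurd h' h⟩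
  choose f hf using hstep
  have hinv : ∀ j, j ≤ J → (f^[j] ∅ ⊆ G ∧ (∀ e ∈ f^[j] ∅, ∃ C ∈ Cf (f^[j] ∅), e ∈ C) ∧
      (f^[j] ∅).card + 3 ≤ 3 * 2 ^ j) := by
    intro j
    induction j with
    | zero => intro _; simp
    | succ j ih =>
      intro hj
      obtain ⟨h1, h2, h3⟩ := ih (by omega)
      have h4 : 2 ^ (j + 1) ≤ 2 ^ J := Nat.pow_le_pow_right (by norm_num) hj
      rw [pow_succ] at h4
      have h5 : 1 ≤ 2 ^ j := Nat.one_le_two_pow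
      obtain ⟨g1, g2, g3⟩ := hf (f^[j] ∅) ⟨h1, h2, by omega⟩
      rw [Function.iterate_succ_apply']
      refine ⟨g1, g2, ?_⟩
      have := g3.2.2.2.1
      rw [pow_succ]
      omega
  refine ⟨fun j => f^[j] ∅, rfl, fun j hj => (hinv j hj).1, fun j hj => ?_⟩
  obtain ⟨h1, h2, h3⟩ := hinv j hj.le
  have h4 : 2 ^ (j + 1) ≤ 2 ^ J := Nat.pow_le_pow_right (by norm_num) hj
  rw [pow_succ] at h4
  have h5 : 1 ≤ 2 ^ j := Nat.one_le_two_pow
  have := (hf (f^[j] ∅) ⟨h1, h2, by omega⟩).2.2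
  show Stq (f^[j] ∅) (f^[j + 1] ∅)
  rw [Function.iterate_succ_apply']
  exact this

end Jia
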