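import Pool.Agent.Helper826.Bondy.BD

set_option autoImplicit false

namespace Jia
open Finset
open scoped symmDiff
variable {V : Type*} [DecidableEq V]

/-- sizes are controlled by the parts outside `K` -/
theorem size_outer (K : Finset (Sym2 V)) (A : Finset (Finset (Sym2 V))) :
    (A.image Finset.card).card ≤ (A.image (fun z => z \ K)).card * (K.card + 1) := by
  have hsub : A.image Finset.card ⊆
      ((A.image (fun z => z \ K)) ×ˢ Finset.range (K.card + 1)).image
        (fun q => q.1.card + q.2) := by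
    intro m hm
    obtain ⟨z, hz, rfl⟩ := mem_image.1 hm
    refine mem_image.2 ⟨(z \ K, (z ∩ K).card), ?_, card_sdiff_add_card_inter z K⟩
    refine mem_product.2 ⟨mem_image_of_mem _ hz, mem_range.2 ?_⟩
    exact Nat.lt_succ_of_le (card_le_card inter_subset_right)
  calc (A.image Finset.card).card ≤ _ := card_le_card hsub
    _ ≤ ((A.image (fun z => z \ K)) ×ˢ Finset.range (K.card + 1)).card := card_image_le
    _ = _ := by rw [card_product, card_range]

open Classical in
/-- every outer part is attained `|Zf K|` times -/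
theorem outer_zf {E K : Finset (Sym2 V)} (hKE : K ⊆ E) (A : Finset (Finset (Sym2 V)))
    (hA : A ⊆ Zf E) : (A.image (fun z => z \ K)).card * (Zf K).card ≤
      ((Zf E).filter (fun z => ∃ y ∈ A, y \ K = z \ K)).card := by
  have hex : ∀ F : Finset (Sym2 V), ∃ y : Finset (Sym2 V), F ∈ A.image (fun z => z \ K) →
      y ∈ A ∧ y \ K = F := by
    intro F
    by_cases hF : F ∈ A.image (fun z => z \ K)
    · obtain ⟨y, hy, hyF⟩ := mem_image.1 hF
      exact ⟨y, fun _ => ⟨hy, hyF⟩⟩
    · exact ⟨∅, fun h => absurd h hF⟩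
  choose g hg using hex
  rw [← card_product]
  have hout : ∀ F ∈ A.image (fun z => z \ K), ∀ w ∈ Zf K, (g F ∆ w) \ K = F := by
    intro F hF w hw
    have hwK := (mem_Zf.1 hw).1
    have h1 := (hg F hF).2
    ext x
    have h2 := Finset.ext_iff.1 h1 x
    simp only [mem_sdiff, mem_symmDiff] at h2 ⊢
    have h3 : x ∈ w → x ∈ K := fun h => hwK h
    tauto
  refine card_le_card_of_injOn (fun q => g q.1 ∆ q.2) ?_ ?_
  · intro q hq
    have hq' := mem_product.1 (mem_coe.1 hq)
    refine mem_coe.2 (mem_filter.2 ⟨Zf_symmDiff (hA (hg _ hq'.1).1) (Zf_mono hKE hq'.2), ?_⟩)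
    exact ⟨g q.1, (hg _ hq'.1).1, by rw [(hg _ hq'.1).2, hout _ hq'.1 _ hq'.2]⟩
  · intro q hq r hr h
    have hq' := mem_product.1 (mem_coe.1 hq)
    have hr' := mem_product.1 (mem_coe.1 hr)
    have h : g q.1 ∆ q.2 = g r.1 ∆ r.2 := h
    have h1 : q.1 = r.1 := by
      rw [← hout _ hq'.1 _ hq'.2, ← hout _ hr'.1 _ hr'.2, h]
    rw [h1] at h
    exact Prod.ext h1 (symmDiff_right_injective _ h)

theorem Cf_sub_Zf (E : Finset (Sym2 V)) : Cf E ⊆ Zf E := by
  intro z hz
  rw [mem_Cf] at hz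
  exact mem_Zf.2 ⟨hz.1, (cyc_ev hz.2).1⟩

theorem ns_le {E K : Finset (Sym2 V)} (hKE : K ⊆ E) :
    ns E * (Zf K).card ≤ (Zf E).card * (K.card + 1) := by
  classical
  have h1 := size_outer K (Cf E)
  have h2 := outer_zf hKE (Cf E) (Cf_sub_Zf E)
  have h3 : ((Zf E).filter (fun z => ∃ y ∈ Cf E, y \ K = z \ K)).card ≤ (Zf E).card :=
    card_filter_le _ _
  calc ns E * (Zf K).card ≤ ((Cf E).image (fun z => z \ K)).card * (K.card + 1) * (Zf K).card :=
        Nat.mul_le_mul_right _ h1
    _ = ((Cf E).image (fun z => z \ K)).card * (Zf K).card * (K.card + 1) := by ring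
    _ ≤ (Zf E).card * (K.card + 1) := by
      refine Nat.mul_le_mul_right _ (le_trans ?_ h3)
      convert h2

/-- few cycles through an edge outside `K` -/
theorem thick_crit {E K : Finset (Sym2 V)} (hKE : K ⊆ E) {e : Sym2 V} (he : e ∉ K)
    (hC : ∃ C ∈ Zf E, e ∈ C) {η : ℝ}
    (h : (((Cf E).filter (fun C => e ∈ C)).card : ℝ) ≤ η * (Zf E).card) :
    (ns E : ℝ) * (Zf K).card ≤ (η * (Zf K).card + ((K.card : ℝ) + 1) / 2) * (Zf E).card := by
  classical
  obtain ⟨C, hCE, heC⟩ := hC
  set A := (Cf E).filter (fun C => ¬ e ∈ C) with hAdef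
  have hAZ : A ⊆ Zf E := (filter_subset _ _).trans (Cf_sub_Zf E)
  have h1 := size_outer K A
  have h2 := outer_zf hKE A hAZ
  have h3 : ((Zf E).filter (fun z => ∃ y ∈ A, y \ K = z \ K)).card ≤ (Zf (E.erase e)).card := by
    refine card_le_card ?_
    intro z hz
    obtain ⟨hzE, y, hyA, hyz⟩ := mem_filter.1 hz
    have hez : e ∉ z := by
      intro hez
      have : e ∈ z \ K := mem_sdiff.2 ⟨hez, he⟩
      rw [← hyz] at this
      exact (mem_filter.1 hyA).2 (mem_sdiff.1 this).1
    rw [mem_Zf] at hzE ⊢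
    exact ⟨subset_erase.2 ⟨hzE.1, hez⟩, hzE.2⟩
  have h4 := Zf_erase hCE heC
  have h5 : ns E ≤ ((Cf E).filter (fun C => e ∈ C)).card + (A.image Finset.card).card := by
    have : (Cf E).image Finset.card ⊆
        ((Cf E).filter (fun C => e ∈ C)).image Finset.card ∪ A.image Finset.card := by
      intro m hm
      obtain ⟨z, hz, rfl⟩ := mem_image.1 hm
      by_cases hez : e ∈ z
      · exact mem_union_left _ (mem_image_of_mem _ (mem_filter.2 ⟨hz, hez⟩))
      · exact mem_union_right _ (mem_image_of_mem _ (mem_filter.2 ⟨hz, hez⟩))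
    calc ns E ≤ _ := card_le_card this
      _ ≤ _ := card_union_le _ _
      _ ≤ _ := Nat.add_le_add_right card_image_le _
  have h6 : 2 * ((A.image (fun z => z \ K)).card * (Zf K).card) ≤ (Zf E).card := by
    have h2' : (A.image (fun z => z \ K)).card * (Zf K).card ≤ (Zf (E.erase e)).card := by
      refine le_trans ?_ h3
      convert h2
    omega
  have h5' : (ns E : ℝ) ≤ (((Cf E).filter (fun C => e ∈ C)).card : ℝ) +
      ((A.image (fun z => z \ K)).card : ℝ) * ((K.card : ℝ) + 1) := by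
    have := h5.trans (Nat.add_le_add_left h1 _)
    exact_mod_cast this
  have h6' : 2 * (((A.image (fun z => z \ K)).card : ℝ) * ((Zf K).card : ℝ)) ≤ (Zf E).card := by
    exact_mod_cast h6
  have hZK : (0 : ℝ) ≤ (Zf K).card := Nat.cast_nonneg _
  have hK : (0 : ℝ) ≤ (K.card : ℝ) + 1 := by positivity
  calc (ns E : ℝ) * (Zf K).card ≤ ((((Cf E).filter (fun C => e ∈ C)).card : ℝ) +
      ((A.image (fun z => z \ K)).card : ℝ) * ((K.card : ℝ) + 1)) * (Zf K).card :=
        mul_le_mul_of_nonneg_right h5' hZK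
    _ = (((Cf E).filter (fun C => e ∈ C)).card : ℝ) * (Zf K).card +
      ((K.card : ℝ) + 1) / 2 *
        (2 * (((A.image (fun z => z \ K)).card : ℝ) * ((Zf K).card : ℝ))) := by ring
    _ ≤ η * (Zf E).card * (Zf K).card + ((K.card : ℝ) + 1) / 2 * (Zf E).card :=
        add_le_add (mul_le_mul_of_nonneg_right h hZK)
          (mul_le_mul_of_nonneg_left h6' (by positivity))
    _ = _ := by ring

end Jia
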