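import Pool.Agent.Helper826.Bondy.Pd

set_option autoImplicit false

namespace Jia

theorem tw_mono (i : ℕ) {x y : ℕ} (h : x ≤ y) : tw i x ≤ tw i y := by
  induction i with
  | zero => exact h
  | succ i ih => exact Nat.pow_le_pow_right (by norm_num) ih

theorem le_tw (i x : ℕ) : x ≤ tw i x := by
  induction i with
  | zero => exact le_refl _
  | succ i ih => exact ih.trans (Nat.lt_two_pow_self).le

theorem tw_pow (i x : ℕ) : tw i (2 ^ x) = 2 ^ tw i x := by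
  induction i with
  | zero => rfl
  | succ i ih =>
    show 2 ^ tw i (2 ^ x) = 2 ^ (2 ^ tw i x)
    rw [ih]

theorem tw_succ_le (i x : ℕ) : tw i x ≤ tw (i + 1) x := (Nat.lt_two_pow_self).le

theorem two_pow_add_le (a b : ℕ) : 2 ^ a + 2 ^ a ≤ 2 ^ (a + 1 + b) := by
  have : 2 ^ (a + 1) ≤ 2 ^ (a + 1 + b) := Nat.pow_le_pow_right (by norm_num) (by omega)
  have h2 : 2 ^ (a + 1) = 2 ^ a + 2 ^ a := by rw [pow_succ]; ring
  omega

theorem pD_bound (k : ℕ) : pD k + 2 ≤ 2 ^ (k + 6) := by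
  unfold pD
  induction k with
  | zero => norm_num
  | succ k ih =>
    have : 2 ^ (k + 1 + 6) = 2 ^ (k + 6) + 2 ^ (k + 6) := by rw [show k + 1 + 6 = (k + 6) + 1 by ring, pow_succ]; ring
    have h2 : 4 ≤ 2 ^ (k + 6) := by
      calc 4 ≤ 2 ^ 6 := by norm_num
        _ ≤ 2 ^ (k + 6) := Nat.pow_le_pow_right (by norm_num) (by omega)
    omega

theorem k6_bound (k : ℕ) : k + 6 ≤ 2 ^ (k + 3) := by
  induction k with
  | zero => norm_num
  | succ k ih =>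
    have : 2 ^ (k + 1 + 3) = 2 ^ (k + 3) + 2 ^ (k + 3) := by rw [show k + 1 + 3 = (k + 3) + 1 by ring, pow_succ]; ring
    omega

theorem k8_bound (k : ℕ) : 2 * k + 8 ≤ 2 ^ (k + 3) := by
  induction k with
  | zero => norm_num
  | succ k ih =>
    have : 2 ^ (k + 1 + 3) = 2 ^ (k + 3) + 2 ^ (k + 3) := by rw [show k + 1 + 3 = (k + 3) + 1 by ring, pow_succ]; ring
    omega

theorem pn_bound (k : ℕ) : pn (pD k) (k + (k + 6)) ≤ 2 ^ (2 ^ (3 * k + 15)) := by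
  unfold pn ph
  have hD := pD_bound k
  have h1 : (pD k + 1) ^ (2 ^ (k + (k + 6) + 2) + 1) ≤ (2 ^ (k + 6)) ^ (2 ^ (k + (k + 6) + 2) + 1) :=
    Nat.pow_le_pow_left (by omega) _
  rw [← pow_mul] at h1
  calc 2 ^ (k + (k + 6) + 2) * (pD k + 1) ^ (2 ^ (k + (k + 6) + 2) + 1)
      ≤ 2 ^ (k + (k + 6) + 2) * 2 ^ ((k + 6) * (2 ^ (k + (k + 6) + 2) + 1)) := Nat.mul_le_mul_left _ h1
    _ = 2 ^ (k + (k + 6) + 2 + (k + 6) * (2 ^ (k + (k + 6) + 2) + 1)) :=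
        (pow_add 2 (k + (k + 6) + 2) ((k + 6) * (2 ^ (k + (k + 6) + 2) + 1))).symm
    _ ≤ 2 ^ (2 ^ (3 * k + 15)) := by
        apply Nat.pow_le_pow_right (by norm_num)
        have h2 := k6_bound k
        have h3 := k8_bound k
        have h4 : 2 ^ (k + (k + 6) + 2) + 1 ≤ 2 ^ (2 * k + 9) := by
          rw [show k + (k + 6) + 2 = 2 * k + 8 by ring, show 2 * k + 9 = (2 * k + 8) + 1 by ring,
            pow_succ 2 (2 * k + 8)]
          have : 1 ≤ 2 ^ (2 * k + 8) := Nat.one_le_two_pow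
          generalize 2 ^ (2 * k + 8) = X at this ⊢
          omega
        have h5 : (k + 6) * (2 ^ (k + (k + 6) + 2) + 1) ≤ 2 ^ (k + 3) * 2 ^ (2 * k + 9) :=
          Nat.mul_le_mul h2 h4
        rw [← pow_add] at h5
        have h6 : k + 3 + (2 * k + 9) = 3 * k + 12 := by ring
        rw [h6] at h5
        have h7 : 2 ^ (k + 3) ≤ 2 ^ (3 * k + 12) := Nat.pow_le_pow_right (by norm_num) (by omega)
        have h8 := two_pow_add_le (3 * k + 12) 2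
        rw [show 3 * k + 12 + 1 + 2 = 3 * k + 15 by ring] at h8
        omega

theorem pl_bound (k : ℕ) : pl (pD k) (k + (k + 6)) ≤ 2 ^ (2 ^ (3 * k + 16)) := by
  have h1 := pn_bound k
  unfold pl
  have h2 : ph (k + (k + 6)) ≤ 2 ^ (2 ^ (3 * k + 15)) := by
    unfold ph
    apply Nat.pow_le_pow_right (by norm_num)
    have h3 := k8_bound k
    have h7 : 2 ^ (k + 3) ≤ 2 ^ (3 * k + 15) := Nat.pow_le_pow_right (by norm_num) (by omega)
    omega
  have h4 : 1 ≤ 2 ^ (2 ^ (3 * k + 15)) := Nat.one_le_two_pow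
  have h5 : 4 * 2 ^ (2 ^ (3 * k + 15)) ≤ 2 ^ (2 ^ (3 * k + 16)) := by
    have : 4 * 2 ^ (2 ^ (3 * k + 15)) = 2 ^ (2 ^ (3 * k + 15) + 2) := by rw [pow_add]; ring
    rw [this]
    apply Nat.pow_le_pow_right (by norm_num)
    rw [show 3 * k + 16 = (3 * k + 15) + 1 by ring, pow_succ 2 (3 * k + 15)]
    have : 2 ^ 1 ≤ 2 ^ (3 * k + 15) := Nat.pow_le_pow_right (by norm_num) (by omega)
    generalize 2 ^ (3 * k + 15) = X at this ⊢
    omega
  omega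

/-- exponent bound used twice -/
theorem exp_bound (k : ℕ) :
    (k + 6) * (2 * pl (pD k) (k + (k + 6)) + 2) + 4 ≤ 2 ^ (2 ^ (3 * k + 17)) := by
  have h1 := pl_bound k
  have h2 := k6_bound k
  set L := pl (pD k) (k + (k + 6)) with hL
  have hx : 1 ≤ 2 ^ (2 ^ (3 * k + 16)) := Nat.one_le_two_pow
  have h4 : 2 * L + 2 ≤ 4 * 2 ^ (2 ^ (3 * k + 16)) := by omega
  have h5 : (k + 6) * (2 * L + 2) ≤ 2 ^ (k + 3) * (4 * 2 ^ (2 ^ (3 * k + 16))) := Nat.mul_le_mul h2 h4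
  have h6 : 2 ^ (k + 3) * (4 * 2 ^ (2 ^ (3 * k + 16))) = 2 ^ (k + 5 + 2 ^ (3 * k + 16)) := by
    rw [pow_add 2 (k + 5), pow_add 2 k 3, pow_add 2 k 5]; ring
  have h7 : 4 ≤ 2 ^ (k + 5 + 2 ^ (3 * k + 16)) := by
    calc 4 = 2 ^ 2 := by norm_num
      _ ≤ 2 ^ (k + 5 + 2 ^ (3 * k + 16)) := by
          apply Nat.pow_le_pow_right (by norm_num)
          generalize 2 ^ (3 * k + 16) = X
          omega
  have h8 := two_pow_add_le (k + 5 + 2 ^ (3 * k + 16)) 0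
  have h9 : 2 ^ (k + 5 + 2 ^ (3 * k + 16) + 1 + 0) ≤ 2 ^ (2 ^ (3 * k + 17)) := by
    apply Nat.pow_le_pow_right (by norm_num)
    have h10 : k + 6 ≤ 2 ^ (3 * k + 16) := h2.trans (Nat.pow_le_pow_right (by norm_num) (by omega))
    have h11 : 2 ^ (3 * k + 17) = 2 ^ (3 * k + 16) + 2 ^ (3 * k + 16) := by
      rw [show 3 * k + 17 = (3 * k + 16) + 1 by ring, pow_succ]; ring
    omega
  omega

theorem powl_bound (k : ℕ) :
    (pD k + 2) ^ (2 * pl (pD k) (k + (k + 6)) + 2) * 16 ≤ 2 ^ (2 ^ (2 ^ (3 * k + 17))) := by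
  have h1 := exp_bound k
  have h2 : (pD k + 2) ^ (2 * pl (pD k) (k + (k + 6)) + 2) ≤ (2 ^ (k + 6)) ^ (2 * pl (pD k) (k + (k + 6)) + 2) :=
    Nat.pow_le_pow_left (pD_bound k) _
  rw [← pow_mul] at h2
  calc (pD k + 2) ^ (2 * pl (pD k) (k + (k + 6)) + 2) * 16
      ≤ 2 ^ ((k + 6) * (2 * pl (pD k) (k + (k + 6)) + 2)) * 16 := Nat.mul_le_mul_right _ h2
    _ = 2 ^ ((k + 6) * (2 * pl (pD k) (k + (k + 6)) + 2) + 4) := by rw [pow_add]; norm_num
    _ ≤ _ := Nat.pow_le_pow_right (by norm_num) h1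

theorem pr_bound (k : ℕ) : pr (pD k) (k + (k + 6)) + 1 ≤ 2 ^ (2 ^ (2 ^ (3 * k + 17))) := by
  have h1 := powl_bound k
  unfold pr
  set L := pl (pD k) (k + (k + 6)) with hL
  set D := pD k with hD
  have hD2 : 1 ≤ D := by rw [hD]; unfold pD; omega
  have h2 : D ^ L ≤ (D + 2) ^ L := Nat.pow_le_pow_left (by omega) _
  have hp : 1 ≤ (D + 2) ^ L := Nat.one_le_pow _ _ (by omega)
  have h3 : D * (D ^ L + 1) + 1 ≤ (D + 2) * ((D + 2) ^ L * 2) := by
    nlinarith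
  have h4 : (D + 2) * ((D + 2) ^ L * 2) ≤ (D + 2) ^ (2 * L + 2) * 2 := by
    have : (D + 2) * ((D + 2) ^ L * 2) = (D + 2) ^ (L + 1) * 2 := by rw [pow_succ]; ring
    rw [this]
    exact Nat.mul_le_mul_right _ (Nat.pow_le_pow_right (by omega) (by omega))
  have h5 : 1 ≤ (D + 2) ^ (2 * L + 2) := Nat.one_le_pow _ _ (by omega)
  omega

theorem ps_bound (k : ℕ) : ps (pD k) (k + (k + 6)) (k + 6) ≤ tw 5 (3 * k + 18) := by
  have h1 := pr_bound k
  unfold ps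
  set R := pr (pD k) (k + (k + 6)) with hR
  have h2 : 2 * k + 24 ≤ R := by
    rw [hR]; unfold pr
    have hL : 1 ≤ pD k ^ pl (pD k) (k + (k + 6)) := Nat.one_le_pow _ _ (by unfold pD; omega)
    have : pD k * 1 ≤ pD k * (pD k ^ pl (pD k) (k + (k + 6)) + 1) := Nat.mul_le_mul_left _ (by omega)
    have hD : pD k = 4 * k + 44 := rfl
    omega
  have h3 : 3 * R ≤ 2 ^ R := by
    have : ∀ n, 4 ≤ n → 3 * n ≤ 2 ^ n := by
      intro n hn
      induction n, hn using Nat.le_induction with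
      | base => norm_num
      | succ n hn ih =>
        rw [pow_succ]
        omega
    exact this R (by omega)
  have h4 : 2 ^ R + 2 * R + 2 * (k + 6) + 10 ≤ 2 ^ (R + 1) := by
    rw [pow_succ]; omega
  have h5 : 2 ^ (2 ^ R + 2 * R + 2 * (k + 6) + 10) ≤ 2 ^ (2 ^ (R + 1)) := Nat.pow_le_pow_right (by norm_num) h4
  refine h5.trans ?_
  have h6 : 2 ^ (2 ^ (R + 1)) ≤ 2 ^ (2 ^ (2 ^ (2 ^ (2 ^ (3 * k + 17))))) := by
    apply Nat.pow_le_pow_right (by norm_num)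
    apply Nat.pow_le_pow_right (by norm_num)
    exact h1
  refine h6.trans ?_
  have h7 : 2 ^ (2 ^ (2 ^ (2 ^ (2 ^ (3 * k + 17))))) = tw 5 (3 * k + 17) := rfl
  rw [h7]
  exact tw_mono 5 (by omega)

theorem powl_bound' (k : ℕ) :
    (pD k + 2) ^ (2 * pl (pD k) (k + (k + 6)) + 2) ≤ tw 5 (3 * k + 17) := by
  have h1 := powl_bound k
  have h2 : 2 ^ (2 ^ (2 ^ (3 * k + 17))) = tw 3 (3 * k + 17) := rfl
  have h3 : tw 3 (3 * k + 17) ≤ tw 5 (3 * k + 17) := (tw_succ_le 3 _).trans (tw_succ_le 4 _)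
  omega

theorem sq_bound (j : ℕ) (hj : 16 ≤ j) : 20 * j ^ 2 ≤ 2 ^ j := by
  induction j, hj using Nat.le_induction with
  | base => norm_num
  | succ n hn ih =>
    rw [pow_succ 2 n]
    nlinarith

/-- the parameters are small compared with the scale -/
theorem pm_bound (k j c : ℕ) (hj : tw 5 (3 * k + 40) ≤ j) (hc : c ≤ 3 * 2 ^ j) :
    pm k (k + 6) (2 * c) + j + k + 20 ≤ 2 ^ (4 * j) := by
  have hs : ps (pD k) (k + (k + 6)) (k + 6) ≤ j := (ps_bound k).trans ((tw_mono 5 (by omega)).trans hj)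
  have hw : (pD k + 2) ^ (2 * pl (pD k) (k + (k + 6)) + 2) ≤ j :=
    (powl_bound' k).trans ((tw_mono 5 (by omega)).trans hj)
  have hk : 2 ^ (3 * k + 40) ≤ j := by
    have : 2 ^ (3 * k + 40) ≤ tw 5 (3 * k + 40) := by
      show tw 1 (3 * k + 40) ≤ _
      exact (tw_succ_le 1 _).trans ((tw_succ_le 2 _).trans ((tw_succ_le 3 _).trans (tw_succ_le 4 _)))
    exact this.trans hj
  have hD : pD k ≤ j := by
    have h1 := pD_bound k
    have h2 : 2 ^ (k + 6) ≤ 2 ^ (3 * k + 40) := Nat.pow_le_pow_right (by norm_num) (by omega)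
    omega
  have hk20 : k + 20 ≤ j := by
    have : 3 * k + 40 < 2 ^ (3 * k + 40) := Nat.lt_two_pow_self
    omega
  have hs1 : 1 ≤ ps (pD k) (k + (k + 6)) (k + 6) := by unfold ps; exact Nat.one_le_two_pow
  have hj16 : 16 ≤ j := by omega
  unfold pm pB pq
  set s := ps (pD k) (k + (k + 6)) (k + 6) with hsdef
  set W := (pD k + 2) ^ (2 * pl (pD k) (k + (k + 6)) + 2) with hWdef
  set D := pD k with hDdef
  have hX : 1 ≤ 2 ^ j := Nat.one_le_two_pow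
  have hM2 : 2 * c + 2 ≤ 8 * 2 ^ j := by omega
  set M := 2 * c with hMdef
  have hq : M + (s + (s + M + (M ^ 2 + 1) * (2 * s * s) + 1)) ≤ 4 * ((M + 2) ^ 2 * (j * j)) := by
    have h1 : (M ^ 2 + 1) * (2 * s * s) ≤ (M ^ 2 + 1) * (2 * j * j) := by
      apply Nat.mul_le_mul_left
      exact Nat.mul_le_mul (Nat.mul_le_mul_left _ hs) hs
    have h2 : 2 * s + 2 * M + 1 ≤ 2 * ((M + 2) ^ 2 * (j * j)) := by
      have hjj : j ≤ j * j := Nat.le_mul_self j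
      have h3 : (2 * M + 1) ≤ (M + 2) ^ 2 := by nlinarith
      have h4 : (2 * M + 1) * 1 ≤ (M + 2) ^ 2 * (j * j) := Nat.mul_le_mul h3 (by nlinarith)
      have h5 : 4 * (j * j) ≤ (M + 2) ^ 2 * (j * j) := by
        apply Nat.mul_le_mul_right; nlinarith
      omega
    have h6 : (M ^ 2 + 1) * (2 * j * j) ≤ 2 * ((M + 2) ^ 2 * (j * j)) := by
      have : (M ^ 2 + 1) * (2 * j * j) = 2 * ((M ^ 2 + 1) * (j * j)) := by ring
      rw [this]
      apply Nat.mul_le_mul_left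
      apply Nat.mul_le_mul_right
      nlinarith
    omega
  have hM3 : (M + 2) ^ 2 ≤ 64 * (2 ^ j) ^ 2 := by
    calc (M + 2) ^ 2 ≤ (8 * 2 ^ j) ^ 2 := Nat.pow_le_pow_left hM2 2
      _ = 64 * (2 ^ j) ^ 2 := by ring
  have hsq := sq_bound j hj16
  have h1 : D * ((M + (s + (s + M + (M ^ 2 + 1) * (2 * s * s) + 1))) * W)
      ≤ j * ((4 * ((64 * (2 ^ j) ^ 2) * (j * j))) * j) := by
    apply Nat.mul_le_mul hD
    apply Nat.mul_le_mul _ hw
    refine hq.trans ?_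
    apply Nat.mul_le_mul_left
    exact Nat.mul_le_mul_right _ hM3
  have h2 : j * ((4 * ((64 * (2 ^ j) ^ 2) * (j * j))) * j) = 256 * (j ^ 2) ^ 2 * (2 ^ j) ^ 2 := by ring
  have h3 : 2 ^ (4 * j) = (2 ^ j) ^ 2 * (2 ^ j) ^ 2 := by rw [mul_comm 4 j, pow_mul]; ring
  have h4 : (20 * j ^ 2) ^ 2 ≤ (2 ^ j) ^ 2 := Nat.pow_le_pow_left hsq 2
  have h5 : (20 * j ^ 2) ^ 2 = 400 * (j ^ 2) ^ 2 := by ring
  rw [h5] at h4
  have h6 : 400 * (j ^ 2) ^ 2 * (2 ^ j) ^ 2 ≤ (2 ^ j) ^ 2 * (2 ^ j) ^ 2 := Nat.mul_le_mul_right _ h4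
  have h7 : 3 * j ≤ 144 * (j ^ 2) ^ 2 * (2 ^ j) ^ 2 := by
    have h8 : j ≤ (j ^ 2) ^ 2 := by
      calc j = j ^ 1 := (pow_one j).symm
        _ ≤ j ^ 4 := Nat.pow_le_pow_right (by omega) (by norm_num)
        _ = (j ^ 2) ^ 2 := by ring
    have h9 : 1 ≤ (2 ^ j) ^ 2 := Nat.one_le_pow _ _ hX
    have h10 : j * 1 ≤ (j ^ 2) ^ 2 * (2 ^ j) ^ 2 := Nat.mul_le_mul h8 h9
    nlinarith
  have h11 : 400 * (j ^ 2) ^ 2 * (2 ^ j) ^ 2 = 256 * (j ^ 2) ^ 2 * (2 ^ j) ^ 2 + 144 * (j ^ 2) ^ 2 * (2 ^ j) ^ 2 := by ring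
  rw [h3]
  rw [h2] at h1
  rw [h11] at h6
  omega

theorem jj_large (k : ℕ) : tw 5 (3 * k + 40) ≤ jj k := by
  induction k with
  | zero => exact le_refl _
  | succ k ih =>
    have h1 : 3 * (k + 1) + 40 ≤ 2 ^ (3 * k + 40) := by
      have : ∀ n, 3 ≤ n → n + 3 ≤ 2 ^ n := by
        intro n hn
        induction n, hn using Nat.le_induction with
        | base => norm_num
        | succ n hn ih => rw [pow_succ]; omega
      have := this (3 * k + 40) (by omega)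
      omega
    have h2 : tw 5 (3 * (k + 1) + 40) ≤ tw 5 (2 ^ (3 * k + 40)) := tw_mono 5 h1
    rw [tw_pow] at h2
    refine h2.trans ?_
    show 2 ^ tw 5 (3 * k + 40) ≤ 2 ^ (4 * jj k)
    exact Nat.pow_le_pow_right (by norm_num) (by omega)

end Jia
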