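import Pool.Agent.Helper826.Bondy.BD

set_option autoImplicit false

namespace Jia
open Finset
open scoped symmDiff

/-- one step of the greedy chain -/
def Stq {V : Type*} [DecidableEq V] (A B : Finset (Sym2 V)) : Prop :=
  A ⊆ B ∧ NL B ∧ (∀ e ∈ B, ∃ C ∈ Cf B, e ∈ C) ∧ B.card + 3 ≤ 2 * (A.card + 3) ∧
    B.card ≤ A.card + ns A + 3 ∧ 2 * (Zf A).card ≤ (Zf B).card

/-- edges per even set -/
noncomputable def sg {V : Type*} [DecidableEq V] (H : Finset (Sym2 V)) : ℝ :=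
  ((H.card : ℝ) + 1) / (Zf H).card

end Jia
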