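import Pool.Agent.Helper826.Bondy.BD

set_option autoImplicit false

namespace Jia
open Finset
open scoped symmDiff
variable {V : Type*} [DecidableEq V]

omit [DecidableEq V] in
theorem sdE' [DecidableEq V] (w : Finset (Sym2 V)) : w ∆ (∅ : Finset (Sym2 V)) = w := by
  ext e; simp [mem_symmDiff]

omit [DecidableEq V] in
theorem Esd' [DecidableEq V] (w : Finset (Sym2 V)) : (∅ : Finset (Sym2 V)) ∆ w = w := by
  ext e; simp [mem_symmDiff]

theorem sdId' (z p q R1 R2 : Finset (Sym2 V)) :
    z ∆ ((R1 ∆ R2) ∆ q) = ((z ∆ p) ∆ q) ∆ ((R1 ∆ p) ∆ R2) := by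
  ext e
  simp only [mem_symmDiff]
  by_cases h1 : e ∈ z <;> by_cases h2 : e ∈ p <;> by_cases h3 : e ∈ q <;>
    by_cases h4 : e ∈ R1 <;> by_cases h5 : e ∈ R2 <;> simp [h1, h2, h3, h4, h5]

theorem mem_Av' {E : Finset (Sym2 V)} {A : Set V} {z : Finset (Sym2 V)} :
    z ∈ Av E A ↔ z ⊆ E ∧ IsEv z ∧ ∀ e ∈ z, ¬ Cross A e := by
  classical
  unfold Av
  rw [mem_filter, mem_Zf, and_assoc]

theorem Av_symmDiff' {E : Finset (Sym2 V)} {A : Set V} {z w : Finset (Sym2 V)}
    (hz : z ∈ Av E A) (hw : w ∈ Av E A) : z ∆ w ∈ Av E A := by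
  rw [mem_Av'] at *
  have h := mem_Zf.1 (Zf_symmDiff (mem_Zf.2 ⟨hz.1, hz.2.1⟩) (mem_Zf.2 ⟨hw.1, hw.2.1⟩))
  refine ⟨h.1, h.2, ?_⟩
  intro e he
  rw [mem_symmDiff] at he
  rcases he with he | he
  · exact hz.2.2 e he.1
  · exact hw.2.2 e he.1

theorem empty_mem_Av' (E : Finset (Sym2 V)) (A : Set V) : (∅ : Finset (Sym2 V)) ∈ Av E A := by
  rw [mem_Av']
  exact ⟨empty_subset _, isEv_empty, by simp⟩

theorem InS_symmDiff' {E : Finset (Sym2 V)} {A B C : Set V} {z w : Finset (Sym2 V)}
    (hz : InS E A B C z) (hw : InS E A B C w) : InS E A B C (z ∆ w) := by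
  obtain ⟨a, ha, b, hb, c, hc, rfl⟩ := hz
  obtain ⟨a', ha', b', hb', c', hc', rfl⟩ := hw
  refine ⟨a ∆ a', Av_symmDiff' ha ha', b ∆ b', Av_symmDiff' hb hb', c ∆ c',
    Av_symmDiff' hc hc', ?_⟩
  simp only [symmDiff_assoc, symmDiff_comm, symmDiff_left_comm]

theorem InS_of_A' {E : Finset (Sym2 V)} {A B C : Set V} {z : Finset (Sym2 V)}
    (hz : z ∈ Av E A) : InS E A B C z :=
  ⟨z, hz, ∅, empty_mem_Av' _ _, ∅, empty_mem_Av' _ _, by rw [sdE', sdE']⟩

theorem InS_of_B' {E : Finset (Sym2 V)} {A B C : Set V} {z : Finset (Sym2 V)}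
    (hz : z ∈ Av E B) : InS E A B C z :=
  ⟨∅, empty_mem_Av' _ _, z, hz, ∅, empty_mem_Av' _ _, by rw [sdE', Esd']⟩

theorem InS_of_C' {E : Finset (Sym2 V)} {A B C : Set V} {z : Finset (Sym2 V)}
    (hz : z ∈ Av E C) : InS E A B C z :=
  ⟨∅, empty_mem_Av' _ _, ∅, empty_mem_Av' _ _, z, hz, by rw [sdE', Esd']⟩

theorem InS_isEv' {E : Finset (Sym2 V)} {A B C : Set V} {z : Finset (Sym2 V)}
    (hz : InS E A B C z) : IsEv z := by
  obtain ⟨a, ha, b, hb, c, hc, rfl⟩ := hz
  rw [mem_Av'] at ha hb hc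
  exact (ha.2.1.symmDiff hb.2.1).symmDiff hc.2.1

theorem InS_of_D' {E : Finset (Sym2 V)} (D : Fin 3 → Set V) {z : Finset (Sym2 V)} (i : Fin 3)
    (hz : z ∈ Av E (D i)) : InS E (D 0) (D 1) (D 2) z := by
  fin_cases i
  · exact InS_of_A' hz
  · exact InS_of_B' hz
  · exact InS_of_C' hz

/-- handshake -/
theorem handshake' {q : Finset (Sym2 V)} (hq : NL q) (b : V)
    (h : ∀ y, y ≠ b → Even (dg q y)) : Even (dg q b) := by
  set W : Finset V := insert b (q.biUnion (fun e => e.toFinset)) with hW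
  have h1 : ∑ v ∈ W, dg q v = ∑ e ∈ q, 2 := by
    unfold dg
    simp only [card_filter]
    rw [sum_comm]
    apply sum_congr rfl
    intro e he
    rw [← card_filter]
    have : W.filter (fun v => v ∈ e) = e.toFinset := by
      ext v
      simp only [mem_filter, Sym2.mem_toFinset, hW, mem_insert, mem_biUnion]
      constructor
      · exact fun h => h.2
      · exact fun h => ⟨Or.inr ⟨e, he, h⟩, h⟩
    rw [this]
    exact Sym2.card_toFinset_of_not_isDiag e (hq e he)
  have hb : b ∈ W := by simp [hW]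
  rw [← add_sum_erase W _ hb] at h1
  have h2 : Even (∑ v ∈ W.erase b, dg q v) := by
    apply Finset.even_sum
    intro v hv
    exact h v (ne_of_mem_erase hv)
  have h3 : Even (dg q b + ∑ v ∈ W.erase b, dg q v) := by
    rw [h1, sum_const, smul_eq_mul]
    exact even_two.mul_left _
  rw [Nat.even_add] at h3
  exact h3.2 h2

theorem dg_erase' {z : Finset (Sym2 V)} {x w : V} (hxw : x ≠ w) (he : s(x, w) ∈ z) (y : V) :
    Even (dg (z.erase s(x, w)) y) ↔ (Even (dg z y) ↔ (y = x ↔ y = w)) := by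
  have h1 : z.erase s(x, w) = z ∆ {s(x, w)} := by
    ext e
    simp only [mem_erase, mem_symmDiff, mem_singleton]
    constructor
    · rintro ⟨h1, h2⟩; exact Or.inl ⟨h2, h1⟩
    · rintro (⟨h1, h2⟩ | ⟨h1, h2⟩)
      · exact ⟨h2, h1⟩
      · subst h1; exact absurd he h2
  rw [h1, dg_symmDiff]
  have h2 := isJn_edge hxw y
  rw [← Nat.not_even_iff_odd] at h2
  tauto

theorem walkT' {E : Finset (Sym2 V)} (hNL : NL E) (D : Fin 3 → Set V)
    (hD : ∀ i j, i ≠ j → Disjoint (D i) (D j)) :
    ∀ (n : ℕ) (z : Finset (Sym2 V)), z.card = n → z ⊆ E → ∀ x : V, (∀ i, x ∉ D i) →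
      Odd (dg z x) → (∀ y, (∀ i, y ∉ D i) → y ≠ x → Even (dg z y)) →
      ∃ t i, t ∈ D i ∧ ∃ p ⊆ z, IsJn p x t ∧ ∀ j, j ≠ i → ∀ e ∈ p, ¬ Cross (D j) e := by
  intro n
  induction n with
  | zero =>
    intro z hz _ x _ hodd _
    rw [card_eq_zero] at hz
    subst hz
    simp [dg] at hodd
  | succ n ih =>
    intro z hz hzE x hx hodd hev
    have hne : (z.filter (fun e => x ∈ e)).Nonempty := by
      rw [← card_pos]
      exact hodd.pos
    obtain ⟨e, he⟩ := hne
    rw [mem_filter] at he
    obtain ⟨hez, hxe⟩ := he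
    obtain ⟨w, rfl⟩ := Sym2.mem_iff_exists.1 hxe
    have hxw : x ≠ w := by
      intro h
      exact hNL _ (hzE hez) (by rw [Sym2.mk_isDiag_iff]; exact h)
    by_cases hw : ∃ i, w ∈ D i
    · obtain ⟨i, hi⟩ := hw
      refine ⟨w, i, hi, {s(x, w)}, ?_, isJn_edge hxw, ?_⟩
      · rw [singleton_subset_iff]; exact hez
      · intro j hj e he hc
        rw [mem_singleton] at he
        subst he
        apply hc.2
        intro y hy
        rw [Sym2.mem_iff] at hy
        rcases hy with rfl | rfl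
        · exact hx j
        · intro h
          exact Set.disjoint_left.1 (hD i j (Ne.symm hj)) hi h
    · push Not at hw
      obtain ⟨t, i, ht, p, hp, hj, hcr⟩ := ih (z.erase s(x, w)) (by rw [card_erase_of_mem hez]; omega)
        ((erase_subset _ _).trans hzE) w hw (by
          rw [← Nat.not_even_iff_odd, dg_erase' hxw hez]
          have := hev w hw (Ne.symm hxw)
          intro h
          exact hxw ((h.1 this).2 rfl).symm) (by
          intro y hy hyw
          rw [dg_erase' hxw hez]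
          by_cases hyx : y = x
          · subst hyx
            rw [← Nat.not_even_iff_odd] at hodd
            simp [hodd, hyw]
          · have := hev y hy hyx
            simp [this, hyx, hyw])
      refine ⟨t, i, ht, {s(x, w)} ∆ p, ?_, (isJn_edge hxw).trans hj, ?_⟩
      · intro e he
        rw [mem_symmDiff, mem_singleton] at he
        rcases he with ⟨rfl, _⟩ | ⟨h, _⟩
        · exact hez
        · exact mem_of_mem_erase (hp h)
      · intro j hji e he
        rw [mem_symmDiff, mem_singleton] at he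
        rcases he with ⟨rfl, _⟩ | ⟨h, _⟩
        · intro hc
          apply hc.2
          intro y hy
          rw [Sym2.mem_iff] at hy
          rcases hy with rfl | rfl
          · exact hx j
          · exact hw j
        · exact hcr j hji e h

/-- valid representative avoiding `D k` -/
def Vld' (E : Finset (Sym2 V)) (D : Fin 3 → Set V) (base : Fin 3 → V) (k : Fin 3)
    (P : Finset (Sym2 V)) : Prop :=
  P ⊆ E ∧ IsJn P (base (k + 1)) (base (k + 2)) ∧ ∀ e ∈ P, ¬ Cross (D k) e

def bs' (n : Bool) (P : Finset (Sym2 V)) : Finset (Sym2 V) := if n then P else ∅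

theorem bs_xor' (n m : Bool) (P : Finset (Sym2 V)) : bs' (xor n m) P = bs' n P ∆ bs' m P := by
  cases n <;> cases m <;> simp [bs', sdE', Esd']

def MM' (E : Finset (Sym2 V)) (D : Fin 3 → Set V) (base : Fin 3 → V) (P : Fin 3 → Finset (Sym2 V))
    (n : Fin 3 → Bool) (w : Finset (Sym2 V)) : Prop :=
  (∀ k, n k = true → Vld' E D base k (P k)) ∧
    InS E (D 0) (D 1) (D 2) (w ∆ (bs' (n 0) (P 0) ∆ (bs' (n 1) (P 1) ∆ bs' (n 2) (P 2))))

theorem MM_add' {E : Finset (Sym2 V)} {D : Fin 3 → Set V} {base : Fin 3 → V}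
    {P : Fin 3 → Finset (Sym2 V)} {n m : Fin 3 → Bool} {w v : Finset (Sym2 V)}
    (h : MM' E D base P n w) (h' : MM' E D base P m v) :
    MM' E D base P (fun k => xor (n k) (m k)) (w ∆ v) := by
  refine ⟨?_, ?_⟩
  · intro k hk
    rcases hn : n k with _ | _
    · rcases hm : m k with _ | _
      · simp [hn, hm] at hk
      · exact h'.1 k hm
    · exact h.1 k hn
  · have := InS_symmDiff' h.2 h'.2
    simp only [bs_xor']
    convert this using 1
    simp only [symmDiff_assoc, symmDiff_comm, symmDiff_left_comm]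

theorem MM_zero' {E : Finset (Sym2 V)} {D : Fin 3 → Set V} {base : Fin 3 → V}
    {P : Fin 3 → Finset (Sym2 V)} {w : Finset (Sym2 V)}
    (h : InS E (D 0) (D 1) (D 2) w) : MM' E D base P (fun _ => false) w := by
  refine ⟨by simp, ?_⟩
  simpa [bs', sdE', Esd'] using h

theorem MM_join' {E : Finset (Sym2 V)} {D : Fin 3 → Set V} {base : Fin 3 → V}
    {P : Fin 3 → Finset (Sym2 V)} (hP : ∀ k, (∃ Q, Vld' E D base k Q) → Vld' E D base k (P k))
    {i j : Fin 3} {w : Finset (Sym2 V)} (hw : w ⊆ E) (hj : IsJn w (base i) (base j))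
    (hc : ∀ k, k ≠ i → k ≠ j → ∀ e ∈ w, ¬ Cross (D k) e) : ∃ n, MM' E D base P n w := by
  by_cases hij : i = j
  · subst hij
    obtain ⟨k, hk⟩ : ∃ k : Fin 3, k ≠ i := (by decide : ∀ i : Fin 3, ∃ k : Fin 3, k ≠ i) i
    refine ⟨fun _ => false, MM_zero' (InS_of_D' D k ?_)⟩
    rw [mem_Av']
    refine ⟨hw, ?_, hc k hk hk⟩
    intro x
    have := hj x
    rw [← Nat.not_even_iff_odd] at this
    simpa using this
  · have h3 : ∀ i j : Fin 3, i ≠ j → ∃ k, k ≠ i ∧ k ≠ j ∧
        ((i = k + 1 ∧ j = k + 2) ∨ (i = k + 2 ∧ j = k + 1)) := by decide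
    obtain ⟨k, hki, hkj, hk⟩ := h3 i j hij
    have hv : Vld' E D base k w := by
      refine ⟨hw, ?_, hc k hki hkj⟩
      rcases hk with ⟨rfl, rfl⟩ | ⟨rfl, rfl⟩
      · exact hj
      · exact hj.symm
    have hPk := hP k ⟨w, hv⟩
    have hmem : w ∆ P k ∈ Av E (D k) := by
      rw [mem_Av']
      refine ⟨?_, hv.2.1.isEv hPk.2.1, ?_⟩
      · intro e he
        rw [mem_symmDiff] at he
        rcases he with he | he
        · exact hw he.1
        · exact hPk.1 he.1
      · intro e he
        rw [mem_symmDiff] at he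
        rcases he with he | he
        · exact hv.2.2 e he.1
        · exact hPk.2.2 e he.1
    refine ⟨fun l => decide (l = k), ?_, ?_⟩
    · intro l hl
      have hl := of_decide_eq_true hl
      subst hl
      exact hPk
    · have h4 : bs' (decide ((0 : Fin 3) = k)) (P 0) ∆ (bs' (decide ((1 : Fin 3) = k)) (P 1) ∆
          bs' (decide ((2 : Fin 3) = k)) (P 2)) = P k := by
        clear hmem hPk hv hk hki hkj
        fin_cases k <;> simp [bs', sdE', Esd']
      simp only []
      rw [h4]
      exact InS_of_D' D k hmem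

theorem mainInd' {E : Finset (Sym2 V)} (hNL : NL E) {D : Fin 3 → Set V} {base : Fin 3 → V}
    (hD : ∀ i j, i ≠ j → Disjoint (D i) (D j)) (hb : ∀ i, base i ∈ D i)
    (hJ : ∀ i, ∀ u ∈ D i, ∀ v ∈ D i, Jin E (D i) u v)
    {P : Fin 3 → Finset (Sym2 V)} (hP : ∀ k, (∃ Q, Vld' E D base k Q) → Vld' E D base k (P k)) :
    ∀ (N : ℕ) (z : Finset (Sym2 V)), z.card = N → z ⊆ E →
      (∀ y, (∀ i, y ∉ D i) → Even (dg z y)) →
      ∃ q ⊆ E, (∀ e ∈ q, ∃ i, ∀ x ∈ e, x ∈ D i) ∧ ∃ n, MM' E D base P n (z ∆ q) := by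
  intro N
  induction N using Nat.strong_induction_on with
  | _ N ih =>
  intro z hz hzE hev
  by_cases h1 : ∀ e ∈ z, ∀ x ∈ e, ∀ i, x ∉ D i
  · refine ⟨∅, empty_subset _, by simp, fun _ => false, MM_zero' (InS_of_D' D 0 ?_)⟩
    rw [mem_Av']
    rw [sdE']
    refine ⟨hzE, ?_, ?_⟩
    · intro y
      by_cases hy : ∀ i, y ∉ D i
      · exact hev y hy
      · push Not at hy
        obtain ⟨i, hi⟩ := hy
        have : z.filter (fun e => y ∈ e) = ∅ := by
          rw [filter_eq_empty_iff]
          intro e he hye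
          exact h1 e he y hye i hi
        unfold dg
        rw [this]
        simp
    · intro e he hc
      exact hc.2 (fun x hx => h1 e he x hx 0)
  · push Not at h1
    obtain ⟨e, hez, u, hue, i, hui⟩ := h1
    obtain ⟨x, rfl⟩ := Sym2.mem_iff_exists.1 hue
    have hux : u ≠ x := by
      intro h
      exact hNL _ (hzE hez) (by rw [Sym2.mk_isDiag_iff]; exact h)
    -- the piece
    obtain ⟨t, j, htj, p, hpz, hep, hpj, hpc⟩ : ∃ t j, t ∈ D j ∧ ∃ p ⊆ z, s(u, x) ∈ p ∧ IsJn p u t ∧
        ∀ k, k ≠ i → k ≠ j → ∀ e ∈ p, ¬ Cross (D k) e := by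
      by_cases hx : ∃ j, x ∈ D j
      · obtain ⟨j, hj⟩ := hx
        refine ⟨x, j, hj, {s(u, x)}, singleton_subset_iff.2 hez, mem_singleton_self _,
          isJn_edge hux, ?_⟩
        intro k hki hkj e he hc
        rw [mem_singleton] at he
        subst he
        apply hc.2
        intro y hy
        rw [Sym2.mem_iff] at hy
        rcases hy with rfl | rfl
        · intro h
          exact Set.disjoint_left.1 (hD i k (Ne.symm hki)) hui h
        · intro h
          exact Set.disjoint_left.1 (hD j k (Ne.symm hkj)) hj h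
      · push Not at hx
        have hxu : ∀ y, (∀ i, y ∉ D i) → y ≠ u := by
          rintro y hy rfl
          exact hy i hui
        obtain ⟨t, j, htj, p, hp, hpj, hpc⟩ := walkT' hNL D hD _ (z.erase s(u, x)) rfl
          ((erase_subset _ _).trans hzE) x hx (by
            rw [← Nat.not_even_iff_odd, dg_erase' hux hez]
            have := hev x hx
            intro h
            exact hux ((h.1 this).2 rfl).symm) (by
            intro y hy hyx
            rw [dg_erase' hux hez]
            have := hev y hy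
            simp [this, hxu y hy, hyx])
        have hep : s(u, x) ∉ p := fun h => (notMem_erase _ _) (hp h)
        refine ⟨t, j, htj, {s(u, x)} ∆ p, ?_, ?_, (isJn_edge hux).trans hpj, ?_⟩
        · intro e he
          rw [mem_symmDiff, mem_singleton] at he
          rcases he with ⟨rfl, _⟩ | ⟨h, _⟩
          · exact hez
          · exact mem_of_mem_erase (hp h)
        · rw [mem_symmDiff]
          exact Or.inl ⟨mem_singleton_self _, hep⟩
        · intro k hki hkj e he
          rw [mem_symmDiff, mem_singleton] at he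
          rcases he with ⟨rfl, _⟩ | ⟨h, _⟩
          · intro hc
            apply hc.2
            intro y hy
            rw [Sym2.mem_iff] at hy
            rcases hy with rfl | rfl
            · intro h
              exact Set.disjoint_left.1 (hD i k (Ne.symm hki)) hui h
            · exact hx k
          · exact hpc k hkj e h
    -- the rest
    have hsd : z ∆ p = z \ p := by
      ext e
      simp only [mem_symmDiff, mem_sdiff]
      constructor
      · rintro (h | ⟨h1, h2⟩)
        · exact h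
        · exact absurd (hpz h1) h2
      · exact fun h => Or.inl h
    have hcard : (z ∆ p).card < N := by
      rw [hsd, ← hz]
      apply card_lt_card
      rw [ssubset_iff_of_subset sdiff_subset]
      exact ⟨_, hez, fun h => (mem_sdiff.1 h).2 hep⟩
    obtain ⟨q, hqE, hq, n, hn⟩ := ih _ hcard (z ∆ p) rfl (by
      rw [hsd]; exact sdiff_subset.trans hzE) (by
      intro y hy
      rw [dg_symmDiff]
      have h1 := hev y hy
      have h2 := hpj y
      have h3 : y ≠ u := by rintro rfl; exact hy i hui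
      have h4 : y ≠ t := by rintro rfl; exact hy j htj
      rw [← Nat.not_even_iff_odd] at h2
      simp only [h3, h4] at h2
      simp only [h1, true_iff]
      by_contra h5
      exact (h2.1 h5) trivial)
    obtain ⟨R1, hR1E, hR1, hR1j⟩ := hJ i (base i) (hb i) u hui
    obtain ⟨R2, hR2E, hR2, hR2j⟩ := hJ j t htj (base j) (hb j)
    have hcin : ∀ (l : Fin 3) (e : Sym2 V), (∀ x ∈ e, x ∈ D l) → ∀ k, ¬ Cross (D k) e := by
      intro l e he k hc
      by_cases hkl : k = l
      · subst hkl
        exact hc.1 he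
      · apply hc.2
        intro x hx h
        exact Set.disjoint_left.1 (hD k l hkl) h (he x hx)
    obtain ⟨m, hm⟩ := MM_join' hP (i := i) (j := j) (w := (R1 ∆ p) ∆ R2) (by
      intro e he
      simp only [mem_symmDiff] at he
      rcases he with ⟨⟨h, _⟩ | ⟨h, _⟩, _⟩ | ⟨h, _⟩
      · exact hR1E h
      · exact hzE (hpz h)
      · exact hR2E h) ((hR1j.trans hpj).trans hR2j) (by
      intro k hki hkj e he
      simp only [mem_symmDiff] at he
      rcases he with ⟨⟨h, _⟩ | ⟨h, _⟩, _⟩ | ⟨h, _⟩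
      · exact hcin i e (hR1 e h) k
      · exact hpc k hki hkj e h
      · exact hcin j e (hR2 e h) k)
    refine ⟨(R1 ∆ R2) ∆ q, ?_, ?_, fun k => xor (n k) (m k), ?_⟩
    · intro e he
      simp only [mem_symmDiff] at he
      rcases he with ⟨⟨h, _⟩ | ⟨h, _⟩, _⟩ | ⟨h, _⟩
      · exact hR1E h
      · exact hR2E h
      · exact hqE h
    · intro e he
      simp only [mem_symmDiff] at he
      rcases he with ⟨⟨h, _⟩ | ⟨h, _⟩, _⟩ | ⟨h, _⟩
      · exact ⟨i, hR1 e h⟩
      · exact ⟨j, hR2 e h⟩
      · exact hq e h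
    · have h5 : z ∆ ((R1 ∆ R2) ∆ q) = ((z ∆ p) ∆ q) ∆ ((R1 ∆ p) ∆ R2) := by
        exact sdId' _ _ _ _ _
      rw [h5]
      exact MM_add' hn hm

theorem evenRep' {E : Finset (Sym2 V)} (hNL : NL E) {D : Fin 3 → Set V} {base : Fin 3 → V}
    (hD : ∀ i j, i ≠ j → Disjoint (D i) (D j)) (hb : ∀ i, base i ∈ D i)
    (hJ : ∀ i, ∀ u ∈ D i, ∀ v ∈ D i, Jin E (D i) u v)
    {P : Fin 3 → Finset (Sym2 V)} (hP : ∀ k, (∃ Q, Vld' E D base k Q) → Vld' E D base k (P k))
    {z : Finset (Sym2 V)} (hz : z ∈ Zf E) :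
    ∃ b : Bool, MM' E D base P (fun _ => b) z := by
  rw [mem_Zf] at hz
  obtain ⟨q, hqE, hq, n, hn⟩ := mainInd' hNL hD hb hJ hP _ z rfl hz.1 (fun y _ => hz.2 y)
  have hbne : ∀ i j, i ≠ j → base i ≠ base j := by
    intro i j hij h
    exact Set.disjoint_left.1 (hD i j hij) (hb i) (h ▸ hb j)
  have hpar : ∀ k y, Even (dg (bs' (n k) (P k)) y) ↔
      (n k = true → (y = base (k + 1) ↔ y = base (k + 2))) := by
    intro k y
    rcases hk : n k with _ | _
    · simp [bs', dg]
    · have := (hn.1 k hk).2.1 y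
      rw [← Nat.not_even_iff_odd] at this
      simp only [bs', if_true, true_imp_iff]
      tauto
  -- q is even away from the base points
  have hev := InS_isEv' hn.2
  have hqev1 : ∀ y, (∀ i, y ≠ base i) → Even (dg q y) := by
    intro y hy
    have h1 := hev y
    rw [dg_symmDiff, dg_symmDiff, dg_symmDiff, dg_symmDiff, hpar, hpar, hpar] at h1
    have h2 := hz.2 y
    simp only [hy, h2, true_iff, implies_true, iff_true] at h1
    exact h1
  have hqev : IsEv q := by
    intro y
    by_cases hy : ∀ i, y ≠ base i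
    · exact hqev1 y hy
    · push Not at hy
      obtain ⟨i, rfl⟩ := hy
      classical
      set qi := q.filter (fun e => ∀ x ∈ e, x ∈ D i) with hqi
      have h1 : ∀ y ∈ D i, dg qi y = dg q y := by
        intro y hy
        unfold dg
        congr 1
        ext e
        simp only [hqi, mem_filter]
        constructor
        · rintro ⟨⟨h1, _⟩, h2⟩; exact ⟨h1, h2⟩
        · rintro ⟨h1, h2⟩
          refine ⟨⟨h1, ?_⟩, h2⟩
          obtain ⟨j, hj⟩ := hq e h1
          have : i = j := by
            by_contra hij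
            exact Set.disjoint_left.1 (hD i j hij) hy (hj y h2)
          subst this
          exact hj
      have h2 : ∀ y, y ∉ D i → dg qi y = 0 := by
        intro y hy
        unfold dg
        rw [card_eq_zero, filter_eq_empty_iff]
        intro e he hye
        exact hy ((mem_filter.1 he).2 y hye)
      rw [← h1 _ (hb i)]
      apply handshake'
      · intro e he
        exact hNL e (hqE (mem_filter.1 he).1)
      · intro y hy
        by_cases hyi : y ∈ D i
        · rw [h1 y hyi]
          apply hqev1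
          intro j hj
          by_cases hij : j = i
          · subst hij; exact hy hj
          · subst hj
            exact Set.disjoint_left.1 (hD j i hij) (hb j) hyi
        · rw [h2 y hyi]; simp
  have hqA : q ∈ Av E (D 0) := by
    rw [mem_Av']
    refine ⟨hqE, hqev, ?_⟩
    intro e he hc
    obtain ⟨j, hj⟩ := hq e he
    by_cases hj0 : (0 : Fin 3) = j
    · subst hj0
      exact hc.1 hj
    · apply hc.2
      intro x hx h
      exact Set.disjoint_left.1 (hD 0 j hj0) h (hj x hx)
  have hzM : MM' E D base P n z := by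
    have h1 := MM_add' hn (MM_zero' (D := D) (base := base) (P := P) (InS_of_D' D 0 hqA))
    have h2 : (z ∆ q) ∆ q = z := by simp
    rw [h2] at h1
    simpa using h1
  have hev2 := InS_isEv' hzM.2
  have hb01 := hbne 0 1 (by decide)
  have hb02 := hbne 0 2 (by decide)
  have hb12 := hbne 1 2 (by decide)
  have e0 := hev2 (base 0)
  have e1 := hev2 (base 1)
  have e2 := hev2 (base 2)
  have hzz := hz.2
  rw [dg_symmDiff, dg_symmDiff, dg_symmDiff, hpar, hpar, hpar] at e0 e1 e2
  simp only [hzz (base 0), hzz (base 1), hzz (base 2), true_iff] at e0 e1 e2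
  have a1 : (0 : Fin 3) + 1 = 1 := by decide
  have a2 : (0 : Fin 3) + 2 = 2 := by decide
  have a3 : (1 : Fin 3) + 1 = 2 := by decide
  have a4 : (1 : Fin 3) + 2 = 0 := by decide
  have a5 : (2 : Fin 3) + 1 = 0 := by decide
  have a6 : (2 : Fin 3) + 2 = 1 := by decide
  rw [a1, a2, a3, a4, a5, a6] at e0 e1 e2
  simp only [hb01, hb02, hb12, hb01.symm, hb02.symm, hb12.symm] at e0 e1 e2
  have hn01 : n 0 = n 1 := by
    rcases h0 : n 0 with _ | _ <;> rcases h1 : n 1 with _ | _ <;> rcases h2 : n 2 with _ | _ <;>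
      simp_all
  have hn02 : n 0 = n 2 := by
    rcases h0 : n 0 with _ | _ <;> rcases h1 : n 1 with _ | _ <;> rcases h2 : n 2 with _ | _ <;>
      simp_all
  refine ⟨n 0, ?_⟩
  have : n = fun _ => n 0 := by
    funext k
    fin_cases k
    · rfl
    · exact hn01.symm
    · exact hn02.symm
  rw [← this]
  exact hzM

theorem tripleD' {E : Finset (Sym2 V)} (hNL : NL E) {D : Fin 3 → Set V}
    (hD : ∀ i j, i ≠ j → Disjoint (D i) (D j))
    (hJ : ∀ i, ∀ u ∈ D i, ∀ v ∈ D i, Jin E (D i) u v)
    {z z' : Finset (Sym2 V)} (hz : z ∈ Zf E) (hz' : z' ∈ Zf E) :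
    InS E (D 0) (D 1) (D 2) z ∨ InS E (D 0) (D 1) (D 2) z' ∨
      InS E (D 0) (D 1) (D 2) (z ∆ z') := by
  by_cases hne : ∀ i, (D i).Nonempty
  · choose base hb using hne
    classical
    have hex : ∀ k, ∃ P, (∃ Q, Vld' E D base k Q) → Vld' E D base k P := by
      intro k
      by_cases h : ∃ Q, Vld' E D base k Q
      · obtain ⟨Q, hQ⟩ := h
        exact ⟨Q, fun _ => hQ⟩
      · exact ⟨∅, fun h' => absurd h' h⟩
    choose P hP using hex
    obtain ⟨b, hbz⟩ := evenRep' hNL hD hb hJ hP hz
    obtain ⟨b', hbz'⟩ := evenRep' hNL hD hb hJ hP hz'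
    have hf : ∀ w, MM' E D base P (fun _ => false) w → InS E (D 0) (D 1) (D 2) w := by
      intro w hw
      have := hw.2
      simpa [bs', sdE', Esd'] using this
    cases b
    · exact Or.inl (hf _ hbz)
    · cases b'
      · exact Or.inr (Or.inl (hf _ hbz'))
      · refine Or.inr (Or.inr (hf _ ?_))
        have := MM_add' hbz hbz'
        simpa using this
  · push Not at hne
    obtain ⟨i, hi⟩ := hne
    left
    apply InS_of_D' D i
    rw [mem_Av']
    rw [mem_Zf] at hz
    refine ⟨hz.1, hz.2, ?_⟩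
    intro e he hc
    apply hc.2
    intro x _
    rw [hi]
    exact fun h => h

/-- for three disjoint connected sets the sums of non-crossing even sets have index at most two -/
theorem triple {E : Finset (Sym2 V)} (hNL : NL E) {A B C : Set V} (hAB : Disjoint A B)
    (hAC : Disjoint A C) (hBC : Disjoint B C) (hA : ∀ u ∈ A, ∀ v ∈ A, Jin E A u v)
    (hB : ∀ u ∈ B, ∀ v ∈ B, Jin E B u v) (hC : ∀ u ∈ C, ∀ v ∈ C, Jin E C u v)
    {z z' : Finset (Sym2 V)} (hz : z ∈ Zf E) (hz' : z' ∈ Zf E) :
    InS E A B C z ∨ InS E A B C z' ∨ InS E A B C (z ∆ z') := by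
  have h := tripleD' (D := ![A, B, C]) hNL (by
    intro i j hij
    fin_cases i <;> fin_cases j
    · exact absurd rfl hij
    · exact hAB
    · exact hAC
    · exact hAB.symm
    · exact absurd rfl hij
    · exact hBC
    · exact hAC.symm
    · exact hBC.symm
    · exact absurd rfl hij) (by
    intro i
    fin_cases i
    · exact hA
    · exact hB
    · exact hC) hz hz'
  exact h

end Jia
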