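import Pool.Agent.Helper826.Bondy.BD

set_option autoImplicit false

namespace Jia
open Finset
open scoped symmDiff
variable {V : Type*} [DecidableEq V]

omit [DecidableEq V] in
theorem aux833_fib {α : Type*} [DecidableEq α] (G : Finset (Finset α))
    (hG : ∀ a ∈ G, ∀ b ∈ G, a ∆ b ∈ G) (f : Finset α → Finset α)
    (hf : ∀ a b, f (a ∆ b) = f a ∆ f b) (K : Finset (Finset α))
    (hK : ∀ z, z ∈ K ↔ z ∈ G ∧ f z = ∅) : G.card = (G.image f).card * K.card := by
  rw [Finset.card_eq_sum_card_image f G]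
  have h : ∀ b ∈ G.image f, (G.filter (fun a => f a = b)).card = K.card := by
    intro b hb
    rw [Finset.mem_image] at hb
    obtain ⟨z0, hz0, rfl⟩ := hb
    apply Finset.card_bij (fun z _ => z ∆ z0)
    · intro z hz
      rw [Finset.mem_filter] at hz
      rw [hK]
      exact ⟨hG z hz.1 z0 hz0, by rw [hf, hz.2, symmDiff_self]; rfl⟩
    · intro z _ w _ h
      exact symmDiff_left_injective z0 h
    · intro z hz
      rw [hK] at hz
      refine ⟨z ∆ z0, ?_, by simp⟩
      rw [Finset.mem_filter]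
      refine ⟨hG z hz.1 z0 hz0, ?_⟩
      rw [hf, hz.2]
      exact bot_symmDiff _
  rw [Finset.sum_congr rfl h, Finset.sum_const, smul_eq_mul]

omit [DecidableEq V] in
theorem aux833_two {α : Type*} [DecidableEq α] (I R : Finset (Finset α)) (hR : R ⊆ I)
    (h : ∀ p ∈ I, ∀ q ∈ I, p ∈ R ∨ q ∈ R ∨ p ∆ q ∈ R) : I.card ≤ 2 * R.card := by
  by_cases he : I ⊆ R
  · have := Finset.card_le_card he
    omega
  · obtain ⟨p, hpI, hpR⟩ := Finset.not_subset.1 he
    have h1 : (I \ R).card ≤ R.card := by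
      refine Finset.card_le_card_of_injOn (fun q => p ∆ q) ?_ ?_
      · intro q hq
        have hq' := Finset.mem_sdiff.1 (Finset.mem_coe.1 hq)
        rcases h p hpI q hq'.1 with h2 | h2 | h2
        · exact absurd h2 hpR
        · exact absurd h2 hq'.2
        · exact Finset.mem_coe.2 h2
      · intro q _ q' _ hqq
        exact symmDiff_right_injective p hqq
    have h2 : (I \ R).card + R.card = I.card := Finset.card_sdiff_add_card_eq_card hR
    omega

omit [DecidableEq V] in
open Classical in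
theorem aux833_filter [DecidableEq V] (p : Sym2 V → Prop) (a b : Finset (Sym2 V)) :
    (a ∆ b).filter p = (a.filter p) ∆ (b.filter p) := by
  ext e
  simp only [Finset.mem_filter, Finset.mem_symmDiff]
  tauto

theorem aux833_mem_Av {E z : Finset (Sym2 V)} {A : Set V} :
    z ∈ Av E A ↔ z ∈ Zf E ∧ ∀ e ∈ z, ¬ Cross A e := by
  classical
  unfold Av
  simp only [Finset.mem_filter]

theorem aux833_Av_closed {E : Finset (Sym2 V)} {A : Set V} :
    ∀ a ∈ Av E A, ∀ b ∈ Av E A, a ∆ b ∈ Av E A := by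
  intro a ha b hb
  rw [aux833_mem_Av] at *
  refine ⟨Zf_symmDiff ha.1 hb.1, fun e he => ?_⟩
  rw [Finset.mem_symmDiff] at he
  rcases he with he | he
  · exact ha.2 e he.1
  · exact hb.2 e he.1

open Classical in
theorem av_index {E : Finset (Sym2 V)} {A : Set V} {ρ : ℕ}
    (h : (E.filter (fun e => Cross A e)).card ≤ ρ) : (Zf E).card ≤ 2 ^ ρ * (Av E A).card := by
  have h1 := aux833_fib (Zf E) (fun a ha b hb => Zf_symmDiff ha hb)
    (fun z => z.filter (fun e => Cross A e)) (fun a b => aux833_filter _ a b) (Av E A) (by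
      intro z
      rw [aux833_mem_Av, Finset.filter_eq_empty_iff])
  rw [h1]
  refine Nat.mul_le_mul_right _ ?_
  have h2 : (Zf E).image (fun z => z.filter (fun e => Cross A e)) ⊆
      (E.filter (fun e => Cross A e)).powerset := by
    intro y hy
    rw [Finset.mem_image] at hy
    obtain ⟨z, hz, rfl⟩ := hy
    rw [Finset.mem_powerset]
    exact Finset.filter_subset_filter _ (mem_Zf.1 hz).1
  have h3 := Finset.card_le_card h2
  rw [Finset.card_powerset] at h3
  exact h3.trans (Nat.pow_le_pow_right (by norm_num) h)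

open Classical in
/-- for fixed `i` only few `j` are badly correlated with `i` -/
theorem bad_count {E : Finset (Sym2 V)} (s ρ : ℕ) (D : ℕ → Set V)
    (hcr : ∀ i < s, (E.filter (fun e => Cross (D i) e)).card ≤ ρ)
    (htr : ∀ i < s, ∀ j < s, ∀ k < s, i ≠ j → i ≠ k → j ≠ k → ∀ z ∈ Zf E, ∀ z' ∈ Zf E,
      InS E (D i) (D j) (D k) z ∨ InS E (D i) (D j) (D k) z' ∨ InS E (D i) (D j) (D k) (z ∆ z')) :
    ∀ i < s, ((Finset.range s).filter (fun j =>
      ¬ (Zf E).card * (Av E (D i) ∩ Av E (D j)).card ≤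
        2 * ((Av E (D i)).card * (Av E (D j)).card))).card ≤ 2 ^ (2 ^ ρ) + 1 := by
  intro i hi
  obtain ⟨r, hr⟩ : ∃ r : Finset (Sym2 V) → Finset (Sym2 V),
      ∀ z, r z = z.filter (fun e => Cross (D i) e) := ⟨_, fun _ => rfl⟩
  have hradd : ∀ a b, r (a ∆ b) = r a ∆ r b := by
    intro a b
    rw [hr, hr, hr]
    exact aux833_filter _ a b
  have hr0 : ∀ z, r z = ∅ ↔ ∀ e ∈ z, ¬ Cross (D i) e := by
    intro z
    rw [hr, Finset.filter_eq_empty_iff]
  have hAi : ∀ a ∈ Av E (D i), r a = ∅ := by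
    intro a ha
    rw [hr0]
    exact (aux833_mem_Av.1 ha).2
  obtain ⟨R, hR⟩ : ∃ R : ℕ → Finset (Finset (Sym2 V)), ∀ j, R j = (Av E (D j)).image r :=
    ⟨_, fun _ => rfl⟩
  have hZ : (Zf E).card = ((Zf E).image r).card * (Av E (D i)).card :=
    aux833_fib (Zf E) (fun a ha b hb => Zf_symmDiff ha hb) r hradd (Av E (D i)) (by
      intro z
      rw [aux833_mem_Av, hr0])
  have hAj : ∀ j, (Av E (D j)).card = (R j).card * (Av E (D i) ∩ Av E (D j)).card := by
    intro j
    rw [hR]
    refine aux833_fib (Av E (D j)) aux833_Av_closed r hradd _ ?_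
    intro z
    rw [Finset.mem_inter, hr0]
    constructor
    · rintro ⟨h1, h2⟩
      exact ⟨h2, (aux833_mem_Av.1 h1).2⟩
    · rintro ⟨h1, h2⟩
      exact ⟨aux833_mem_Av.2 ⟨(aux833_mem_Av.1 h1).1, h2⟩, h1⟩
  have hRcl : ∀ j, ∀ p ∈ R j, ∀ q ∈ R j, p ∆ q ∈ R j := by
    intro j p hp q hq
    rw [hR, Finset.mem_image] at *
    obtain ⟨a, ha, rfl⟩ := hp
    obtain ⟨b, hb, rfl⟩ := hq
    exact ⟨a ∆ b, aux833_Av_closed a ha b hb, hradd a b⟩
  have hRI : ∀ j, R j ⊆ (Zf E).image r := by
    intro j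
    rw [hR]
    exact Finset.image_subset_image (fun z hz => (aux833_mem_Av.1 hz).1)
  have hgood : ∀ j < s, ∀ k < s, i ≠ j → i ≠ k → j ≠ k → R j = R k →
      (Zf E).card * (Av E (D i) ∩ Av E (D j)).card ≤
        2 * ((Av E (D i)).card * (Av E (D j)).card) := by
    intro j hj k hk hij hik hjk hRjk
    have hS : ∀ z, InS E (D i) (D j) (D k) z → r z ∈ R j := by
      rintro z ⟨a, ha, b, hb, c, hc, rfl⟩
      rw [hradd, hradd, hAi a ha]
      have e1 : (∅ : Finset (Sym2 V)) ∆ r b = r b := bot_symmDiff _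
      rw [e1]
      refine hRcl j _ ?_ _ ?_
      · rw [hR]; exact Finset.mem_image_of_mem r hb
      · rw [hRjk, hR]; exact Finset.mem_image_of_mem r hc
    have h2 : ((Zf E).image r).card ≤ 2 * (R j).card := by
      refine aux833_two _ _ (hRI j) ?_
      intro p hp q hq
      rw [Finset.mem_image] at hp hq
      obtain ⟨z, hz, rfl⟩ := hp
      obtain ⟨z', hz', rfl⟩ := hq
      rcases htr i hi j hj k hk hij hik hjk z hz z' hz' with h | h | h
      · exact Or.inl (hS z h)
      · exact Or.inr (Or.inl (hS z' h))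
      · right; right
        rw [← hradd]
        exact hS _ h
    rw [hZ, hAj j]
    calc ((Zf E).image r).card * (Av E (D i)).card * (Av E (D i) ∩ Av E (D j)).card
        ≤ (2 * (R j).card) * (Av E (D i)).card * (Av E (D i) ∩ Av E (D j)).card :=
          Nat.mul_le_mul_right _ (Nat.mul_le_mul_right _ h2)
      _ = _ := by ring
  obtain ⟨B, hB⟩ : ∃ B : Finset ℕ, B = (Finset.range s).filter (fun j =>
      ¬ (Zf E).card * (Av E (D i) ∩ Av E (D j)).card ≤
        2 * ((Av E (D i)).card * (Av E (D j)).card)) := ⟨_, rfl⟩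
  rw [← hB]
  have h1 : (B.erase i).card ≤ 2 ^ (2 ^ ρ) := by
    have h2 : (B.erase i).card ≤ ((E.filter (fun e => Cross (D i) e)).powerset.powerset).card := by
      refine Finset.card_le_card_of_injOn R ?_ ?_
      · intro j _
        refine Finset.mem_coe.2 (Finset.mem_powerset.2 (fun y hy => ?_))
        rw [hR, Finset.mem_image] at hy
        obtain ⟨z, hz, rfl⟩ := hy
        rw [Finset.mem_powerset, hr]
        exact Finset.filter_subset_filter _ (mem_Zf.1 (aux833_mem_Av.1 hz).1).1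
      · intro j hj k hk hjk
        by_contra hne
        have hj' := Finset.mem_erase.1 (Finset.mem_coe.1 hj)
        have hk' := Finset.mem_erase.1 (Finset.mem_coe.1 hk)
        rw [hB, Finset.mem_filter, Finset.mem_range] at hj' hk'
        exact hj'.2.2 (hgood j hj'.2.1 k hk'.2.1 (Ne.symm hj'.1) (Ne.symm hk'.1) hne hjk)
    rw [Finset.card_powerset, Finset.card_powerset] at h2
    refine h2.trans ?_
    exact Nat.pow_le_pow_right (by norm_num) (Nat.pow_le_pow_right (by norm_num) (hcr i hi))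
  have h2 := Finset.pred_card_le_card_erase (s := B) (a := i)
  omega

end Jia
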