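import Mathlib

set_option autoImplicit false

namespace Jia
open Finset

open Classical in
/-- second moment method -/
theorem second_moment {α : Type*} (Z : Finset α) (A : ℕ → Finset α) (s ρ p c t : ℕ)
    (hZ : Z.Nonempty) (hsub : ∀ i < s, A i ⊆ Z) (hbig : ∀ i < s, Z.card ≤ 2 ^ ρ * (A i).card)
    (hpair : ∀ i < s, ((Finset.range s).filter (fun j =>
      ¬ Z.card * (A i ∩ A j).card ≤ 2 * ((A i).card * (A j).card))).card ≤ c)
    (hs : c * 2 ^ (2 * ρ + p) ≤ s) (hs0 : 0 < s) (ht : t * 2 ^ (ρ + p + 2) ≤ s) :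
    ((1 : ℝ) / 2 - 1 / 2 ^ (p + 1)) * Z.card ≤
      (Z.filter (fun z => t ≤ ((Finset.range s).filter (fun i => z ∈ A i)).card)).card := by
  set N : α → ℝ := fun z => (((Finset.range s).filter (fun i => z ∈ A i)).card : ℝ) with hN
  have hNe : ∀ z, N z = ∑ i ∈ range s, (if z ∈ A i then (1:ℝ) else 0) := by
    intro z
    rw [hN]
    simp only
    rw [Finset.card_filter]
    push_cast
    rfl
  have hN0 : ∀ z, 0 ≤ N z := fun z => Nat.cast_nonneg _
  set T : ℝ := ∑ z ∈ Z, N z with hT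
  have hcardA : ∀ i < s, ∑ z ∈ Z, (if z ∈ A i then (1:ℝ) else 0) = (A i).card := by
    intro i hi
    rw [Finset.sum_boole]
    congr 2
    ext z
    simp only [mem_filter]
    exact ⟨fun h => h.2, fun h => ⟨hsub i hi h, h⟩⟩
  have hTe : T = ∑ i ∈ range s, ((A i).card : ℝ) := by
    rw [hT]
    simp_rw [hNe]
    rw [Finset.sum_comm]
    exact Finset.sum_congr rfl fun i hi => hcardA i (mem_range.1 hi)
  have hcardAA : ∀ i < s, ∀ j, ∑ z ∈ Z, (if z ∈ A i then (1:ℝ) else 0) * (if z ∈ A j then (1:ℝ) else 0)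
      = ((A i ∩ A j).card : ℝ) := by
    intro i hi j
    have : ∀ z, (if z ∈ A i then (1:ℝ) else 0) * (if z ∈ A j then (1:ℝ) else 0) =
        if z ∈ A i ∩ A j then (1:ℝ) else 0 := by
      intro z
      by_cases h1 : z ∈ A i <;> by_cases h2 : z ∈ A j <;> simp [h1, h2]
    simp_rw [this]
    rw [Finset.sum_boole]
    congr 2
    ext z
    simp only [mem_filter, mem_inter]
    exact ⟨fun h => h.2, fun h => ⟨hsub i hi h.1, h⟩⟩
  have hT2e : ∑ z ∈ Z, N z ^ 2 = ∑ i ∈ range s, ∑ j ∈ range s, ((A i ∩ A j).card : ℝ) := by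
    have h1 : ∀ z, N z ^ 2 = ∑ i ∈ range s, ∑ j ∈ range s,
        (if z ∈ A i then (1:ℝ) else 0) * (if z ∈ A j then (1:ℝ) else 0) := by
      intro z
      rw [sq, hNe, Finset.sum_mul_sum]
    simp_rw [h1]
    rw [Finset.sum_comm]
    refine Finset.sum_congr rfl fun i hi => ?_
    rw [Finset.sum_comm]
    exact Finset.sum_congr rfl fun j _ => hcardAA i (mem_range.1 hi) j
  have hZ0 : (0:ℝ) < Z.card := by exact_mod_cast hZ.card_pos
  have hs0' : (0:ℝ) < s := by exact_mod_cast hs0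
  -- the upper bound for the second moment
  have hup : (Z.card : ℝ) * ∑ z ∈ Z, N z ^ 2 ≤ 2 * T ^ 2 + s * c * (Z.card : ℝ) ^ 2 := by
    have hrow : ∀ i ∈ range s, (Z.card : ℝ) * ∑ j ∈ range s, ((A i ∩ A j).card : ℝ) ≤
        2 * (A i).card * T + c * (Z.card : ℝ) ^ 2 := by
      intro i hi
      have hi' := mem_range.1 hi
      rw [Finset.mul_sum]
      have hterm : ∀ j ∈ range s, (Z.card : ℝ) * ((A i ∩ A j).card : ℝ) ≤
          2 * (A i).card * (A j).card +
          (if ¬ Z.card * (A i ∩ A j).card ≤ 2 * ((A i).card * (A j).card) then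
            (Z.card : ℝ) ^ 2 else 0) := by
        intro j hj
        by_cases h : Z.card * (A i ∩ A j).card ≤ 2 * ((A i).card * (A j).card)
        swap
        · rw [if_pos h]
          have h1 : ((A i ∩ A j).card : ℝ) ≤ Z.card := by
            exact_mod_cast Finset.card_le_card (Finset.inter_subset_left.trans (hsub i hi'))
          have h2 : (0:ℝ) ≤ 2 * (A i).card * (A j).card := by positivity
          have h3 := mul_le_mul_of_nonneg_left h1 hZ0.le
          rw [sq]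
          linarith
        · rw [if_neg (not_not.2 h)]
          have h' : Z.card * (A i ∩ A j).card ≤ 2 * ((A i).card * (A j).card) := h
          have h1 : ((Z.card * (A i ∩ A j).card : ℕ) : ℝ) ≤
              ((2 * ((A i).card * (A j).card) : ℕ) : ℝ) := Nat.cast_le.2 h'
          push_cast at h1
          linarith
      refine (Finset.sum_le_sum hterm).trans ?_
      rw [Finset.sum_add_distrib, ← Finset.mul_sum, ← hTe, ← Finset.sum_filter,
        Finset.sum_const, nsmul_eq_mul]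
      have h1 : (((range s).filter (fun j =>
        ¬ Z.card * (A i ∩ A j).card ≤ 2 * ((A i).card * (A j).card))).card : ℝ) ≤ c :=
        Nat.cast_le.2 (hpair i hi')
      have h2 := mul_le_mul_of_nonneg_right h1 (sq_nonneg (Z.card : ℝ))
      linarith
    rw [hT2e, Finset.mul_sum]
    refine (Finset.sum_le_sum hrow).trans ?_
    rw [Finset.sum_add_distrib, Finset.sum_const, card_range, nsmul_eq_mul, ← Finset.sum_mul,
      ← Finset.mul_sum, ← hTe]
    apply le_of_eq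
    ring
  -- lower bound of T
  have hTlow : (s : ℝ) * Z.card ≤ 2 ^ ρ * T := by
    rw [hTe, Finset.mul_sum]
    have : ∑ i ∈ range s, (Z.card : ℝ) ≤ ∑ i ∈ range s, 2 ^ ρ * ((A i).card : ℝ) := by
      refine Finset.sum_le_sum fun i hi => ?_
      exact_mod_cast hbig i (mem_range.1 hi)
    rwa [Finset.sum_const, card_range, nsmul_eq_mul] at this
  have h2ρ : (0:ℝ) < 2 ^ ρ := by positivity
  have hTpos : 0 < T := by
    have : 0 < (s:ℝ) * Z.card := by positivity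
    by_contra hc
    have := mul_nonpos_of_nonneg_of_nonpos h2ρ.le (not_lt.1 hc)
    linarith
  set e : ℝ := 1 / 2 ^ (p + 2) with he
  have he0 : 0 < e := by positivity
  have he1 : e ≤ 1 / 4 := by
    rw [he]
    apply div_le_div_of_nonneg_left (by norm_num) (by norm_num)
    have : (1:ℝ) ≤ 2 ^ p := one_le_pow₀ (by norm_num)
    rw [pow_add]; linarith
  have hep : 1 / (2:ℝ) ^ p = 4 * e := by rw [he, pow_add]; field_simp; norm_num
  have hep1 : 1 / (2:ℝ) ^ (p + 1) = 2 * e := by rw [he, pow_add, pow_add]; field_simp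
  -- s c |Z|^2 <= 4 e T^2
  have hbad : (s : ℝ) * c * (Z.card : ℝ) ^ 2 ≤ 4 * e * T ^ 2 := by
    have h1 : (c : ℝ) * 2 ^ (2 * ρ + p) ≤ s := by exact_mod_cast hs
    have h2 : ((s : ℝ) * Z.card) ^ 2 ≤ (2 ^ ρ * T) ^ 2 :=
      pow_le_pow_left₀ (by positivity) hTlow 2
    have h3 : (s : ℝ) * c * (Z.card : ℝ) ^ 2 * 2 ^ (2 * ρ + p) ≤ (2 ^ ρ * T) ^ 2 := by
      calc (s : ℝ) * c * (Z.card : ℝ) ^ 2 * 2 ^ (2 * ρ + p)
          = (s * (Z.card : ℝ) ^ 2) * (c * 2 ^ (2 * ρ + p)) := by ring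
        _ ≤ (s * (Z.card : ℝ) ^ 2) * s := mul_le_mul_of_nonneg_left h1 (by positivity)
        _ = ((s : ℝ) * Z.card) ^ 2 := by ring
        _ ≤ _ := h2
    rw [← hep]
    have h4 : (2:ℝ) ^ (2 * ρ + p) = (2 ^ ρ) ^ 2 * 2 ^ p := by
      rw [pow_add, mul_comm 2 ρ, pow_mul]
    rw [h4, mul_pow] at h3
    have hp0 : (0:ℝ) < 2 ^ p := by positivity
    rw [div_mul_eq_mul_div, one_mul, le_div_iff₀ hp0]
    have h5 : (0:ℝ) < (2 ^ ρ) ^ 2 := by positivity
    have h6 : (2 ^ ρ) ^ 2 * ((s : ℝ) * c * (Z.card : ℝ) ^ 2 * 2 ^ p) ≤ (2 ^ ρ) ^ 2 * T ^ 2 := by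
      linarith
    exact le_of_mul_le_mul_left h6 h5
  -- contributions of small N
  set B := Z.filter (fun z => t ≤ ((Finset.range s).filter (fun i => z ∈ A i)).card) with hB
  have hsmall : ∑ z ∈ Z.filter (fun z => ¬ t ≤ ((Finset.range s).filter (fun i => z ∈ A i)).card),
      N z ≤ e * T := by
    have h1 : ∑ z ∈ Z.filter (fun z => ¬ t ≤ ((Finset.range s).filter (fun i => z ∈ A i)).card),
        N z ≤ t * Z.card := by
      have h2 : ∀ z ∈ Z.filter (fun z => ¬ t ≤ ((Finset.range s).filter (fun i => z ∈ A i)).card),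
          N z ≤ t := by
        intro z hz
        rw [mem_filter] at hz
        show (((Finset.range s).filter (fun i => z ∈ A i)).card : ℝ) ≤ t
        exact Nat.cast_le.2 (not_le.1 hz.2).le
      refine (Finset.sum_le_sum h2).trans ?_
      rw [Finset.sum_const, nsmul_eq_mul, mul_comm]
      apply mul_le_mul_of_nonneg_left _ (Nat.cast_nonneg _)
      exact_mod_cast Finset.card_filter_le _ _
    refine h1.trans ?_
    have h3 : (t : ℝ) * 2 ^ (ρ + p + 2) ≤ s := by exact_mod_cast ht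
    have h4 : (2:ℝ) ^ (ρ + p + 2) = 2 ^ ρ * 2 ^ (p + 2) := by rw [← pow_add]; ring_nf
    rw [h4] at h3
    have hp0 : (0:ℝ) < 2 ^ (p + 2) := by positivity
    rw [he, div_mul_eq_mul_div, one_mul, le_div_iff₀ hp0]
    have h5 : 2 ^ ρ * ((t : ℝ) * Z.card * 2 ^ (p + 2)) ≤ 2 ^ ρ * T := by
      calc 2 ^ ρ * ((t : ℝ) * Z.card * 2 ^ (p + 2)) = (t * (2 ^ ρ * 2 ^ (p + 2))) * Z.card := by ring
        _ ≤ s * Z.card := mul_le_mul_of_nonneg_right h3 hZ0.le
        _ ≤ _ := hTlow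
    exact le_of_mul_le_mul_left h5 h2ρ
  have hsplit := Finset.sum_filter_add_sum_filter_not Z
    (fun z => t ≤ ((Finset.range s).filter (fun i => z ∈ A i)).card) N
  rw [← hB, ← hT] at hsplit
  have hBN : (1 - e) * T ≤ ∑ z ∈ B, N z := by linarith
  have hCS : (∑ z ∈ B, N z) ^ 2 ≤ B.card * ∑ z ∈ B, N z ^ 2 := sq_sum_le_card_mul_sum_sq
  have hB2 : ∑ z ∈ B, N z ^ 2 ≤ ∑ z ∈ Z, N z ^ 2 :=
    Finset.sum_le_sum_of_subset_of_nonneg (Finset.filter_subset _ _) fun z _ _ => sq_nonneg _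
  have hBc : (0:ℝ) ≤ B.card := Nat.cast_nonneg _
  have h1 : ((1 - e) * T) ^ 2 ≤ B.card * ∑ z ∈ Z, N z ^ 2 := by
    calc ((1 - e) * T) ^ 2 ≤ (∑ z ∈ B, N z) ^ 2 :=
          pow_le_pow_left₀ (mul_nonneg (by linarith) hTpos.le) hBN 2
      _ ≤ _ := hCS
      _ ≤ _ := mul_le_mul_of_nonneg_left hB2 hBc
  have h2 : (Z.card : ℝ) * ((1 - e) * T) ^ 2 ≤ B.card * (2 * T ^ 2 + 4 * e * T ^ 2) := by
    calc (Z.card : ℝ) * ((1 - e) * T) ^ 2 ≤ Z.card * (B.card * ∑ z ∈ Z, N z ^ 2) :=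
          mul_le_mul_of_nonneg_left h1 hZ0.le
      _ = B.card * (Z.card * ∑ z ∈ Z, N z ^ 2) := by ring
      _ ≤ B.card * (2 * T ^ 2 + s * c * (Z.card : ℝ) ^ 2) := mul_le_mul_of_nonneg_left hup hBc
      _ ≤ _ := by
          apply mul_le_mul_of_nonneg_left _ hBc
          linarith
  have hT2 : 0 < T ^ 2 := pow_pos hTpos 2
  have h3 : T ^ 2 * ((Z.card : ℝ) * (1 - e) ^ 2) ≤ T ^ 2 * (B.card * (2 + 4 * e)) := by
    calc T ^ 2 * ((Z.card : ℝ) * (1 - e) ^ 2) = (Z.card : ℝ) * ((1 - e) * T) ^ 2 := by ring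
      _ ≤ _ := h2
      _ = _ := by ring
  have h4 := le_of_mul_le_mul_left h3 hT2
  rw [hep1]
  have h5 : (1 / 2 - 2 * e) * (2 + 4 * e) ≤ (1 - e) ^ 2 := by
    have : 0 ≤ e ^ 2 := sq_nonneg e
    have e1 : (1 - e) ^ 2 - (1 / 2 - 2 * e) * (2 + 4 * e) = 9 * e ^ 2 := by ring
    linarith
  have h6 := mul_le_mul_of_nonneg_left h5 hZ0.le
  have h7 : (2 + 4 * e) * ((1 / 2 - 2 * e) * Z.card) ≤ (2 + 4 * e) * B.card := by linarith
  exact le_of_mul_le_mul_left h7 (by linarith)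

end Jia
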