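import Pool.Agent.Helper826.Bondy.BD

set_option autoImplicit false

namespace Jia
open Finset
open scoped symmDiff
variable {V : Type*} [DecidableEq V]

open Classical in
/-- toggling: few even sets are completable to cycles and avoid many of the crossings -/
theorem toggle {E K : Finset (Sym2 V)} (hNL : NL E) (s t : ℕ) (D : ℕ → Set V)
    (hdis : ∀ i < s, ∀ j < s, i ≠ j → Disjoint (D i) (D j))
    (hK : ∀ i < s, ∀ e ∈ K, ∀ x ∈ e, x ∉ D i)
    (hC : ∀ i < s, ∃ C ∈ Zf E, C.Nonempty ∧ ∀ e ∈ C, ∀ x ∈ e, x ∈ D i) :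
    2 ^ t * ((Zf E).filter (fun z => (∃ y ∈ Cf E, y \ K = z \ K) ∧
      t ≤ ((Finset.range s).filter (fun i => z ∈ Av E (D i))).card)).card ≤
        (t + 1) * (Zf E).card := by
  have exm : ∀ e : Sym2 V, ∃ x, x ∈ e := by
    intro e
    induction e using Sym2.ind with
    | _ a b => exact ⟨a, Sym2.mem_mk_left a b⟩
  have hC' : ∀ i, ∃ C : Finset (Sym2 V), i < s →
      (C ∈ Zf E ∧ C.Nonempty ∧ ∀ e ∈ C, ∀ x ∈ e, x ∈ D i) := by
    intro i
    by_cases hi : i < s
    · obtain ⟨C, h1, h2, h3⟩ := hC i hi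
      exact ⟨C, fun _ => ⟨h1, h2, h3⟩⟩
    · exact ⟨∅, fun h => absurd h hi⟩
  choose C hCC using hC'
  obtain ⟨U, hU⟩ : ∃ U : Finset ℕ → Finset (Sym2 V), U = fun S => S.biUnion C := ⟨_, rfl⟩
  have hUm : ∀ (S : Finset ℕ) e, e ∈ U S ↔ ∃ j ∈ S, e ∈ C j := by
    intro S e; rw [hU]; simp
  have memU : ∀ (S : Finset ℕ), (∀ j ∈ S, j < s) → ∀ i < s, ∀ e : Sym2 V,
      (∀ x ∈ e, x ∈ D i) → (e ∈ U S ↔ (i ∈ S ∧ e ∈ C i)) := by
    intro S hS i hi e he
    rw [hUm]
    constructor
    · rintro ⟨j, hj, hje⟩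
      have hji : j = i := by
        by_contra hne
        obtain ⟨x, hx⟩ := exm e
        exact Set.disjoint_left.mp (hdis j (hS j hj) i hi hne)
          ((hCC j (hS j hj)).2.2 e hje x hx) (he x hx)
      subst hji
      exact ⟨hj, hje⟩
    · rintro ⟨h1, h2⟩
      exact ⟨i, h1, h2⟩
  have UZ : ∀ S : Finset ℕ, (∀ j ∈ S, j < s) → U S ∈ Zf E := by
    intro S
    induction S using Finset.induction_on with
    | empty =>
      intro _
      have : U ∅ = ∅ := by rw [hU]; simp
      rw [this]
      exact empty_mem_Zf E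
    | insert a S ha ih =>
      intro hS
      have h1 := ih (fun j hj => hS j (mem_insert_of_mem hj))
      have has := hS a (mem_insert_self a S)
      have h2 : U (insert a S) = C a ∆ U S := by
        ext e
        rw [mem_symmDiff, hUm]
        have hnot : e ∈ C a → e ∉ U S := by
          intro he hmem
          have := (memU S (fun j hj => hS j (mem_insert_of_mem hj)) a has e
            ((hCC a has).2.2 e he)).mp hmem
          exact ha this.1
        constructor
        · rintro ⟨j, hj, hje⟩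
          rcases mem_insert.mp hj with rfl | hj
          · exact Or.inl ⟨hje, hnot hje⟩
          · right
            have : e ∈ U S := (hUm S e).mpr ⟨j, hj, hje⟩
            exact ⟨this, fun h => hnot h this⟩
        · rintro (⟨h, _⟩ | ⟨h, _⟩)
          · exact ⟨a, mem_insert_self a S, h⟩
          · obtain ⟨j, hj, hje⟩ := (hUm S e).mp h
            exact ⟨j, mem_insert_of_mem hj, hje⟩
      rw [h2]
      exact Zf_symmDiff (hCC a has).1 h1
  have ncross : ∀ S : Finset ℕ, (∀ j ∈ S, j < s) → ∀ i < s, ∀ e ∈ U S, ¬ Cross (D i) e := by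
    intro S hS i hi e he hcr
    obtain ⟨j, hj, hje⟩ := (hUm S e).mp he
    have hin := (hCC j (hS j hj)).2.2 e hje
    by_cases hij : i = j
    · subst hij
      exact hcr.1 hin
    · apply hcr.2
      intro x hx hxi
      exact Set.disjoint_left.mp (hdis i hi j (hS j hj) hij) hxi (hin x hx)
  obtain ⟨I, hI⟩ : ∃ I : Finset (Sym2 V) → Finset ℕ,
      I = fun z => (Finset.range s).filter (fun i => z ∈ Av E (D i)) := ⟨_, rfl⟩
  have hIm : ∀ z i, i ∈ I z ↔ i < s ∧ z ∈ Zf E ∧ ∀ e ∈ z, ¬ Cross (D i) e := by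
    intro z i
    rw [hI]
    simp only [mem_filter, Finset.mem_range, Av]
  have Isub : ∀ (S : Finset ℕ), (∀ j ∈ S, j < s) → ∀ z ∈ Zf E, I z ⊆ I (z ∆ U S) := by
    intro S hS z hz i hi
    rw [hIm] at hi ⊢
    refine ⟨hi.1, Zf_symmDiff hz (UZ S hS), ?_⟩
    intro e he
    rcases mem_symmDiff.mp he with h | h
    · exact hi.2.2 e h.1
    · exact ncross S hS i hi.1 e h.1
  have Itog : ∀ (S : Finset ℕ), (∀ j ∈ S, j < s) → ∀ z ∈ Zf E, I (z ∆ U S) = I z := by
    intro S hS z hz
    apply Finset.Subset.antisymm _ (Isub S hS z hz)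
    have h := Isub S hS (z ∆ U S) (Zf_symmDiff hz (UZ S hS))
    rwa [symmDiff_symmDiff_cancel_right] at h
  have hJ : ∀ I : Finset ℕ, ∃ J : Finset ℕ, J ⊆ I ∧ (t ≤ I.card → J.card = t) := by
    intro I
    by_cases h : t ≤ I.card
    · obtain ⟨J, h1, h2⟩ := Finset.exists_subset_card_eq h
      exact ⟨J, h1, fun _ => h2⟩
    · exact ⟨∅, empty_subset _, fun h' => absurd h' h⟩
  choose jj hjj using hJ
  obtain ⟨G, hG⟩ : ∃ G : Finset (Finset (Sym2 V)), G = (Zf E).filter (fun z =>
      (∃ y ∈ Cf E, y \ K = z \ K) ∧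
      t ≤ ((Finset.range s).filter (fun i => z ∈ Av E (D i))).card) := ⟨_, rfl⟩
  have hGm : ∀ z, z ∈ G ↔ z ∈ Zf E ∧ (∃ y ∈ Cf E, y \ K = z \ K) ∧ t ≤ (I z).card := by
    intro z
    rw [hG, hI]
    simp only [mem_filter]
  have key : ∀ z ∈ G, ∀ i ∈ I z, ∀ j ∈ I z, i ≠ j → (∃ e ∈ z, ∀ x ∈ e, x ∈ D i) →
      (∃ e ∈ z, ∀ x ∈ e, x ∈ D j) → False := by
    intro z hz i hi j hj hij ⟨e, hez, he⟩ ⟨e', hez', he'⟩
    obtain ⟨hzZ, ⟨y, hy, hyK⟩, _⟩ := (hGm z).mp hz
    rw [hIm] at hi hj
    have hyz : ∀ f : Sym2 V, f ∉ K → (f ∈ y ↔ f ∈ z) := by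
      intro f hf
      have h1 : f ∈ y \ K ↔ f ∈ z \ K := by rw [hyK]
      simp only [mem_sdiff, hf, not_false_eq_true, and_true] at h1
      exact h1
    have heK : e ∉ K := by
      intro h
      obtain ⟨x, hx⟩ := exm e
      exact hK i hi.1 e h x hx (he x hx)
    have heK' : e' ∉ K := by
      intro h
      obtain ⟨x, hx⟩ := exm e'
      exact hK j hj.1 e' h x hx (he' x hx)
    have hcyc := (mem_Cf.mp hy).2
    have hall : ∀ f ∈ y, (∀ x ∈ f, x ∈ D i) ∨ (∀ x ∈ f, x ∉ D i) := by
      intro f hf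
      by_cases hfK : f ∈ K
      · right
        intro x hx
        exact hK i hi.1 f hfK x hx
      · have h1 := hi.2.2 f ((hyz f hfK).mp hf)
        unfold Cross at h1
        by_contra hcon
        push Not at hcon
        apply h1
        refine ⟨?_, ?_⟩
        · push Not
          exact hcon.1
        · push Not
          exact hcon.2
    rcases cyc_conn hcyc (D i) hall with h | h
    · have h2 := h e' ((hyz e' heK').mpr hez')
      obtain ⟨x, hx⟩ := exm e'
      exact Set.disjoint_left.mp (hdis i hi.1 j hj.1 hij) (h2 x hx) (he' x hx)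
    · have h2 := h e ((hyz e heK).mpr hez)
      obtain ⟨x, hx⟩ := exm e
      exact h2 x hx (he x hx)
  -- the pairs
  obtain ⟨P1, hP1⟩ : ∃ P : Finset (Σ _ : Finset (Sym2 V), Finset ℕ),
      P = G.sigma (fun z => (jj (I z)).powerset) := ⟨_, rfl⟩
  obtain ⟨P2, hP2⟩ : ∃ P : Finset (Σ _ : Finset (Sym2 V), Finset ℕ),
      P = (Zf E).sigma (fun w => (jj (I w)).powerset.filter (fun S => w ∆ U S ∈ G)) :=
    ⟨_, rfl⟩
  have c1 : P1.card = 2 ^ t * G.card := by
    rw [hP1, card_sigma, mul_comm]
    rw [Finset.sum_congr rfl (fun z hz => by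
      rw [card_powerset, (hjj (I z)).2 ((hGm z).mp hz).2.2])]
    rw [sum_const, smul_eq_mul]
  have hlt : ∀ z ∈ G, ∀ j ∈ jj (I z), j < s := by
    intro z hz j hj
    have h1 := (hjj (I z)).1 hj
    exact ((hIm z j).mp h1).1
  have c12 : P1.card ≤ P2.card := by
    apply Finset.card_le_card_of_injOn (fun p => ⟨p.1 ∆ U p.2, p.2⟩)
    · intro p hp
      rw [hP1, Finset.mem_coe, mem_sigma, mem_powerset] at hp
      obtain ⟨hz, hS⟩ := hp
      have hSs : ∀ j ∈ p.2, j < s := fun j hj => hlt p.1 hz j (hS hj)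
      have hzZ := ((hGm p.1).mp hz).1
      rw [hP2, Finset.mem_coe, mem_sigma, mem_filter, mem_powerset]
      simp only
      refine ⟨Zf_symmDiff hzZ (UZ p.2 hSs), ?_, ?_⟩
      · rw [Itog p.2 hSs p.1 hzZ]
        exact hS
      · rw [symmDiff_symmDiff_cancel_right]
        exact hz
    · rintro ⟨z, S⟩ _ ⟨z', S'⟩ _ h
      simp only [Sigma.mk.injEq, heq_eq_eq] at h
      obtain ⟨h1, h2⟩ := h
      subst h2
      have := symmDiff_left_injective (U S) h1
      rw [this]
  have c2 : P2.card ≤ (t + 1) * (Zf E).card := by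
    rw [hP2, card_sigma, mul_comm]
    have hb : ∀ w ∈ Zf E, ((jj (I w)).powerset.filter (fun S => w ∆ U S ∈ G)).card ≤ t + 1 := by
      intro w hw
      rcases Finset.eq_empty_or_nonempty
        ((jj (I w)).powerset.filter (fun S => w ∆ U S ∈ G)) with hemp | hne
      · rw [hemp]; simp
      obtain ⟨S1, hS1⟩ := hne
      rw [mem_filter, mem_powerset] at hS1
      -- the index set
      have hIw : t ≤ (I w).card := by
        have hSs1 : ∀ j ∈ S1, j < s := fun j hj => ((hIm w j).mp ((hjj (I w)).1 (hS1.1 hj))).1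
        have h1 := ((hGm _).mp hS1.2).2.2
        rwa [Itog S1 hSs1 w hw] at h1
      have hJI := (hjj (I w)).1
      have hJc := (hjj (I w)).2 hIw
      have hJs : ∀ j ∈ jj (I w), j < s := fun j hj => ((hIm w j).mp (hJI hj)).1
      obtain ⟨S0, hS0⟩ : ∃ S0 : Finset ℕ, S0 = (jj (I w)).filter
        (fun i => w.filter (fun e => ∀ x ∈ e, x ∈ D i) = C i) := ⟨_, rfl⟩
      have hS0m : ∀ i, i ∈ S0 ↔ i ∈ jj (I w) ∧
          w.filter (fun e => ∀ x ∈ e, x ∈ D i) = C i := by
        intro i; rw [hS0, mem_filter]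
      have hmap : ∀ S ∈ (jj (I w)).powerset.filter (fun S => w ∆ U S ∈ G),
          S ∆ S0 ∈ (jj (I w)).powerset.filter (fun R => R.card ≤ 1) := by
        intro S hS
        rw [mem_filter, mem_powerset] at hS
        obtain ⟨hSJ, hSG⟩ := hS
        have hSs : ∀ j ∈ S, j < s := fun j hj => hJs j (hSJ hj)
        rw [mem_filter, mem_powerset]
        have hsub : S ∆ S0 ⊆ jj (I w) := by
          intro i hi
          rcases mem_symmDiff.mp hi with h | h
          · exact hSJ h.1
          · exact ((hS0m i).mp h.1).1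
        refine ⟨hsub, ?_⟩
        have hN : ∀ i ∈ S ∆ S0, ∃ e ∈ w ∆ U S, ∀ x ∈ e, x ∈ D i := by
          intro i hi
          have hiJ := hsub hi
          have his := hJs i hiJ
          rcases mem_symmDiff.mp hi with ⟨hiS, hi0⟩ | ⟨hi0, hiS⟩
          · -- toggled
            have hne : w.filter (fun e => ∀ x ∈ e, x ∈ D i) ≠ C i :=
              fun h => hi0 ((hS0m i).mpr ⟨hiJ, h⟩)
            by_contra hcon
            push Not at hcon
            apply hne
            ext e
            rw [mem_filter]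
            constructor
            · rintro ⟨hew, he⟩
              by_contra hnC
              have hnU : e ∉ U S := by
                rw [memU S hSs i his e he]
                exact fun h => hnC h.2
              obtain ⟨x, hx, hx'⟩ := hcon e (mem_symmDiff.mpr (Or.inl ⟨hew, hnU⟩))
              exact hx' (he x hx)
            · intro heC
              have he := (hCC i his).2.2 e heC
              have hU' : e ∈ U S := (memU S hSs i his e he).mpr ⟨hiS, heC⟩
              refine ⟨?_, he⟩
              by_contra hnw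
              obtain ⟨x, hx, hx'⟩ := hcon e (mem_symmDiff.mpr (Or.inr ⟨hU', hnw⟩))
              exact hx' (he x hx)
          · -- not toggled
            have heq := ((hS0m i).mp hi0).2
            obtain ⟨e, he⟩ := (hCC i his).2.1
            have hin := (hCC i his).2.2 e he
            rw [← heq, mem_filter] at he
            refine ⟨e, mem_symmDiff.mpr (Or.inl ⟨he.1, ?_⟩), hin⟩
            rw [memU S hSs i his e hin]
            exact fun h => hiS h.1
        rw [Finset.card_le_one]
        intro i hi j hj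
        by_contra hij
        have hIe : I (w ∆ U S) = I w := Itog S hSs w hw
        exact key (w ∆ U S) hSG i (by rw [hIe]; exact hJI (hsub hi)) j
          (by rw [hIe]; exact hJI (hsub hj)) hij (hN i hi) (hN j hj)
      have hcard : ((jj (I w)).powerset.filter (fun R => R.card ≤ 1)).card ≤ t + 1 := by
        have hsub2 : (jj (I w)).powerset.filter (fun R => R.card ≤ 1) ⊆
            insert ∅ ((jj (I w)).image (fun i => ({i} : Finset ℕ))) := by
          intro R hR
          rw [mem_filter, mem_powerset] at hR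
          rw [mem_insert, mem_image]
          rcases Finset.eq_empty_or_nonempty R with h | ⟨i, hi⟩
          · exact Or.inl h
          · right
            refine ⟨i, hR.1 hi, ?_⟩
            ext j
            rw [mem_singleton]
            constructor
            · rintro rfl; exact hi
            · intro hj
              exact Finset.card_le_one.mp hR.2 j hj i hi
        refine (card_le_card hsub2).trans ((card_insert_le _ _).trans ?_)
        have := card_image_le (s := jj (I w)) (f := fun i => ({i} : Finset ℕ))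
        omega
      refine le_trans (Finset.card_le_card_of_injOn (fun S => S ∆ S0) hmap ?_) hcard
      intro S _ S' _ h
      exact symmDiff_left_injective S0 h
    calc ∑ w ∈ Zf E, ((jj (I w)).powerset.filter (fun S => w ∆ U S ∈ G)).card
        ≤ ∑ w ∈ Zf E, (t + 1) := Finset.sum_le_sum hb
      _ = (Zf E).card * (t + 1) := by rw [sum_const, smul_eq_mul]
  rw [← hG]
  calc 2 ^ t * G.card = P1.card := c1.symm
    _ ≤ P2.card := c12
    _ ≤ (t + 1) * (Zf E).card := c2

end Jia
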