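import Pool.Agent.Helper826.Bondy.K1
import Pool.Agent.Helper826.Bondy.C1b
import Pool.Agent.Helper826.Bondy.C2b
import Pool.Agent.Helper826.Bondy.C3b
import Pool.Agent.Helper826.Bondy.C4b

set_option autoImplicit false

namespace Jia
open Finset
open scoped symmDiff
variable {V : Type*} [DecidableEq V]

/-- membership in a filter, for an arbitrary decision procedure -/
theorem mem_filt {α : Type*} {s : Finset α} {p : α → Prop} {i1 : DecidablePred p} {a : α} :
    a ∈ @Finset.filter α p i1 s ↔ a ∈ s ∧ p a := Finset.mem_filter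

/-- `second_moment` for an arbitrary decidable equality -/
theorem second_moment' {α : Type*} [i0 : DecidableEq α] (Z : Finset α) (A : ℕ → Finset α)
    (s ρ p c t : ℕ)
    (hZ : Z.Nonempty) (hsub : ∀ i < s, A i ⊆ Z) (hbig : ∀ i < s, Z.card ≤ 2 ^ ρ * (A i).card)
    (hpair : ∀ i < s, ((Finset.range s).filter (fun j =>
      ¬ Z.card * (A i ∩ A j).card ≤ 2 * ((A i).card * (A j).card))).card ≤ c)
    (hs : c * 2 ^ (2 * ρ + p) ≤ s) (hs0 : 0 < s) (ht : t * 2 ^ (ρ + p + 2) ≤ s) :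
    ((1 : ℝ) / 2 - 1 / 2 ^ (p + 1)) * Z.card ≤
      (Z.filter (fun z => t ≤ ((Finset.range s).filter (fun i => z ∈ A i)).card)).card := by
  have h0 : i0 = fun a b => Classical.propDecidable (a = b) := Subsingleton.elim _ _
  subst h0
  refine (second_moment Z A s ρ p c t hZ hsub hbig (fun i hi => ?_) hs hs0 ht).trans ?_
  · exact (card_le_card (fun e he => mem_filt.2 (mem_filt.1 he))).trans (hpair i hi)
  · norm_cast

/-- many thin sets outside `K`: at most about half of the outer parts come from cycles -/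
theorem thin_crit {E K : Finset (Sym2 V)} (hNL : NL E) (hKE : K ⊆ E) (ρ p : ℕ)
    (hT : ThinFam E {x | ∃ e ∈ K, x ∈ e} ρ (2 ^ (2 ^ ρ + 2 * ρ + 2 * p + 10))) :
    (ns E : ℝ) * (Zf K).card ≤ (1 / 2 + 1 / 2 ^ p) * ((K.card : ℝ) + 1) * (Zf E).card := by
  classical
  obtain ⟨s, hs⟩ : ∃ s, s = 2 ^ (2 ^ ρ + 2 * ρ + 2 * p + 10) := ⟨_, rfl⟩
  rw [← hs] at hT
  obtain ⟨D, hdis, hK, hcr, hcon, hC⟩ := hT
  have hpw : ∀ p : ℕ, 2 * p + 5 ≤ 2 ^ (p + 3) := by
    intro p
    induction p with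
    | zero => norm_num
    | succ p ih =>
      have h1 : 2 ^ (p + 1 + 3) = 2 * 2 ^ (p + 3) := by ring
      omega
  have hbad := bad_count s ρ D (fun i hi => (card_le_card (fun e he => mem_filt.2
      (mem_filt.1 he))).trans (hcr i hi)) (by
    intro i hi j hj k hk hij hik hjk z hz z' hz'
    exact triple hNL (hdis i hi j hj hij) (hdis i hi k hk hik) (hdis j hj k hk hjk)
      (hcon i hi) (hcon j hj) (hcon k hk) hz hz')
  have hsm := second_moment' (Zf E) (fun i => Av E (D i)) s ρ p (2 ^ (2 ^ ρ) + 1) (2 * p + 4)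
    ⟨∅, empty_mem_Zf E⟩ (fun i _ => by unfold Av; exact filter_subset _ _)
    (fun i hi => av_index ((card_le_card (fun e he => mem_filt.2
      (mem_filt.1 he))).trans (hcr i hi))) hbad (by
      have h1 : 2 ^ (2 ^ ρ) + 1 ≤ 2 ^ (2 ^ ρ + 1) := by
        rw [pow_succ]
        have := Nat.one_le_two_pow (n := 2 ^ ρ)
        omega
      calc (2 ^ (2 ^ ρ) + 1) * 2 ^ (2 * ρ + p) ≤ 2 ^ (2 ^ ρ + 1) * 2 ^ (2 * ρ + p) :=
            Nat.mul_le_mul_right _ h1
        _ = 2 ^ (2 ^ ρ + 1 + (2 * ρ + p)) := (pow_add _ _ _).symm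
        _ ≤ s := by rw [hs]; exact Nat.pow_le_pow_right (by norm_num) (by omega))
    (by rw [hs]; positivity) (by
      have h1 := hpw p
      calc (2 * p + 4) * 2 ^ (ρ + p + 2) ≤ 2 ^ (p + 3) * 2 ^ (ρ + p + 2) :=
            Nat.mul_le_mul_right _ (by omega)
        _ = 2 ^ (p + 3 + (ρ + p + 2)) := (pow_add _ _ _).symm
        _ ≤ s := by
          rw [hs]
          have h2 := Nat.one_le_two_pow (n := ρ)
          exact Nat.pow_le_pow_right (by norm_num) (by omega))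
  have htg := toggle (K := K) hNL s (2 * p + 4) D hdis
    (fun i hi e he x hx hxD => hK i hi x ⟨e, he, hx⟩ hxD) hC
  have hCfZ : Cf E ⊆ Zf E := by
    intro z hz
    rw [mem_Cf] at hz
    exact mem_Zf.2 ⟨hz.1, (cyc_ev hz.2).1⟩
  have hout := outer_zf hKE (Cf E) hCfZ
  have hsz := size_outer K (Cf E)
  -- the four numbers
  obtain ⟨Z, hZ⟩ : ∃ Z : ℝ, Z = ((Zf E).card : ℝ) := ⟨_, rfl⟩
  have hZ0 : 0 ≤ Z := by rw [hZ]; positivity
  set A := (Zf E).filter (fun z => ∃ y ∈ Cf E, y \ K = z \ K) with hA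
  set B := (Zf E).filter (fun z => 2 * p + 4 ≤
    ((Finset.range s).filter (fun i => z ∈ Av E (D i))).card) with hB
  set AB := (Zf E).filter (fun z => (∃ y ∈ Cf E, y \ K = z \ K) ∧
      2 * p + 4 ≤ ((Finset.range s).filter (fun i => z ∈ Av E (D i))).card) with hAB
  have h1 : A ⊆ AB ∪ ((Zf E) \ B) := by
    intro z hz
    rw [hA, mem_filter] at hz
    rw [mem_union, mem_sdiff, hAB, hB, mem_filter, mem_filter]
    by_cases h : 2 * p + 4 ≤ ((Finset.range s).filter (fun i => z ∈ Av E (D i))).card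
    · exact Or.inl ⟨hz.1, hz.2, h⟩
    · exact Or.inr ⟨hz.1, fun h' => h h'.2⟩
  have h2 : (A.card : ℝ) ≤ AB.card + (Z - B.card) := by
    have h3 := (card_le_card h1).trans (card_union_le _ _)
    have h4 : ((Zf E) \ B).card + B.card = (Zf E).card := by
      exact card_sdiff_add_card_eq_card (filter_subset _ _)
    have h3' : (A.card : ℝ) ≤ AB.card + ((Zf E) \ B).card := by exact_mod_cast h3
    have h4' : (((Zf E) \ B).card : ℝ) + B.card = Z := by rw [hZ]; exact_mod_cast h4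
    linarith
  have h3 : ((1 : ℝ) / 2 - 1 / 2 ^ (p + 1)) * Z ≤ B.card := by
    rw [hZ]
    refine hsm.trans ?_
    rw [hB]
  have h4 : (AB.card : ℝ) ≤ 1 / 2 ^ (p + 1) * Z := by
    have h5 : ((2 : ℝ) ^ (2 * p + 4)) * AB.card ≤ ((2 * p + 4 : ℕ) + 1 : ℝ) * Z := by
      rw [hZ]
      exact_mod_cast htg
    have h6 : ((2 * p + 4 : ℕ) + 1 : ℝ) ≤ 2 ^ (p + 3) := by
      have := hpw p
      exact_mod_cast (by omega : 2 * p + 4 + 1 ≤ 2 ^ (p + 3))
    have h7 : ((2 : ℝ) ^ (2 * p + 4)) = 2 ^ (p + 3) * 2 ^ (p + 1) := by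
      rw [← pow_add]; congr 1; ring
    rw [h7] at h5
    have h8 : (2 : ℝ) ^ (p + 3) * (2 ^ (p + 1) * AB.card) ≤ 2 ^ (p + 3) * Z := by
      have := mul_le_mul_of_nonneg_right h6 hZ0
      nlinarith
    have h9 : (2 : ℝ) ^ (p + 1) * AB.card ≤ Z := le_of_mul_le_mul_left h8 (by positivity)
    rw [div_mul_eq_mul_div, one_mul, le_div_iff₀ (by positivity)]
    linarith
  have h5 : (A.card : ℝ) ≤ (1 / 2 + 1 / 2 ^ p) * Z := by
    have h6 : (1 : ℝ) / 2 ^ p = 1 / 2 ^ (p + 1) + 1 / 2 ^ (p + 1) := by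
      rw [pow_succ]; field_simp; norm_num
    rw [h6]
    nlinarith
  have h6 : ((((Cf E).image (fun z => z \ K)).card : ℝ)) * (Zf K).card ≤ A.card := by
    exact_mod_cast hout
  have h7 : (ns E : ℝ) ≤ (((Cf E).image (fun z => z \ K)).card : ℝ) * ((K.card : ℝ) + 1) := by
    exact_mod_cast hsz
  rw [← hZ]
  calc (ns E : ℝ) * (Zf K).card
      ≤ ((((Cf E).image (fun z => z \ K)).card : ℝ) * ((K.card : ℝ) + 1)) * (Zf K).card :=
        mul_le_mul_of_nonneg_right h7 (by positivity)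
    _ = ((K.card : ℝ) + 1) * (((((Cf E).image (fun z => z \ K)).card : ℝ)) * (Zf K).card) := by ring
    _ ≤ ((K.card : ℝ) + 1) * ((1 / 2 + 1 / 2 ^ p) * Z) :=
        mul_le_mul_of_nonneg_left (h6.trans h5) (by positivity)
    _ = (1 / 2 + 1 / 2 ^ p) * ((K.card : ℝ) + 1) * Z := by ring

end Jia
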