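import Pool.Agent.Helper826.Bondy.BD

set_option autoImplicit false

namespace Jia
open Finset
open scoped symmDiff
variable {V : Type*} [DecidableEq V]

theorem jF_chain_DG2 (E : Finset (Sym2 V))
    (hcov : ∀ e ∈ E, ∃ C ∈ Cf E, e ∈ C) (x : V) : ∀ k : ℕ, 2 * k ≤ dg E x + 1 →
    ∃ U S : Finset (Sym2 V), U ⊆ E ∧ S ⊆ U ∧ (∀ e ∈ S, x ∈ e) ∧ dg U x ≤ 2 * k ∧
      ∀ E', U ⊆ E' → (Zf E').card = 2 ^ k * (Zf (E' \ S)).card := by
  intro k
  induction k with
  | zero =>
    intro _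
    refine ⟨∅, ∅, empty_subset _, empty_subset _, by simp, by simp [dg], ?_⟩
    intro E' _
    simp
  | succ k ih =>
    intro hk
    obtain ⟨U, S, hUE, hSU, hSx, hdU, hcard⟩ := ih (by omega)
    have hlt : dg U x < dg E x := by omega
    obtain ⟨e, he1, he2⟩ := Finset.exists_mem_notMem_of_card_lt_card hlt
    rw [mem_filter] at he1 he2
    obtain ⟨heE, hex⟩ := he1
    have heU : e ∉ U := fun h => he2 ⟨h, hex⟩
    obtain ⟨C, hC, heC⟩ := hcov e heE
    rw [mem_Cf] at hC
    obtain ⟨hev, hdC, _, _⟩ := cyc_ev hC.2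
    refine ⟨U ∪ C, insert e S, union_subset hUE hC.1, ?_, ?_, ?_, ?_⟩
    · intro f hf
      rw [mem_insert] at hf
      rcases hf with rfl | hf
      · exact mem_union_right _ heC
      · exact mem_union_left _ (hSU hf)
    · intro f hf
      rw [mem_insert] at hf
      rcases hf with rfl | hf
      · exact hex
      · exact hSx f hf
    · have h1 : dg (U ∪ C) x ≤ dg U x + dg C x := by
        unfold dg
        rw [filter_union]
        exact card_union_le _ _
      have h2 := hdC x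
      omega
    · intro E' hE'
      have hCE : C ∈ Zf E' := mem_Zf.2 ⟨subset_union_right.trans hE', hev⟩
      rw [Zf_erase hCE heC]
      have hUe : U ⊆ E'.erase e := by
        intro f hf
        rw [mem_erase]
        exact ⟨fun h => heU (h ▸ hf), hE' (mem_union_left _ hf)⟩
      rw [hcard _ hUe]
      have hset : (E'.erase e) \ S = E' \ insert e S := by
        ext f
        simp only [mem_sdiff, mem_erase, mem_insert]
        tauto
      rw [hset, pow_succ]
      ring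

theorem jF_fiber_DG2 (E : Finset (Sym2 V)) (x : V) :
    ((Zf E).filter (fun z => dg z x ≤ 2)).card ≤
      (Zf (E \ E.filter (fun e => x ∈ e))).card * (1 + dg E x) ^ 2 := by
  classical
  set St := E.filter (fun e => x ∈ e) with hSt
  set T : Finset (Finset (Sym2 V)) := (powersetCard 0 St ∪ powersetCard 1 St) ∪ powersetCard 2 St
    with hT
  have hTc : T.card ≤ (1 + dg E x) ^ 2 := by
    have h1 : T.card ≤ (powersetCard 0 St).card + (powersetCard 1 St).card +
        (powersetCard 2 St).card :=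
      (card_union_le _ _).trans (Nat.add_le_add_right (card_union_le _ _) _)
    rw [card_powersetCard, card_powersetCard, card_powersetCard] at h1
    have hd : St.card = dg E x := rfl
    rw [hd, Nat.choose_zero_right, Nat.choose_one_right, Nat.choose_two_right] at h1
    have h2 : dg E x * (dg E x - 1) / 2 ≤ dg E x * dg E x :=
      (Nat.div_le_self _ _).trans (Nat.mul_le_mul_left _ (Nat.sub_le _ _))
    have h3 : (1 + dg E x) ^ 2 = 1 + 2 * dg E x + dg E x * dg E x := by ring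
    omega
  have hmap : ∀ z ∈ (Zf E).filter (fun z => dg z x ≤ 2), z.filter (fun e => x ∈ e) ∈ T := by
    intro z hz
    rw [mem_filter, mem_Zf] at hz
    obtain ⟨⟨hzE, _⟩, hz2⟩ := hz
    have hsub : z.filter (fun e => x ∈ e) ⊆ St := filter_subset_filter _ hzE
    have hc : (z.filter (fun e => x ∈ e)).card ≤ 2 := hz2
    rw [hT, mem_union, mem_union, mem_powersetCard, mem_powersetCard, mem_powersetCard]
    have : (z.filter (fun e => x ∈ e)).card = 0 ∨ (z.filter (fun e => x ∈ e)).card = 1 ∨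
      (z.filter (fun e => x ∈ e)).card = 2 := by omega
    rcases this with h | h | h
    · exact Or.inl (Or.inl ⟨hsub, h⟩)
    · exact Or.inl (Or.inr ⟨hsub, h⟩)
    · exact Or.inr ⟨hsub, h⟩
  refine (card_le_mul_card_image_of_maps_to hmap (Zf (E \ St)).card ?_).trans
    (Nat.mul_le_mul_left _ hTc)
  intro A _
  rcases (((Zf E).filter (fun z => dg z x ≤ 2)).filter
    (fun z => z.filter (fun e => x ∈ e) = A)).eq_empty_or_nonempty with h0 | ⟨z0, hz0⟩
  · rw [h0]; simp
  · rw [mem_filter, mem_filter] at hz0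
    obtain ⟨⟨hz0E, _⟩, hz0A⟩ := hz0
    refine card_le_card_of_injOn (fun z => z ∆ z0) ?_ ?_
    · intro z hz
      have hz' := mem_coe.1 hz
      rw [mem_filter, mem_filter] at hz'
      obtain ⟨⟨hzE, _⟩, hzA⟩ := hz'
      have h1 := mem_Zf.1 (Zf_symmDiff hzE hz0E)
      refine mem_coe.2 (mem_Zf.2 ⟨?_, h1.2⟩)
      intro e he
      rw [mem_sdiff]
      refine ⟨h1.1 he, ?_⟩
      intro hest
      rw [hSt, mem_filter] at hest
      have hxe := hest.2
      have hiff : e ∈ z ↔ e ∈ z0 := by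
        have h2 : e ∈ z.filter (fun e => x ∈ e) ↔ e ∈ z0.filter (fun e => x ∈ e) := by
          rw [hzA, hz0A]
        rw [mem_filter, mem_filter] at h2
        tauto
      rw [mem_symmDiff] at he
      tauto
    · intro a _ b _ hab
      exact symmDiff_left_injective z0 hab

theorem jF_num : ∀ n : ℕ, 16 * (n + 21) ^ 2 < 2 ^ (n + 20) := by
  intro n
  induction n with
  | zero => norm_num
  | succ n ih =>
    have h1 : 2 ^ (n + 1 + 20) = 2 * 2 ^ (n + 20) := by
      rw [show n + 1 + 20 = (n + 20) + 1 by ring, pow_succ]; ring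
    rw [h1]
    have h2 : 16 * (n + 1 + 21) ^ 2 ≤ 2 * (16 * (n + 21) ^ 2) := by
      ring_nf
      nlinarith [Nat.zero_le (n ^ 2), Nat.zero_le n]
    omega

/-- explicit degree bound -/
theorem deg_bound' {E : Finset (Sym2 V)} (hNL : NL E) (hcov : ∀ e ∈ E, ∃ C ∈ Cf E, e ∈ C) (a : ℕ)
    (h : (Zf E).card ≤ 2 ^ a * (Cf E).card) (x : V) : dg E x ≤ 4 * a + 40 := by
  classical
  obtain ⟨U, S, hUE, hSU, hSx, _, hcard⟩ := jF_chain_DG2 E hcov x (dg E x / 2) (by omega)
  have h1 := hcard E hUE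
  have h2 := jF_fiber_DG2 E x
  have h3 : (Cf E).card ≤ ((Zf E).filter (fun z => dg z x ≤ 2)).card := by
    apply card_le_card
    intro C hC
    rw [mem_Cf] at hC
    obtain ⟨hev, hdC, _, _⟩ := cyc_ev hC.2
    rw [mem_filter, mem_Zf]
    exact ⟨⟨hC.1, hev⟩, hdC x⟩
  have h4 : (Zf (E \ E.filter (fun e => x ∈ e))).card ≤ (Zf (E \ S)).card := by
    apply card_le_card
    apply Zf_mono
    intro e he
    rw [mem_sdiff] at he ⊢
    refine ⟨he.1, fun heS => he.2 ?_⟩
    rw [mem_filter]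
    exact ⟨he.1, hSx e heS⟩
  obtain ⟨N, hN⟩ : ∃ N, N = (Zf (E \ E.filter (fun e => x ∈ e))).card := ⟨_, rfl⟩
  have hNpos : 0 < N := by rw [hN]; exact Zf_card_pos _
  rw [← hN] at h2 h4
  obtain ⟨d, hd⟩ : ∃ d, d = dg E x := ⟨_, rfl⟩
  rw [← hd] at h1 h2 ⊢
  have h5 : 2 ^ (d / 2) * N ≤ (Zf E).card := by
    rw [h1]
    exact Nat.mul_le_mul_left _ h4
  have h6 : 2 ^ (d / 2) * N ≤ (2 ^ a * (1 + d) ^ 2) * N := by
    calc 2 ^ (d / 2) * N ≤ (Zf E).card := h5
      _ ≤ 2 ^ a * (Cf E).card := h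
      _ ≤ 2 ^ a * (N * (1 + d) ^ 2) := Nat.mul_le_mul_left _ (h3.trans h2)
      _ = (2 ^ a * (1 + d) ^ 2) * N := by ring
  have h7 : 2 ^ (d / 2) ≤ 2 ^ a * (1 + d) ^ 2 := Nat.le_of_mul_le_mul_right h6 hNpos
  by_contra hcon
  push Not at hcon
  obtain ⟨j, hj⟩ : ∃ j, d / 2 = 2 * a + 20 + j := ⟨d / 2 - (2 * a + 20), by omega⟩
  have h8 : 1 + d ≤ 4 * (a + j + 21) := by omega
  have h9 := jF_num (a + j)
  have h10 : (1 + d) ^ 2 < 2 ^ (a + j + 20) := by
    calc (1 + d) ^ 2 ≤ (4 * (a + j + 21)) ^ 2 := Nat.pow_le_pow_left h8 2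
      _ = 16 * (a + j + 21) ^ 2 := by ring
      _ < _ := h9
  have h11 : 2 ^ (d / 2) = 2 ^ a * 2 ^ (a + j + 20) := by
    rw [hj, ← pow_add]
    congr 1
    ring
  rw [h11] at h7
  have h12 : 2 ^ a * (1 + d) ^ 2 < 2 ^ a * 2 ^ (a + j + 20) :=
    Nat.mul_lt_mul_of_pos_left h10 (by positivity)
  omega

end Jia
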