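import Pool.Agent.Helper826.Bondy.FGd

set_option autoImplicit false

namespace Jia
open Finset

theorem Rw.mono {nb : ℕ → Finset ℕ} {k l x y : ℕ} (h : Rw nb k x y) (hkl : k ≤ l) :
    Rw nb l x y := by
  induction h generalizing l with
  | refl k x => exact Rw.refl l x
  | thin h hw _ ih => exact Rw.thin h hw (ih hkl)
  | @br k x w y h _ ih =>
    obtain ⟨l', rfl⟩ : ∃ l', l = l' + 1 := ⟨l - 1, by omega⟩
    exact Rw.br h (ih (by omega))

theorem Rw.trans {nb : ℕ → Finset ℕ} {k l x y z : ℕ} (h : Rw nb k x y) (h' : Rw nb l y z) :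
    Rw nb (k + l) x z := by
  induction h with
  | refl k x => exact h'.mono (by omega)
  | thin h hw _ ih => exact Rw.thin h hw (ih h')
  | @br k x w y h _ ih =>
    have e : k + 1 + l = (k + l) + 1 := by omega
    rw [e]
    exact Rw.br h (ih h')

theorem Rw.symm_aux {nb : ℕ → Finset ℕ} (hs : ∀ x y, y ∈ nb x → x ∈ nb y) {k x y : ℕ}
    (h : Rw nb k x y) : ((nb x).card ≤ 2 → Rw nb k y x) ∧ Rw nb (k + 1) y x := by
  induction h with
  | refl k x => exact ⟨fun _ => Rw.refl k x, Rw.refl (k + 1) x⟩
  | @thin k x w y h hw _ ih =>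
    have h1 := ih.1 hw
    refine ⟨fun hx => ?_, ?_⟩
    · have h2 : Rw nb 0 w x := Rw.thin (hs x w h) hx (Rw.refl 0 x)
      exact h1.trans h2
    · have h2 : Rw nb 1 w x := Rw.br (hs x w h) (Rw.refl 0 x)
      exact h1.trans h2
  | @br k x w y h _ ih =>
    have h1 := ih.2
    refine ⟨fun hx => ?_, ?_⟩
    · have h2 : Rw nb 0 w x := Rw.thin (hs x w h) hx (Rw.refl 0 x)
      exact h1.trans h2
    · have h2 : Rw nb 1 w x := Rw.br (hs x w h) (Rw.refl 0 x)
      exact h1.trans h2

theorem Rw.symm {nb : ℕ → Finset ℕ} (hs : ∀ x y, y ∈ nb x → x ∈ nb y) {k x y : ℕ}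
    (h : Rw nb k x y) : Rw nb (k + 1) y x := (Rw.symm_aux hs h).2

theorem bq_labels (d : ℕ) (l : List (BT ℕ)) (y : ℕ) (h : y ∈ (bq d l).labels) :
    y = d ∨ ∃ t ∈ l, y ∈ t.labels := by
  induction l with
  | nil => left; simpa [bq, BT.labels] using h
  | cons t l ih =>
    cases l with
    | nil => right; exact ⟨t, by simp, by simpa [bq] using h⟩
    | cons u l =>
      simp only [bq, BT.labels, List.mem_append] at h
      rcases h with h | h
      · right; exact ⟨t, by simp, h⟩
      · rcases ih h with h | ⟨s, hs, hy⟩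
        · left; exact h
        · right; exact ⟨s, List.mem_cons_of_mem _ hs, hy⟩

theorem unf_labels {nb : ℕ → Finset ℕ} {n : ℕ} : ∀ (R k x w : ℕ), w ∈ nb x →
    ∀ y ∈ (unf nb n R k x w).labels, Rw nb (k + 1) x y := by
  intro R
  induction R with
  | zero =>
    intro k x w hw y hy
    have : y = w := by simpa [unf, BT.labels] using hy
    subst this
    exact Rw.br hw (Rw.refl k y)
  | succ R ih =>
    intro k x w hw y hy
    cases k with
    | zero =>
      have : y = w := by simpa [unf, BT.labels] using hy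
      subst this
      exact Rw.br hw (Rw.refl 0 y)
    | succ k =>
      simp only [unf, BT.labels, List.mem_cons] at hy
      rcases hy with rfl | hy
      · exact Rw.br hw (Rw.refl (k + 1) y)
      · rcases bq_labels _ _ _ hy with rfl | ⟨t, ht, hyt⟩
        · exact Rw.br hw (Rw.refl (k + 1) y)
        · rw [List.mem_map] at ht
          obtain ⟨y', hy', rfl⟩ := ht
          rw [Finset.mem_toList] at hy'
          have h1 := ih _ w y' (Finset.mem_of_mem_erase hy') y hyt
          by_cases hc : 2 ≤ ((nb w).erase x).card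
          · rw [if_pos hc] at h1
            exact Rw.br hw h1
          · rw [if_neg hc] at h1
            have h2 : (nb w).card ≤ 2 := by
              have := Finset.pred_card_le_card_erase (s := nb w) (a := x)
              omega
            exact Rw.thin hw h2 h1

/-- the labels of the unfolding are near the root -/
theorem Rw.labels {nb : ℕ → Finset ℕ} {n R k c o : ℕ} (hc : 3 ≤ (nb c).card) (ho : o ∈ nb c) :
    ∀ y ∈ o :: c :: (rootb nb n R k c o).labels, Rw nb (k + 1) c y := by
  intro y hy
  simp only [List.mem_cons] at hy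
  rcases hy with rfl | rfl | hy
  · exact Rw.br ho (Rw.refl k y)
  · exact Rw.refl _ _
  · unfold rootb at hy
    rcases bq_labels _ _ _ hy with rfl | ⟨t, ht, hyt⟩
    · exact Rw.refl _ _
    · rw [List.mem_map] at ht
      obtain ⟨y', hy', rfl⟩ := ht
      rw [Finset.mem_toList] at hy'
      exact unf_labels R k c y' (Finset.mem_of_mem_erase hy') y hyt

end Jia
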