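import Pool.Agent.Helper826.Bondy.FGd

set_option autoImplicit false

namespace Jia
open Finset
open scoped symmDiff

theorem mb_filter_card {E : Finset (Sym2 ℕ)} {D : ℕ} {nb : ℕ → Finset ℕ} (hF : FG E D nb) (x : ℕ) :
    (E.filter (fun e => x ∈ e)).card = (nb x).card := by
  have h : E.filter (fun e => x ∈ e) = (nb x).image (fun y => s(x, y)) := by
    ext e
    simp only [mem_filter, mem_image]
    constructor
    · rintro ⟨he, hx⟩
      obtain ⟨y, rfl⟩ := Sym2.mem_iff_exists.1 hx
      exact ⟨y, (hF.mem x y).2 he, rfl⟩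
    · rintro ⟨y, hy, rfl⟩
      exact ⟨(hF.mem x y).1 hy, Sym2.mem_mk_left x y⟩
  rw [h, card_image_of_injective]
  intro a b h
  exact Sym2.congr_right.1 h

theorem mb_full {E : Finset (Sym2 ℕ)} {D : ℕ} {nb : ℕ → Finset ℕ} (hF : FG E D nb)
    {w : Finset (Sym2 ℕ)} (hw : w ⊆ E) (hev : IsEv w) {x : ℕ} {e : Sym2 ℕ} (he : e ∈ w)
    (hx : x ∈ e) (h2 : (nb x).card ≤ 2) : ∀ f ∈ E, x ∈ f → f ∈ w := by
  have hsub : w.filter (fun e => x ∈ e) ⊆ E.filter (fun e => x ∈ e) := filter_subset_filter _ hw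
  have hpos : 0 < (w.filter (fun e => x ∈ e)).card := card_pos.2 ⟨e, mem_filter.2 ⟨he, hx⟩⟩
  have heven := hev x
  unfold dg at heven
  have hle : (E.filter (fun e => x ∈ e)).card ≤ (w.filter (fun e => x ∈ e)).card := by
    rw [mb_filter_card hF]
    obtain ⟨k, hk⟩ := heven
    omega
  have heq := eq_of_subset_of_card_le hsub hle
  intro f hf hxf
  have : f ∈ w.filter (fun e => x ∈ e) := by rw [heq]; exact mem_filter.2 ⟨hf, hxf⟩
  exact (mem_filter.1 this).1

theorem mb_Zf_sdiff (E F : Finset (Sym2 ℕ)) :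
    (Zf E).card ≤ 2 ^ F.card * (Zf (E \ F)).card := by
  induction F using Finset.induction_on with
  | empty => simp
  | insert a F ha ih =>
    rw [card_insert_of_notMem ha, pow_succ]
    have h : E \ insert a F = (E \ F).erase a := by
      ext e
      simp only [mem_sdiff, mem_insert, mem_erase]
      tauto
    rw [h]
    have h1 := Zf_erase_le (E \ F) a
    calc (Zf E).card ≤ 2 ^ F.card * (Zf (E \ F)).card := ih
      _ ≤ 2 ^ F.card * (2 * (Zf ((E \ F).erase a)).card) := Nat.mul_le_mul_left _ h1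
      _ = _ := by ring

theorem mb_Jin {E : Finset (Sym2 ℕ)} {D : ℕ} {nb : ℕ → Finset ℕ} (hF : FG E D nb) (c u v : ℕ)
    (hcu : Relation.ReflTransGen (fun x y => s(x, y) ∈ E) c u)
    (huv : Relation.ReflTransGen (fun x y => s(x, y) ∈ E) u v) :
    Jin E {y | Relation.ReflTransGen (fun x y => s(x, y) ∈ E) c y} u v := by
  induction huv with
  | refl => exact ⟨∅, empty_subset _, by simp, isJn_refl u⟩
  | @tail b d hub hbd ih =>
    obtain ⟨P, hPE, hPS, hJ⟩ := ih
    have hbd' : b ≠ d := by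
      rintro rfl
      exact hF.nl _ hbd (by simp)
    refine ⟨P ∆ {s(b, d)}, ?_, ?_, hJ.trans (isJn_edge hbd')⟩
    · intro e he
      rw [mem_symmDiff] at he
      rcases he with he | he
      · exact hPE he.1
      · rw [mem_singleton] at he
        rw [he.1]; exact hbd
    · intro e he
      rw [mem_symmDiff] at he
      rcases he with he | he
      · exact hPS e he.1
      · rw [mem_singleton] at he
        rw [he.1]
        intro x hx
        rw [Sym2.mem_iff] at hx
        have hcb := hcu.trans hub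
        rcases hx with rfl | rfl
        · exact hcb
        · exact hcb.tail hbd

/-- large cycle space modulo `K`: many branch vertices or many isolated cycles -/
theorem many_branch {E K : Finset (Sym2 ℕ)} {D : ℕ} {nb : ℕ → Finset ℕ} (hF : FG E D nb)
    (hKE : K ⊆ E) (hKb : ∀ e ∈ K, ∃ C ∈ Zf K, e ∈ C) {m s B : ℕ} (hm : D * B + s ≤ m)
    (h : 2 ^ m * (Zf K).card ≤ (Zf E).card) :
    ThinFam E {x | ∃ e ∈ K, x ∈ e} 0 s ∨
      ∃ F : Finset ℕ, B < F.card ∧ ∀ c ∈ F, 3 ≤ (nb c).card := by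
  classical
  set Ve : Finset ℕ := E.biUnion (fun e => e.toFinset) with hVe
  have hVe' : ∀ x e, e ∈ E → x ∈ e → x ∈ Ve := fun x e he hx =>
    mem_biUnion.2 ⟨e, he, Sym2.mem_toFinset.2 hx⟩
  set Br : Finset ℕ := Ve.filter (fun x => 3 ≤ (nb x).card) with hBr
  have hBr' : ∀ x, 3 ≤ (nb x).card → x ∈ Br := by
    intro x hx
    have hne : (nb x).Nonempty := card_pos.1 (by omega)
    obtain ⟨y, hy⟩ := hne
    exact mem_filter.2 ⟨hVe' x _ ((hF.mem x y).1 hy) (Sym2.mem_mk_left x y), hx⟩
  by_cases hB : B < Br.card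
  · exact Or.inr ⟨Br, hB, fun c hc => (mem_filter.1 hc).2⟩
  left
  push Not at hB
  set Eb : Finset (Sym2 ℕ) := E.filter (fun e => ∃ x ∈ Br, x ∈ e) with hEb
  have hEbcard : Eb.card ≤ D * B := by
    have h1 : Eb ⊆ Br.biUnion (fun x => E.filter (fun e => x ∈ e)) := by
      intro e he
      obtain ⟨he, x, hx, hxe⟩ := mem_filter.1 he
      exact mem_biUnion.2 ⟨x, hx, mem_filter.2 ⟨he, hxe⟩⟩
    have h2 : (Br.biUnion (fun x => E.filter (fun e => x ∈ e))).card ≤ Br.card * D :=
      card_biUnion_le_card_mul _ _ _ fun x _ => by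
        rw [mb_filter_card hF]; exact hF.card x
    calc Eb.card ≤ Br.card * D := (card_le_card h1).trans h2
      _ ≤ B * D := Nat.mul_le_mul_right _ hB
      _ = D * B := Nat.mul_comm _ _
  set E' := E \ Eb with hE'
  have hE'E : E' ⊆ E := sdiff_subset
  have hE'deg : ∀ e ∈ E', ∀ x ∈ e, (nb x).card ≤ 2 := by
    intro e he x hx
    by_contra hc
    obtain ⟨h1, h2⟩ := mem_sdiff.1 he
    exact h2 (mem_filter.2 ⟨h1, x, hBr' x (by omega), hx⟩)
  have hcount : 2 ^ s * (Zf K).card ≤ (Zf E').card := by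
    have h1 := mb_Zf_sdiff E Eb
    have h2 : (2:ℕ) ^ Eb.card ≤ 2 ^ (D * B) := Nat.pow_le_pow_right (by norm_num) hEbcard
    have h3 : (2:ℕ) ^ (D * B) * 2 ^ s ≤ 2 ^ m := by
      rw [← pow_add]; exact Nat.pow_le_pow_right (by norm_num) hm
    have h4 : 2 ^ (D * B) * (2 ^ s * (Zf K).card) ≤ 2 ^ (D * B) * (Zf E').card := by
      calc 2 ^ (D * B) * (2 ^ s * (Zf K).card) = (2 ^ (D * B) * 2 ^ s) * (Zf K).card := by ring
        _ ≤ 2 ^ m * (Zf K).card := Nat.mul_le_mul_right _ h3
        _ ≤ (Zf E).card := h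
        _ ≤ 2 ^ Eb.card * (Zf E').card := h1
        _ ≤ 2 ^ (D * B) * (Zf E').card := Nat.mul_le_mul_right _ h2
    exact Nat.le_of_mul_le_mul_left h4 (by positivity)
  set r : ℕ → ℕ → Prop := fun x y => s(x, y) ∈ E with hr
  have hrsymm : ∀ x y, r x y → r y x := by
    intro x y hxy
    show s(y, x) ∈ E
    rw [Sym2.eq_swap]; exact hxy
  have hRsymm : ∀ x y, Relation.ReflTransGen r x y → Relation.ReflTransGen r y x := by
    intro x y hxy
    induction hxy with
    | refl => exact Relation.ReflTransGen.refl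
    | @tail b d _ hbd ih => exact Relation.ReflTransGen.head (hrsymm _ _ hbd) ih
  -- propagation of touched vertices
  have hfull : ∀ z ∈ Zf E', ∀ x, (∃ e ∈ z, x ∈ e) → ∀ f ∈ E, x ∈ f → f ∈ z := by
    intro z hz x hx f hf hxf
    obtain ⟨hzE, hzev⟩ := mem_Zf.1 hz
    obtain ⟨e, he, hxe⟩ := hx
    exact mb_full hF (hzE.trans hE'E) hzev he hxe (hE'deg e (hzE he) x hxe) f hf hxf
  have hprop : ∀ z ∈ Zf E', ∀ x w, Relation.ReflTransGen r x w → (∃ e ∈ z, x ∈ e) →
      ∃ e ∈ z, w ∈ e := by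
    intro z hz x w hxw hx
    induction hxw with
    | refl => exact hx
    | @tail b d _ hbd ih =>
      exact ⟨s(b, d), hfull z hz b ih _ hbd (Sym2.mem_mk_left _ _), Sym2.mem_mk_right _ _⟩
  -- vertices of `K` of degree two
  have hKfull : ∀ x, (nb x).card ≤ 2 → (∃ e ∈ K, x ∈ e) → ∀ f ∈ E, x ∈ f → f ∈ K := by
    intro x hx2 hx f hf hxf
    obtain ⟨e, he, hxe⟩ := hx
    obtain ⟨C, hC, heC⟩ := hKb e he
    obtain ⟨hCK, hCev⟩ := mem_Zf.1 hC
    exact hCK (mb_full hF (hCK.trans hKE) hCev heC hxe hx2 f hf hxf)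
  set Gd : ℕ → Prop := fun x => ∀ y, Relation.ReflTransGen r x y →
    ((nb y).card ≤ 2 ∧ (nb y).Nonempty ∧ ¬ ∃ e ∈ K, y ∈ e) with hGd
  set 𝒢 : Finset ℕ := Ve.filter (fun x => Gd x ∧ ∀ y, Relation.ReflTransGen r x y → x ≤ y) with h𝒢
  have hst : s ≤ 𝒢.card := by
    -- the injection
    have hinj : (Zf E').card ≤ (Zf K ×ˢ 𝒢.powerset).card := by
      apply card_le_card_of_injOn
        (fun z => (z ∩ K, 𝒢.filter (fun c => ∃ e ∈ z, c ∈ e)))
      · intro z hz
        have hz : z ∈ Zf E' := hz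
        obtain ⟨hzE, hzev⟩ := mem_Zf.1 hz
        show (z ∩ K, 𝒢.filter (fun c => ∃ e ∈ z, c ∈ e)) ∈ (↑(Zf K ×ˢ 𝒢.powerset) : Set _)
        rw [Finset.mem_coe, mem_product]
        refine ⟨mem_Zf.2 ⟨inter_subset_right, ?_⟩, mem_powerset.2 (filter_subset _ _)⟩
        intro x
        by_cases hx : ∃ e ∈ z ∩ K, x ∈ e
        · obtain ⟨e, he, hxe⟩ := hx
          obtain ⟨hez, heK⟩ := mem_inter.1 he
          have hx2 := hE'deg e (hzE hez) x hxe
          have e1 : (z ∩ K).filter (fun e => x ∈ e) = z.filter (fun e => x ∈ e) := by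
            ext f
            simp only [mem_filter, mem_inter]
            constructor
            · rintro ⟨⟨a, b⟩, c⟩; exact ⟨a, c⟩
            · rintro ⟨a, c⟩
              exact ⟨⟨a, hKfull x hx2 ⟨e, heK, hxe⟩ f (hE'E (hzE a)) c⟩, c⟩
          have := hzev x
          unfold dg at this ⊢
          rw [e1]; exact this
        · have e1 : (z ∩ K).filter (fun e => x ∈ e) = ∅ := by
            ext f
            simp only [mem_filter, notMem_empty, iff_false]
            rintro ⟨a, c⟩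
            exact hx ⟨f, a, c⟩
          unfold dg
          rw [e1]; simp
      · have key : ∀ z ∈ Zf E', ∀ z' ∈ Zf E', z ∩ K = z' ∩ K →
            𝒢.filter (fun c => ∃ e ∈ z, c ∈ e) = 𝒢.filter (fun c => ∃ e ∈ z', c ∈ e) →
            z ⊆ z' := by
          intro z hz z' hz' h1 h2 e he
          obtain ⟨hzE, hzev⟩ := mem_Zf.1 hz
          by_cases heK : e ∈ K
          · have : e ∈ z ∩ K := mem_inter.2 ⟨he, heK⟩
            rw [h1] at this
            exact (mem_inter.1 this).1
          · obtain ⟨x, hx⟩ : ∃ x, x ∈ e := by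
              induction e with
              | _ a b => exact ⟨a, Sym2.mem_mk_left a b⟩
            have hcl : ∀ w, Relation.ReflTransGen r x w →
                (∃ f ∈ z, w ∈ f) ∧ ¬ ∃ f ∈ K, w ∈ f := by
              intro w hw
              induction hw with
              | refl =>
                refine ⟨⟨e, he, hx⟩, fun hK => ?_⟩
                exact heK (hKfull x (hE'deg e (hzE he) x hx) hK e (hE'E (hzE he)) hx)
              | @tail b d hxb hbd ih =>
                have hbdz : s(b, d) ∈ z := hfull z hz b ih.1 _ hbd (Sym2.mem_mk_left _ _)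
                refine ⟨⟨s(b, d), hbdz, Sym2.mem_mk_right _ _⟩, fun hK => ?_⟩
                have : s(b, d) ∈ K := hKfull d
                  (hE'deg _ (hzE hbdz) d (Sym2.mem_mk_right _ _)) hK _ hbd (Sym2.mem_mk_right _ _)
                exact ih.2 ⟨_, this, Sym2.mem_mk_left _ _⟩
            -- representative
            have hex : ∃ c, Relation.ReflTransGen r x c := ⟨x, Relation.ReflTransGen.refl⟩
            obtain ⟨c, hc, hcmin⟩ : ∃ c, Relation.ReflTransGen r x c ∧
                ∀ y, Relation.ReflTransGen r x y → c ≤ y :=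
              ⟨Nat.find hex, Nat.find_spec hex, fun y hy => Nat.find_min' hex hy⟩
            have hcz : ∃ f ∈ z, c ∈ f := (hcl c hc).1
            have hc𝒢 : c ∈ 𝒢 := by
              obtain ⟨f, hf, hcf⟩ := hcz
              refine mem_filter.2 ⟨hVe' c f (hE'E (hzE hf)) hcf, ?_, ?_⟩
              · intro y hy
                obtain ⟨⟨f', hf', hyf'⟩, hyK⟩ := hcl y (hc.trans hy)
                refine ⟨hE'deg _ (hzE hf') y hyf', ?_, hyK⟩
                obtain ⟨y', hy'⟩ := Sym2.mem_iff_exists.1 hyf'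
                refine ⟨y', (hF.mem y y').2 ?_⟩
                rw [← hy']; exact hE'E (hzE hf')
              · intro y hy
                exact hcmin y (hc.trans hy)
            have hc2 : c ∈ 𝒢.filter (fun c => ∃ e ∈ z', c ∈ e) := by
              rw [← h2]; exact mem_filter.2 ⟨hc𝒢, hcz⟩
            have hcz' := (mem_filter.1 hc2).2
            have hxz' := hprop z' hz' c x (hRsymm _ _ hc) hcz'
            exact hfull z' hz' x hxz' e (hE'E (hzE he)) hx
        intro z hz z' hz' hzz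
        have hz : z ∈ Zf E' := hz
        have hz' : z' ∈ Zf E' := hz'
        have h1 : z ∩ K = z' ∩ K := congrArg Prod.fst hzz
        have h2 : 𝒢.filter (fun c => ∃ e ∈ z, c ∈ e) = 𝒢.filter (fun c => ∃ e ∈ z', c ∈ e) :=
          congrArg Prod.snd hzz
        exact Subset.antisymm (key z hz z' hz' h1 h2) (key z' hz' z hz h1.symm h2.symm)
    rw [card_product, card_powerset] at hinj
    have h5 : 2 ^ s * (Zf K).card ≤ 2 ^ 𝒢.card * (Zf K).card := by
      calc 2 ^ s * (Zf K).card ≤ (Zf E').card := hcount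
        _ ≤ (Zf K).card * 2 ^ 𝒢.card := hinj
        _ = _ := Nat.mul_comm _ _
    have h6 := Nat.le_of_mul_le_mul_right h5 (Zf_card_pos K)
    exact (Nat.pow_le_pow_iff_right (by norm_num)).1 h6
  -- the family
  let φ : Fin 𝒢.card ↪o ℕ := 𝒢.orderEmbOfFin rfl
  have hφ : ∀ i, φ i ∈ 𝒢 := fun i => 𝒢.orderEmbOfFin_mem rfl i
  let Ds : ℕ → Set ℕ := fun i => if hi : i < 𝒢.card then
    {y | Relation.ReflTransGen r (φ ⟨i, hi⟩) y} else ∅
  have hDs : ∀ i (hi : i < 𝒢.card), Ds i = {y | Relation.ReflTransGen r (φ ⟨i, hi⟩) y} := by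
    intro i hi
    show (if hi : i < 𝒢.card then {y | Relation.ReflTransGen r (φ ⟨i, hi⟩) y} else ∅) = _
    rw [dif_pos hi]
  refine ⟨Ds, ?_, ?_, ?_, ?_, ?_⟩
  · intro i hi j hj hij
    have hi' := hi.trans_le hst
    have hj' := hj.trans_le hst
    rw [hDs i hi', hDs j hj', Set.disjoint_left]
    intro y hy1 hy2
    have hy1 : Relation.ReflTransGen r (φ ⟨i, hi'⟩) y := hy1
    have hy2 : Relation.ReflTransGen r (φ ⟨j, hj'⟩) y := hy2
    have h1 : φ ⟨i, hi'⟩ ≤ φ ⟨j, hj'⟩ :=
      (mem_filter.1 (hφ ⟨i, hi'⟩)).2.2 _ (hy1.trans (hRsymm _ _ hy2))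
    have h2 : φ ⟨j, hj'⟩ ≤ φ ⟨i, hi'⟩ :=
      (mem_filter.1 (hφ ⟨j, hj'⟩)).2.2 _ (hy2.trans (hRsymm _ _ hy1))
    have h3 := φ.injective (le_antisymm h1 h2)
    exact hij (Fin.mk.inj_iff.1 h3)
  · intro i hi x hx hxD
    have hi' := hi.trans_le hst
    rw [hDs i hi'] at hxD
    exact ((mem_filter.1 (hφ ⟨i, hi'⟩)).2.1 x hxD).2.2 hx
  · intro i hi
    have hi' := hi.trans_le hst
    rw [Nat.le_zero, card_eq_zero, filter_eq_empty_iff]
    intro e he hcr
    rw [hDs i hi'] at hcr
    apply hcr.1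
    intro x hx
    by_contra hxD
    apply hcr.2
    intro y hy hyD
    apply hxD
    have hyD : Relation.ReflTransGen r (φ ⟨i, hi'⟩) y := hyD
    show Relation.ReflTransGen r (φ ⟨i, hi'⟩) x
    by_cases hxy : x = y
    · rw [hxy]; exact hyD
    · have : e = s(y, x) := ((Sym2.mem_and_mem_iff (Ne.symm hxy)).1 ⟨hy, hx⟩)
      rw [this] at he
      exact hyD.tail he
  · intro i hi u hu v hv
    have hi' := hi.trans_le hst
    rw [hDs i hi'] at hu hv ⊢
    exact mb_Jin hF _ u v hu ((hRsymm _ _ hu).trans hv)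
  · intro i hi
    have hi' := hi.trans_le hst
    rw [hDs i hi']
    set c := φ ⟨i, hi'⟩ with hc
    have hgood := (mem_filter.1 (hφ ⟨i, hi'⟩)).2.1
    have hin : ∀ x, Relation.ReflTransGen r c x → ∀ e ∈ E, x ∈ e → ∀ y ∈ e,
        Relation.ReflTransGen r c y := by
      intro x hx e he hxe y hy
      by_cases hxy : x = y
      · rw [← hxy]; exact hx
      · have : e = s(x, y) := ((Sym2.mem_and_mem_iff hxy).1 ⟨hxe, hy⟩)
        rw [this] at he
        exact hx.tail he
    refine ⟨E.filter (fun e => ∀ x ∈ e, Relation.ReflTransGen r c x), ?_, ?_, ?_⟩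
    · refine mem_Zf.2 ⟨filter_subset _ _, ?_⟩
      intro x
      by_cases hx : Relation.ReflTransGen r c x
      · have e1 : (E.filter (fun e => ∀ x ∈ e, Relation.ReflTransGen r c x)).filter
            (fun e => x ∈ e) = E.filter (fun e => x ∈ e) := by
          ext e
          simp only [mem_filter]
          constructor
          · rintro ⟨⟨a, b⟩, d⟩; exact ⟨a, d⟩
          · rintro ⟨a, d⟩; exact ⟨⟨a, hin x hx e a d⟩, d⟩
        unfold dg
        rw [e1, mb_filter_card hF]
        have h1 := (hgood x hx).1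
        have h2 := hF.two x (hgood x hx).2.1
        have h3 : (nb x).card = 2 := by omega
        rw [h3]; exact even_two
      · have e1 : (E.filter (fun e => ∀ x ∈ e, Relation.ReflTransGen r c x)).filter
            (fun e => x ∈ e) = ∅ := by
          ext e
          simp only [mem_filter, notMem_empty, iff_false]
          rintro ⟨⟨a, b⟩, d⟩
          exact hx (b x d)
        unfold dg
        rw [e1]; simp
    · obtain ⟨y, hy⟩ := (hgood c Relation.ReflTransGen.refl).2.1
      have he : s(c, y) ∈ E := (hF.mem c y).1 hy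
      refine ⟨s(c, y), mem_filter.2 ⟨he, ?_⟩⟩
      exact hin c Relation.ReflTransGen.refl _ he (Sym2.mem_mk_left _ _)
    · intro e he x hx
      exact (mem_filter.1 he).2 x hx

end Jia
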