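import Pool.Agent.Helper826.Bondy.FGd

set_option autoImplicit false

namespace Jia
open Finset

/-- the directed edge `x → y` leads through thin vertices to the branch vertex `w` -/
inductive E2P (nb : ℕ → Finset ℕ) : ℕ → ℕ → ℕ → Prop
  | stop {x y : ℕ} (h : 3 ≤ (nb y).card) : E2P nb x y y
  | step {x y z w : ℕ} (hy : (nb y).card ≤ 2) (hz : z ∈ nb y) (hne : z ≠ x)
      (h : E2P nb y z w) : E2P nb x y w

theorem E2P.unique {nb : ℕ → Finset ℕ} (hs : ∀ x y, y ∈ nb x → x ∈ nb y) {x y w : ℕ}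
    (h : E2P nb x y w) : ∀ (w' : ℕ), y ∈ nb x → E2P nb x y w' → w = w' := by
  induction h with
  | @stop x y h =>
    intro w' _ h'
    cases h' with
    | stop _ => rfl
    | step hy _ _ _ => omega
  | @step x y z w hy hz hne h ih =>
    intro w' hyx h'
    cases h' with
    | stop h3 => omega
    | @step _ _ z' _ hy' hz' hne' h' =>
      have hx : x ∈ nb y := hs x y hyx
      have hzz : z = z' := by
        by_contra hzz
        have h1 : ({x, z, z'} : Finset ℕ) ⊆ nb y := by
          intro t ht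
          simp only [mem_insert, mem_singleton] at ht
          rcases ht with rfl | rfl | rfl
          · exact hx
          · exact hz
          · exact hz'
        have h2 := card_le_card h1
        rw [card_eq_three.mpr ⟨x, z, z', Ne.symm hne, Ne.symm hne', hzz, rfl⟩] at h2
        omega
      subst hzz
      exact ih w' hz h'

/-- branch vertices next to the thin walks from `x` -/
def E2F (nb : ℕ → Finset ℕ) (x w : ℕ) : Prop :=
  3 ≤ (nb w).card ∧ ∃ v, Rw nb 0 x v ∧ w ∈ nb v

theorem E2F_cases {nb : ℕ → Finset ℕ} {k x v : ℕ} (h : Rw nb k x v) : k = 0 →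
    ∀ w : ℕ, 3 ≤ (nb w).card → w ∈ nb v → w = x ∨ ∃ y ∈ nb x, E2P nb x y w := by
  induction h with
  | refl k x =>
    intro _ w hw hwx
    exact Or.inr ⟨w, hwx, E2P.stop hw⟩
  | @thin k x w' y h hw' hr ih =>
    intro hk w hw hwy
    rcases ih hk w hw hwy with h1 | ⟨y', hy', hP⟩
    · subst h1; omega
    · by_cases hyx : y' = x
      · subst hyx
        cases hP with
        | stop _ => exact Or.inl rfl
        | step hy1 hz hne hP' => exact Or.inr ⟨_, hz, hP'⟩
      · exact Or.inr ⟨w', h, E2P.step hw' hy' hyx hP⟩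
  | br h hr ih =>
    intro hk
    omega

theorem E2F_card {nb : ℕ → Finset ℕ} {D : ℕ} (hs : ∀ x y, y ∈ nb x → x ∈ nb y)
    (hD : ∀ x, (nb x).card ≤ D) (x : ℕ) (W : Finset ℕ) (hW : ∀ w ∈ W, E2F nb x w) :
    W.card ≤ D + 1 := by
  classical
  have h1 : ∀ w ∈ W.erase x, ∃ y ∈ nb x, E2P nb x y w := by
    intro w hw
    rw [mem_erase] at hw
    obtain ⟨h3, v, hv, hwv⟩ := hW w hw.2
    exact (E2F_cases hv rfl w h3 hwv).resolve_left hw.1
  choose! φ hφ1 hφ2 using h1
  have h2 : (W.erase x).card ≤ (nb x).card := by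
    apply Finset.card_le_card_of_injOn φ
    · intro w hw
      exact hφ1 w hw
    · intro w hw w' hw' h
      have e1 := hφ2 w hw
      have e2 := hφ2 w' hw'
      rw [← h] at e2
      exact e1.unique hs w' (hφ1 w hw) e2
  have h3 := Finset.pred_card_le_card_erase (s := W) (a := x)
  have h4 := hD x
  omega

theorem E2_mono {nb : ℕ → Finset ℕ} {k x y : ℕ} (h : Rw nb k x y) :
    ∀ l, k ≤ l → Rw nb l x y := by
  induction h with
  | refl k x => intro l _; exact Rw.refl l x
  | thin h hw hr ih => intro l hl; exact Rw.thin h hw (ih l hl)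
  | @br k x w y h hr ih =>
    intro l hl
    obtain ⟨m, rfl⟩ : ∃ m, l = m + 1 := ⟨l - 1, by omega⟩
    exact Rw.br h (ih m (by omega))

theorem E2F_of_thin {nb : ℕ → Finset ℕ} {x w w' : ℕ} (h : w ∈ nb x) (hw : (nb w).card ≤ 2)
    (h' : E2F nb w w') : E2F nb x w' := by
  obtain ⟨h3, v, hv, hwv⟩ := h'
  exact ⟨h3, v, Rw.thin h hw hv, hwv⟩

theorem E2_decomp {nb : ℕ → Finset ℕ} {k x c : ℕ} (h : Rw nb k x c) : 3 ≤ (nb c).card →
    c = x ∨ (1 ≤ k ∧ ∃ w, E2F nb x w ∧ Rw nb (k - 1) w c) := by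
  induction h with
  | refl k x => intro _; exact Or.inl rfl
  | @thin k x w y h hw hr ih =>
    intro hc
    rcases ih hc with h1 | ⟨hk, w', hw', hr'⟩
    · subst h1; omega
    · exact Or.inr ⟨hk, w', E2F_of_thin h hw hw', hr'⟩
  | @br k x w y h hr ih =>
    intro hc
    right
    refine ⟨by omega, ?_⟩
    by_cases hw : 3 ≤ (nb w).card
    · exact ⟨w, ⟨hw, x, Rw.refl 0 x, h⟩, hr⟩
    · rcases ih hc with h1 | ⟨hk, w', hw', hr'⟩
      · subst h1; omega
      · exact ⟨w', E2F_of_thin h (by omega) hw', E2_mono hr' _ (by omega)⟩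

/-- few branch vertices are reachable by entering at most `k` branch vertices -/
theorem ball_count {nb : ℕ → Finset ℕ} {D : ℕ} (hs : ∀ x y, y ∈ nb x → x ∈ nb y)
    (hirr : ∀ x, x ∉ nb x) (hD : ∀ x, (nb x).card ≤ D)
    (h2 : ∀ x, (nb x).Nonempty → 2 ≤ (nb x).card) :
    ∀ (k x : ℕ) (F : Finset ℕ), (∀ c ∈ F, 3 ≤ (nb c).card ∧ Rw nb k x c) →
      F.card ≤ (D + 2) ^ (k + 1) := by
  classical
  intro k
  induction k with
  | zero =>
    intro x F hF
    have h1 : F ⊆ {x} := by
      intro c hc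
      obtain ⟨h3, hr⟩ := hF c hc
      rcases E2_decomp hr h3 with h | ⟨h, _⟩
      · simp [h]
      · omega
    have := card_le_card h1
    rw [card_singleton] at this
    simp only [zero_add, pow_one]
    omega
  | succ k ih =>
    intro x F hF
    have h1 : ∀ c ∈ F.erase x, ∃ w, E2F nb x w ∧ Rw nb k w c := by
      intro c hc
      rw [mem_erase] at hc
      obtain ⟨h3, hr⟩ := hF c hc.2
      rcases E2_decomp hr h3 with h | ⟨_, w, hw, hr'⟩
      · exact absurd h hc.1
      · exact ⟨w, hw, by simpa using hr'⟩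
    choose! φ hφ1 hφ2 using h1
    have h2 : (F.erase x).card ≤ (D + 2) ^ (k + 1) * ((F.erase x).image φ).card := by
      apply Finset.card_le_mul_card_image
      intro w _
      apply ih w
      intro c hc
      rw [mem_filter] at hc
      refine ⟨(hF c (mem_of_mem_erase hc.1)).1, ?_⟩
      rw [← hc.2]
      exact hφ2 c hc.1
    have h3 : ((F.erase x).image φ).card ≤ D + 1 := by
      apply E2F_card hs hD x
      intro w hw
      rw [mem_image] at hw
      obtain ⟨c, hc, rfl⟩ := hw
      exact hφ1 c hc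
    have h4 := Finset.pred_card_le_card_erase (s := F) (a := x)
    have h5 : (F.erase x).card ≤ (D + 2) ^ (k + 1) * (D + 1) :=
      h2.trans (Nat.mul_le_mul_left _ h3)
    have h6 : 1 ≤ (D + 2) ^ (k + 1) := Nat.one_le_pow _ _ (by omega)
    have h7 : (D + 2) ^ (k + 1 + 1) = (D + 2) ^ (k + 1) * (D + 1) + (D + 2) ^ (k + 1) := by
      rw [pow_succ (D + 2) (k + 1)]; ring
    omega

end Jia
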