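import Pool.Agent.Helper826.Bondy.FGd

set_option autoImplicit false

namespace Jia
open Finset

/-- greedy selection of far apart branch vertices -/
theorem select {nb : ℕ → Finset ℕ} {D : ℕ}
    (hball : ∀ (k x : ℕ) (F : Finset ℕ), (∀ c ∈ F, 3 ≤ (nb c).card ∧ Rw nb k x c) →
      F.card ≤ (D + 2) ^ (k + 1)) (A : Finset ℕ) (l q : ℕ) (F : Finset ℕ)
    (hFb : ∀ c ∈ F, 3 ≤ (nb c).card) (hcard : (A.card + q) * (D + 2) ^ (2 * l + 2) < F.card) :
    ∃ c : ℕ → ℕ, (∀ i < q, c i ∈ F) ∧ (∀ i < q, ∀ x ∈ A, ¬ Rw nb (l + 1) x (c i)) ∧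
      ∀ i j, i < j → j < q → ¬ Rw nb (2 * l + 1) (c i) (c j) := by
  classical
  have main : ∀ m, m ≤ q → ∃ c : ℕ → ℕ, (∀ i < m, c i ∈ F) ∧
      (∀ i < m, ∀ x ∈ A, ¬ Rw nb (l + 1) x (c i)) ∧
      ∀ i j, i < j → j < m → ¬ Rw nb (2 * l + 1) (c i) (c j) := by
    intro m
    induction m with
    | zero =>
      intro _
      exact ⟨fun _ => 0, fun i hi => absurd hi (Nat.not_lt_zero i),
        fun i hi => absurd hi (Nat.not_lt_zero i), fun i j _ hj => absurd hj (Nat.not_lt_zero j)⟩
    | succ m ih =>
      intro hm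
      obtain ⟨c, h1, h2, h3⟩ := ih (by omega)
      let B1 : Finset ℕ := A.biUnion fun x => F.filter fun y => Rw nb (l + 1) x y
      let B2 : Finset ℕ := (range m).biUnion fun i => F.filter fun y => Rw nb (2 * l + 1) (c i) y
      have hB1 : B1.card ≤ A.card * (D + 2) ^ (2 * l + 2) := by
        refine card_biUnion_le_card_mul _ _ _ fun x _ => ?_
        refine (hball (l + 1) x _ fun y hy => ?_).trans (Nat.pow_le_pow_right (by omega) (by omega))
        rw [mem_filter] at hy
        exact ⟨hFb y hy.1, hy.2⟩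
      have hB2 : B2.card ≤ m * (D + 2) ^ (2 * l + 2) := by
        have := card_biUnion_le_card_mul (range m)
          (fun i => F.filter fun y => Rw nb (2 * l + 1) (c i) y) ((D + 2) ^ (2 * l + 2))
          (fun i _ => by
            refine hball (2 * l + 1) (c i) _ fun y hy => ?_
            rw [mem_filter] at hy
            exact ⟨hFb y hy.1, hy.2⟩)
        rwa [card_range] at this
      have hlt : (B1 ∪ B2).card < F.card := by
        refine lt_of_le_of_lt (card_union_le _ _) (lt_of_le_of_lt (Nat.add_le_add hB1 hB2) ?_)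
        refine lt_of_le_of_lt ?_ hcard
        rw [← Nat.add_mul]
        exact Nat.mul_le_mul_right _ (by omega)
      obtain ⟨y, hyF, hyB⟩ := exists_mem_notMem_of_card_lt_card hlt
      have hy1 : ∀ x ∈ A, ¬ Rw nb (l + 1) x y := by
        intro x hx hr
        exact hyB (mem_union_left _ (mem_biUnion.2 ⟨x, hx, mem_filter.2 ⟨hyF, hr⟩⟩))
      have hy2 : ∀ i < m, ¬ Rw nb (2 * l + 1) (c i) y := by
        intro i hi hr
        exact hyB (mem_union_right _ (mem_biUnion.2 ⟨i, mem_range.2 hi, mem_filter.2 ⟨hyF, hr⟩⟩))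
      refine ⟨Function.update c m y, ?_, ?_, ?_⟩
      · intro i hi
        rcases Nat.lt_succ_iff_lt_or_eq.1 hi with h | h
        · rw [Function.update_of_ne (by omega)]; exact h1 i h
        · subst h; rw [Function.update_self]; exact hyF
      · intro i hi
        rcases Nat.lt_succ_iff_lt_or_eq.1 hi with h | h
        · rw [Function.update_of_ne (by omega)]; exact h2 i h
        · subst h; rw [Function.update_self]; exact hy1
      · intro i j hij hj
        rcases Nat.lt_succ_iff_lt_or_eq.1 hj with h | h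
        · rw [Function.update_of_ne (by omega), Function.update_of_ne (by omega)]
          exact h3 i j hij h
        · subst h
          rw [Function.update_of_ne (by omega), Function.update_self]
          exact hy2 i hij
  exact main q le_rfl

end Jia
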