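import Pool.Agent.Helper826.Bondy.FGd
import Pool.Agent.Helper826.Jia.W2b

set_option autoImplicit false

namespace Jia
open Finset
open scoped symmDiff

namespace BT

variable {V : Type*} [DecidableEq V]

omit [DecidableEq V] in
theorem F1_tops_sub (b : BT V) : ∀ y ∈ b.tops, y ∈ b.labels := by
  induction b with
  | out w => intro y hy; exact hy
  | nd f x b ih =>
    intro y hy
    simp only [tops, List.mem_singleton] at hy
    simp [labels, hy]
  | br s t ihs iht =>
    intro y hy
    simp only [tops, List.mem_append] at hy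
    simp only [labels, List.mem_append]
    rcases hy with hy | hy
    · exact Or.inl (ihs y hy)
    · exact Or.inr (iht y hy)

omit [DecidableEq V] in
theorem F1_nodes_sub (b : BT V) : ∀ y ∈ b.nodes, y ∈ b.labels := by
  induction b with
  | out w => intro y hy; simp [nodes] at hy
  | nd f x b ih =>
    intro y hy
    simp only [nodes, List.mem_cons] at hy
    simp only [labels, List.mem_cons]
    rcases hy with hy | hy
    · exact Or.inl hy
    · exact Or.inr (ih y hy)
  | br s t ihs iht =>
    intro y hy
    simp only [nodes, List.mem_append] at hy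
    simp only [labels, List.mem_append]
    rcases hy with hy | hy
    · exact Or.inl (ihs y hy)
    · exact Or.inr (iht y hy)

omit [DecidableEq V] in
theorem F1_tops_cases (b : BT V) (p : V) : ∀ y ∈ b.tops, y ∈ b.nodes ∨ (p, y) ∈ b.outs p := by
  induction b with
  | out w => intro y hy; simp only [tops, List.mem_singleton] at hy; simp [outs, hy]
  | nd f x b ih =>
    intro y hy
    simp only [tops, List.mem_singleton] at hy
    simp [nodes, hy]
  | br s t ihs iht =>
    intro y hy
    simp only [tops, List.mem_append] at hy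
    simp only [nodes, outs, List.mem_append]
    rcases hy with hy | hy
    · rcases ihs y hy with h | h <;> tauto
    · rcases iht y hy with h | h <;> tauto

omit [DecidableEq V] in
theorem F1_labels_cases (b : BT V) : ∀ p : V, ∀ y ∈ b.labels, y ∈ b.nodes ∨
    ∃ q ∈ b.outs p, q.2 = y := by
  induction b with
  | out w => intro p y hy; simp only [labels, List.mem_singleton] at hy; simp [outs, hy]
  | nd f x b ih =>
    intro p y hy
    simp only [labels, List.mem_cons] at hy
    simp only [nodes, outs, List.mem_cons]
    rcases hy with hy | hy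
    · exact Or.inl (Or.inl hy)
    · rcases ih x y hy with h | h
      · exact Or.inl (Or.inr h)
      · exact Or.inr h
  | br s t ihs iht =>
    intro p y hy
    simp only [labels, List.mem_append] at hy
    simp only [nodes, outs, List.mem_append]
    rcases hy with hy | hy
    · rcases ihs p y hy with h | ⟨q, h, h'⟩
      · exact Or.inl (Or.inl h)
      · exact Or.inr ⟨q, Or.inl h, h'⟩
    · rcases iht p y hy with h | ⟨q, h, h'⟩
      · exact Or.inl (Or.inr h)
      · exact Or.inr ⟨q, Or.inr h, h'⟩

omit [DecidableEq V] in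
theorem F1_outs_labels (b : BT V) : ∀ p : V, ∀ q ∈ b.outs p, q.2 ∈ b.labels := by
  induction b with
  | out w => intro p q hq; simp only [outs, List.mem_singleton] at hq; simp [labels, hq]
  | nd f x b ih =>
    intro p q hq
    simp only [outs] at hq
    simp only [labels, List.mem_cons]
    exact Or.inr (ih x q hq)
  | br s t ihs iht =>
    intro p q hq
    simp only [outs, List.mem_append] at hq
    simp only [labels, List.mem_append]
    rcases hq with hq | hq
    · exact Or.inl (ihs p q hq)
    · exact Or.inr (iht p q hq)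

omit [DecidableEq V] in
theorem F1_outs_not_node (b : BT V) : ∀ p : V, b.labels.Nodup → ∀ q ∈ b.outs p, q.2 ∉ b.nodes := by
  induction b with
  | out w => intro p _ q _; simp [nodes]
  | nd f x b ih =>
    intro p hnd q hq
    simp only [outs] at hq
    simp only [labels, List.nodup_cons] at hnd
    simp only [nodes, List.mem_cons, not_or]
    refine ⟨?_, ih x hnd.2 q hq⟩
    intro h
    exact hnd.1 (h ▸ F1_outs_labels b x q hq)
  | br s t ihs iht =>
    intro p hnd q hq
    simp only [outs, List.mem_append] at hq
    simp only [labels, List.nodup_append] at hnd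
    simp only [nodes, List.mem_append, not_or]
    rcases hq with hq | hq
    · refine ⟨ihs p hnd.1 q hq, ?_⟩
      intro h
      exact hnd.2.2 _ (F1_outs_labels s p q hq) _ (F1_nodes_sub t _ h) rfl
    · refine ⟨?_, iht p hnd.2.1 q hq⟩
      intro h
      exact hnd.2.2 _ (F1_nodes_sub s _ h) _ (F1_outs_labels t p q hq) rfl

theorem F1_full_cases {K : Finset (Sym2 V)} (b : BT V) : ∀ p : V, Full K p b → ∀ x ∈ b.nodes, ∀ y,
    s(x, y) ∈ K → y = p ∨ y ∈ b.nodes ∨ (x, y) ∈ b.outs p := by
  induction b with
  | out w => intro p _ x hx; simp [nodes] at hx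
  | nd f x' b ih =>
    intro p hF x hx y hy
    simp only [Full] at hF
    simp only [nodes, List.mem_cons] at hx
    simp only [nodes, outs, List.mem_cons]
    rcases hx with rfl | hx
    · rcases (hF.1 y).1 hy with h | h
      · exact Or.inl h
      · rcases F1_tops_cases b x y h with h' | h' <;> tauto
    · rcases ih x' hF.2 x hx y hy with h | h | h <;> tauto
  | br s t ihs iht =>
    intro p hF x hx y hy
    simp only [Full] at hF
    simp only [nodes, List.mem_append] at hx
    simp only [nodes, outs, List.mem_append]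
    rcases hx with hx | hx
    · rcases ihs p hF.1 x hx y hy with h | h | h <;> tauto
    · rcases iht p hF.2 x hx y hy with h | h | h <;> tauto

end BT

section F1

variable {E : Finset (Sym2 ℕ)} {D : ℕ} {nb : ℕ → Finset ℕ} {S : Set ℕ}

theorem F1_refl (a : ℕ) : Jin E S a a :=
  ⟨∅, empty_subset _, by simp, isJn_refl a⟩

theorem F1_symm {a b : ℕ} (h : Jin E S a b) : Jin E S b a := by
  obtain ⟨P, h1, h2, h3⟩ := h
  exact ⟨P, h1, h2, h3.symm⟩

theorem F1_trans {a b c : ℕ} (h1 : Jin E S a b) (h2 : Jin E S b c) : Jin E S a c := by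
  obtain ⟨P, hj, hS, hP⟩ := h1
  obtain ⟨Q, hk, hS', hQ⟩ := h2
  refine ⟨P ∆ Q, ?_, ?_, hP.trans hQ⟩
  · intro e he
    rw [mem_symmDiff] at he
    rcases he with he | he
    · exact hj he.1
    · exact hk he.1
  · intro e he
    rw [mem_symmDiff] at he
    rcases he with he | he
    · exact hS e he.1
    · exact hS' e he.1

theorem F1_edge (h : FG E D nb) {a b : ℕ} (he : s(a, b) ∈ E) (ha : a ∈ S) (hb : b ∈ S) :
    Jin E S a b := by
  have hne : a ≠ b := by
    intro hab
    exact h.nl _ he (by rw [hab]; exact Sym2.mk_isDiag_iff.2 rfl)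
  refine ⟨{s(a, b)}, by simpa using he, ?_, isJn_edge hne⟩
  intro e he x hx
  rw [mem_singleton] at he
  subst he
  rw [Sym2.mem_iff] at hx
  rcases hx with rfl | rfl <;> assumption

theorem F1_deg (h : FG E D nb) (v : ℕ) : (E.filter (fun e => v ∈ e)).card ≤ D := by
  have hsub : E.filter (fun e => v ∈ e) ⊆ (nb v).image (fun y => s(v, y)) := by
    intro e he
    rw [mem_filter] at he
    obtain ⟨y, hy⟩ := Sym2.mem_iff_exists.1 he.2
    rw [mem_image]
    refine ⟨y, ?_, hy.symm⟩
    rw [h.mem, ← hy]
    exact he.1
  exact (card_le_card hsub).trans (card_image_le.trans (h.card v))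

theorem F1_full_join (h : FG E D nb) (b : BT ℕ) : ∀ p : ℕ, b.Full E p → p ∈ S →
    (∀ y ∈ b.nodes, y ∈ S) → ∀ y ∈ b.nodes, Jin E S y p := by
  induction b with
  | out w => intro p _ _ _ y hy; simp [BT.nodes] at hy
  | nd f x b ih =>
    intro p hF hp hS y hy
    simp only [BT.Full] at hF
    simp only [BT.nodes, List.mem_cons] at hy hS
    have hj := (hF.1 p).2 (Or.inl rfl)
    have h1 : Jin E S x p := F1_edge h hj (hS x (Or.inl rfl)) hp
    rcases hy with rfl | hy
    · exact h1
    · exact F1_trans (ih x hF.2 (hS x (Or.inl rfl)) (fun z hz => hS z (Or.inr hz)) y hy) h1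
  | br s t ihs iht =>
    intro p hF hp hS y hy
    simp only [BT.Full] at hF
    simp only [BT.nodes, List.mem_append] at hy hS
    rcases hy with hy | hy
    · exact ihs p hF.1 hp (fun z hz => hS z (Or.inl hz)) y hy
    · exact iht p hF.2 hp (fun z hz => hS z (Or.inr hz)) y hy

theorem F1_full (h : FG E D nb) {n R k c o : ℕ} (hc : 3 ≤ (nb c).card) :
    (rootb nb n R k c o).Full E c :=
  root_full h.two h.symm hc (fun y _ z => (h.mem y z).symm)

end F1

/-- the label set is connected -/
theorem lab_join {E : Finset (Sym2 ℕ)} {D : ℕ} {nb : ℕ → Finset ℕ} (hF : FG E D nb)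
    {n R k c o : ℕ} (hc : 3 ≤ (nb c).card) (ho : o ∈ nb c) :
    ∀ u ∈ {x | x ∈ o :: c :: (rootb nb n R k c o).labels},
      ∀ v ∈ {x | x ∈ o :: c :: (rootb nb n R k c o).labels},
        Jin E {x | x ∈ o :: c :: (rootb nb n R k c o).labels} u v := by
  have hfull := F1_full hF (n := n) (R := R) (k := k) (o := o) hc
  have houts := root_outs_mem hF.two hF.symm (n := n) (R := R) (k := k) (o := o) hc
  generalize rootb nb n R k c o = b at *
  obtain ⟨S, hS⟩ : ∃ S : Set ℕ, S = {x | x ∈ o :: c :: b.labels} := ⟨_, rfl⟩
  rw [← hS]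
  have hSo : o ∈ S := by rw [hS]; simp
  have hSc : c ∈ S := by rw [hS]; simp
  have hSl : ∀ y ∈ b.labels, y ∈ S := by
    intro y hy
    rw [hS]
    show y ∈ o :: c :: b.labels
    simp only [List.mem_cons]
    exact Or.inr (Or.inr hy)
  have hSn : ∀ y ∈ b.nodes, y ∈ S := fun y hy => hSl y (BT.F1_nodes_sub b y hy)
  have hjn := F1_full_join (S := S) hF b c hfull hSc hSn
  have hco : Jin E S c o := F1_edge hF ((hF.mem c o).1 ho) hSc hSo
  have hall : ∀ w ∈ S, Jin E S w c := by
    intro w hw
    rw [hS] at hw
    have hw' : w ∈ o :: c :: b.labels := hw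
    simp only [List.mem_cons] at hw'
    rcases hw' with rfl | rfl | hw'
    · exact F1_symm hco
    · exact F1_refl _
    · rcases BT.F1_labels_cases b c w hw' with h1 | ⟨q, hq, rfl⟩
      · exact hjn w h1
      · obtain ⟨h2, h3, h4⟩ := houts q hq
        have hq1 : q.1 ∈ S := by
          rcases h3 with h3 | h3
          · rw [h3]; exact hSc
          · exact hSn _ h3
        have h5 : Jin E S q.2 q.1 := F1_symm (F1_edge hF ((hF.mem _ _).1 h2) hq1 (hSl _ h4))
        rcases h3 with h3 | h3
        · rw [h3] at h5; exact h5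
        · exact F1_trans h5 (hjn _ h3)
  intro u hu v hv
  exact F1_trans (hall u hu) (F1_symm (hall v hv))

open Classical in
/-- few edges leave the label set -/
theorem lab_cross {E : Finset (Sym2 ℕ)} {D : ℕ} {nb : ℕ → Finset ℕ} (hF : FG E D nb)
    {n R k c o : ℕ} (hc : 3 ≤ (nb c).card) (ho : o ∈ nb c) :
    (E.filter (fun e => Cross {x | x ∈ o :: c :: (rootb nb n R k c o).labels} e)).card ≤
      D * (((rootb nb n R k c o).outs c).length + 1) := by
  have hfull := F1_full hF (n := n) (R := R) (k := k) (o := o) hc
  set b := rootb nb n R k c o with hb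
  have key : ∀ x y : ℕ, s(x, y) ∈ E → x ∈ o :: c :: b.labels → y ∉ o :: c :: b.labels →
      x = o ∨ ∃ q ∈ b.outs c, q.2 = x := by
    intro x y he hx hy
    have hy' : y ∈ nb x := (hF.mem x y).2 he
    simp only [List.mem_cons, not_or] at hx hy
    rcases hx with rfl | rfl | hx
    · exact Or.inl rfl
    · exfalso
      apply hy.2.2
      apply BT.F1_tops_sub
      rw [hb, root_tops hc y, mem_erase]
      exact ⟨hy.1, hy'⟩
    · rcases BT.F1_labels_cases b c x hx with h1 | h1
      · exfalso
        rcases BT.F1_full_cases b c hfull x h1 y he with h2 | h2 | h2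
        · exact hy.2.1 h2
        · exact hy.2.2 (BT.F1_nodes_sub b y h2)
        · exact hy.2.2 (BT.F1_outs_labels b c (x, y) h2)
      · exact Or.inr h1
  have hsub : E.filter (fun e => Cross {x | x ∈ o :: c :: b.labels} e) ⊆
      (insert o ((b.outs c).map Prod.snd).toFinset).biUnion
        (fun v => E.filter (fun e => v ∈ e)) := by
    intro e he
    rw [mem_filter] at he
    obtain ⟨he, hcr⟩ := he
    simp only [mem_biUnion, mem_filter, mem_insert, List.mem_toFinset, List.mem_map]
    have key2 : ∀ x y : ℕ, e = s(x, y) → x ∈ o :: c :: b.labels → y ∉ o :: c :: b.labels →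
        ∃ a, (a = o ∨ ∃ q ∈ b.outs c, q.2 = a) ∧ e ∈ E ∧ a ∈ e := by
      intro x y hxy hx hy
      refine ⟨x, key x y (hxy ▸ he) hx hy, he, ?_⟩
      rw [hxy]; exact Sym2.mem_mk_left x y
    induction e with
    | h x y =>
      by_cases hx : x ∈ o :: c :: b.labels
      · by_cases hy : y ∈ o :: c :: b.labels
        · exfalso
          apply hcr.1
          intro v hv
          rw [Sym2.mem_iff] at hv
          rcases hv with rfl | rfl
          · exact hx
          · exact hy
        · exact key2 x y rfl hx hy
      · by_cases hy : y ∈ o :: c :: b.labels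
        · exact key2 y x Sym2.eq_swap hy hx
        · exfalso
          apply hcr.2
          intro v hv
          rw [Sym2.mem_iff] at hv
          rcases hv with rfl | rfl
          · exact hx
          · exact hy
  calc (E.filter (fun e => Cross {x | x ∈ o :: c :: b.labels} e)).card
      ≤ ((insert o ((b.outs c).map Prod.snd).toFinset).biUnion
        (fun v => E.filter (fun e => v ∈ e))).card := card_le_card hsub
    _ ≤ (insert o ((b.outs c).map Prod.snd).toFinset).card * D := by
        apply card_biUnion_le_card_mul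
        intro v _
        exact F1_deg hF v
    _ ≤ ((b.outs c).length + 1) * D := by
        apply Nat.mul_le_mul_right
        refine (card_insert_le _ _).trans ?_
        have := List.toFinset_card_le ((b.outs c).map Prod.snd)
        rw [List.length_map] at this
        omega
    _ = D * ((b.outs c).length + 1) := mul_comm _ _

/-- the nodes are connected -/
theorem node_join {E : Finset (Sym2 ℕ)} {D : ℕ} {nb : ℕ → Finset ℕ} (hF : FG E D nb)
    {n R k c o : ℕ} (hc : 3 ≤ (nb c).card) (ho : o ∈ nb c)
    (hnd : (o :: c :: (rootb nb n R k c o).labels).Nodup) :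
    ∀ u ∈ {x | x = c ∨ x ∈ (rootb nb n R k c o).nodes},
      ∀ v ∈ {x | x = c ∨ x ∈ (rootb nb n R k c o).nodes},
        Jin E {x | x = c ∨ x ∈ (rootb nb n R k c o).nodes} u v := by
  have hfull := F1_full hF (n := n) (R := R) (k := k) (o := o) hc
  generalize rootb nb n R k c o = b at *
  obtain ⟨S, hS⟩ : ∃ S : Set ℕ, S = {x | x = c ∨ x ∈ b.nodes} := ⟨_, rfl⟩
  rw [← hS]
  have hSc : c ∈ S := by rw [hS]; exact Or.inl rfl
  have hSn : ∀ y ∈ b.nodes, y ∈ S := by
    intro y hy
    rw [hS]
    exact Or.inr hy
  have hjn := F1_full_join (S := S) hF b c hfull hSc hSn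
  have hall : ∀ w ∈ S, Jin E S w c := by
    intro w hw
    rw [hS] at hw
    rcases hw with rfl | hw'
    · exact F1_refl _
    · exact hjn w hw'
  intro u hu v hv
  exact F1_trans (hall u hu) (F1_symm (hall v hv))

open Classical in
/-- few edges leave the set of nodes; the other ends are `o` and the out-labels, no nodes -/
theorem node_cross {E : Finset (Sym2 ℕ)} {D : ℕ} {nb : ℕ → Finset ℕ} (hF : FG E D nb)
    {n R k c o : ℕ} (hc : 3 ≤ (nb c).card) (ho : o ∈ nb c)
    (hnd : (o :: c :: (rootb nb n R k c o).labels).Nodup) :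
    (E.filter (fun e => Cross {x | x = c ∨ x ∈ (rootb nb n R k c o).nodes} e)).card ≤
      ((rootb nb n R k c o).outs c).length + 1 ∧
    o ∉ {x | x = c ∨ x ∈ (rootb nb n R k c o).nodes} ∧
    ∀ q ∈ (rootb nb n R k c o).outs c, q.2 ∉ {x | x = c ∨ x ∈ (rootb nb n R k c o).nodes} := by
  have hfull := F1_full hF (n := n) (R := R) (k := k) (o := o) hc
  have htops := root_tops (nb := nb) (n := n) (R := R) (k := k) (o := o) hc
  set b := rootb nb n R k c o with hb
  refine ⟨?_, ?_, ?_⟩
  · have key : ∀ x y : ℕ, s(x, y) ∈ E → (x = c ∨ x ∈ b.nodes) → ¬ (y = c ∨ y ∈ b.nodes) →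
        s(x, y) ∈ insert s(c, o) ((b.outs c).map (fun q => s(q.1, q.2))).toFinset := by
      intro x y he hxN hy
      rw [not_or] at hy
      have hyx : y ∈ nb x := (hF.mem x y).2 he
      rw [mem_insert, List.mem_toFinset, List.mem_map]
      rcases hxN with rfl | hxN
      · by_cases hyo : y = o
        · left; rw [hyo]
        · right
          have h1 : y ∈ b.tops := (htops y).2 (mem_erase.2 ⟨hyo, hyx⟩)
          rcases BT.F1_tops_cases b x y h1 with h2 | h2
          · exact absurd h2 hy.2
          · exact ⟨(x, y), h2, rfl⟩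
      · right
        rcases BT.F1_full_cases b c hfull x hxN y he with h2 | h2 | h2
        · exact absurd h2 hy.1
        · exact absurd h2 hy.2
        · exact ⟨(x, y), h2, rfl⟩
    have hsub : E.filter (fun e => Cross {x | x = c ∨ x ∈ b.nodes} e) ⊆
        insert s(c, o) ((b.outs c).map (fun q => s(q.1, q.2))).toFinset := by
      intro e he
      rw [mem_filter] at he
      obtain ⟨he, hcr⟩ := he
      induction e with
      | h x y =>
        by_cases hx : (x = c ∨ x ∈ b.nodes)
        · by_cases hy : (y = c ∨ y ∈ b.nodes)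
          · exfalso
            apply hcr.1
            intro v hv
            rw [Sym2.mem_iff] at hv
            rcases hv with rfl | rfl
            · exact hx
            · exact hy
          · exact key x y he hx hy
        · by_cases hy : (y = c ∨ y ∈ b.nodes)
          · rw [show s(x, y) = s(y, x) from Sym2.eq_swap]
            exact key y x (by rw [Sym2.eq_swap]; exact he) hy hx
          · exfalso
            apply hcr.2
            intro v hv
            rw [Sym2.mem_iff] at hv
            rcases hv with rfl | rfl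
            · exact hx
            · exact hy
    refine le_trans (card_le_card hsub) ?_
    refine (card_insert_le _ _).trans ?_
    have := List.toFinset_card_le ((b.outs c).map (fun q => s(q.1, q.2)))
    rw [List.length_map] at this
    omega
  · simp only [List.nodup_cons, List.mem_cons, not_or] at hnd
    intro h1
    rcases h1 with h1 | h1
    · exact hnd.1.1 h1
    · exact hnd.1.2 (BT.F1_nodes_sub b _ h1)
  · intro q hq h1
    simp only [List.nodup_cons, List.mem_cons, not_or] at hnd
    rcases h1 with h1 | h1
    · exact hnd.2.1 (h1 ▸ BT.F1_outs_labels b c q hq)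
    · exact BT.F1_outs_not_node b c hnd.2.2 q hq h1

end Jia
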