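import Pool.Agent.Helper826.Jia.TH
import Pool.Agent.Helper826.Jia.W1
import Pool.Agent.Helper826.Jia.W2a
import Pool.Agent.Helper826.Jia.W2b
import Pool.Agent.Helper826.Jia.W4
import Pool.Agent.Helper826.Bondy.E0b
import Pool.Agent.Helper826.Bondy.F1b

set_option autoImplicit false

namespace Jia
open Finset
open scoped symmDiff

theorem f3_nodes_labels {V : Type*} (b : BT V) : ∀ x ∈ b.nodes, x ∈ b.labels := by
  induction b with
  | out w => intro x hx; simp [BT.nodes] at hx
  | nd f y b ih =>
    intro x hx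
    simp only [BT.nodes, BT.labels, List.mem_cons] at hx ⊢
    rcases hx with hx | hx
    · exact Or.inl hx
    · exact Or.inr (ih x hx)
  | br s t ihs iht =>
    intro x hx
    simp only [BT.nodes, BT.labels, List.mem_append] at hx ⊢
    rcases hx with hx | hx
    · exact Or.inl (ihs x hx)
    · exact Or.inr (iht x hx)

open Classical in
/-- the three kinds of cells around a branch vertex -/
theorem cell {E : Finset (Sym2 ℕ)} {D : ℕ} {nb : ℕ → Finset ℕ} (hF : FG E D nb)
    (h n : ℕ) {c : ℕ} (hc : 3 ≤ (nb c).card) :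
    ∃ L : Set ℕ, (∀ y ∈ L, Rw nb (h + n + 1) c y) ∧
      (((E.filter (fun e => Cross L e)).card ≤ D * (D ^ (h + n + 1) + 1) ∧
          (∀ u ∈ L, ∀ v ∈ L, Jin E L u v) ∧
          ∃ C ∈ Zf E, C.Nonempty ∧ ∀ e ∈ C, ∀ x ∈ e, x ∈ L) ∨
       (∃ o, o ∈ L ∧ c ∈ L ∧ s(o, c) ∈ E ∧
          (((Cf E).filter (fun C => s(o, c) ∈ C)).card : ℝ) ≤
            (sq h + (D : ℝ) * (1 + Bq D h) * sq n) * (Zf E).card) ∨
       (∃ N ⊆ L, (E.filter (fun e => Cross N e)).card ≤ D ^ (h + n + 1) + 1 ∧
          (∀ u ∈ N, ∀ v ∈ N, Jin E N u v) ∧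
          ∃ u v, u ∉ N ∧ v ∉ N ∧ (∃ x ∈ N, s(x, u) ∈ E) ∧ (∃ x ∈ N, s(x, v) ∈ E) ∧
            ¬ Jin E Nᶜ u v)) := by
  have h2 := hF.two
  have hsymm := hF.symm
  have hirr := hF.irr
  obtain ⟨o, ho⟩ : (nb c).Nonempty := by
    rw [← Finset.card_pos]; omega
  have hB : ∀ w, (nb w).Nonempty → ∃ B : Finset ℕ, w ∈ B ∧
      ∀ y ∈ B, (nb y).card = 2 → nb y ⊆ B := by
    intro w _
    refine ⟨E.biUnion (fun e => e.toFinset) ∪ {w}, by simp, ?_⟩
    intro y _ _ z hz
    rw [Finset.mem_union, Finset.mem_biUnion]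
    exact Or.inl ⟨s(y, z), (hF.mem y z).1 hz, Sym2.mem_toFinset.2 (by simp)⟩
  obtain ⟨R, hR⟩ : ∃ R, ∀ y ∈ (nb c).erase o, comp nb R (h + n) c y := by
    have h1 : ∀ y ∈ (nb c).erase o, ∃ R, ∀ R' ≥ R, comp nb R' (h + n) c y := fun y hy =>
      comp_exists h2 hsymm hirr hB (h + n) c y (Finset.mem_of_mem_erase hy) hc
    choose! f hf using h1
    exact ⟨((nb c).erase o).sup f, fun y hy => hf y hy _ (Finset.le_sup hy)⟩
  have houts : ((rootb nb n R (h + n) c o).outs c).length ≤ D ^ (h + n + 1) :=
    root_outs hF.card h2 hsymm hc ho hR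
  refine ⟨{x | x ∈ o :: c :: (rootb nb n R (h + n) c o).labels}, Rw.labels hc ho, ?_⟩
  by_cases hnd : (o :: c :: (rootb nb n R (h + n) c o).labels).Nodup
  · right
    have hom := root_outs_mem (n := n) (R := R) (k := h + n) (o := o) h2 hsymm hc
    have hcL : c ∈ o :: c :: (rootb nb n R (h + n) c o).labels := by simp
    have hnL : ∀ x ∈ (rootb nb n R (h + n) c o).nodes,
        x ∈ o :: c :: (rootb nb n R (h + n) c o).labels := fun x hx => by
      simp only [List.mem_cons]; exact Or.inr (Or.inr (f3_nodes_labels _ x hx))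
    by_cases hJ : ∀ q ∈ (rootb nb n R (h + n) c o).outs c,
        Jin E {x | x = c ∨ x ∈ (rootb nb n R (h + n) c o).nodes}ᶜ q.2 o
    · left
      refine ⟨o, by simp, hcL, ?_, ?_⟩
      · rw [Sym2.eq_swap]; exact (hF.mem c o).1 ho
      · have hti := thick_ineq hF.nl hnd (by
            intro y
            rw [← hF.mem c y, root_tops hc, Finset.mem_erase]
            constructor
            · intro hy
              by_cases hyo : y = o
              · exact Or.inl hyo
              · exact Or.inr ⟨hyo, hy⟩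
            · rintro (rfl | hy)
              · exact ho
              · exact hy.2) (root_full h2 hsymm hc (fun y _ z => (hF.mem y z).symm)) (by
            intro q hq
            obtain ⟨P, hP, hP2, hP3⟩ := hJ q hq
            refine ⟨P, hP, ?_, hP3⟩
            intro e he x hx
            have := hP2 e he x hx
            simp only [Set.mem_compl_iff, Set.mem_ofPred_eq, not_or] at this
            exact this) (by
            intro q hq
            exact (hF.mem q.1 q.2).1 (hom q hq).1)
          (E.biUnion (fun e => e.toFinset) ∪ (rootb nb n R (h + n) c o).labels.toFinset) (by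
            intro e he x hx
            rw [Finset.mem_union]
            left
            rw [Finset.mem_biUnion]
            exact ⟨e, he, Sym2.mem_toFinset.2 hx⟩)
        have hv := root_val (D := D) h2 hsymm hc ho hR
          (E.biUnion (fun e => e.toFinset) ∪ (rootb nb n R (h + n) c o).labels.toFinset) (by
            intro x hx
            rw [Finset.mem_union]
            right
            exact List.mem_toFinset.2 hx)
        have hth := root_Theta h2 hF.card hsymm hc ho hR
        refine hti.trans ?_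
        exact mul_le_mul_of_nonneg_right (add_le_add hv hth) (Nat.cast_nonneg _)
    · right
      push Not at hJ
      obtain ⟨q, hq, hnj⟩ := hJ
      obtain ⟨hx1, hx2, hx3⟩ := node_cross hF hc ho hnd
      obtain ⟨g1, g2, g3⟩ := hom q hq
      refine ⟨{x | x = c ∨ x ∈ (rootb nb n R (h + n) c o).nodes}, ?_, ?_,
        node_join hF hc ho hnd, q.2, o, hx3 q hq, hx2, ⟨q.1, g2, (hF.mem q.1 q.2).1 g1⟩,
        ⟨c, Or.inl rfl, (hF.mem c o).1 ho⟩, hnj⟩
      · rintro x (rfl | hx)
        · exact hcL
        · exact hnL x hx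
      · exact hx1.trans (by omega)
  · left
    have hf : ¬ ∀ C : Finset (Sym2 ℕ), IsEv C →
        (∀ e ∈ C, ∃ x y, e = s(x, y) ∧ y ∈ nb x ∧
          x ∈ o :: c :: (rootb nb n R (h + n) c o).labels ∧
          y ∈ o :: c :: (rootb nb n R (h + n) c o).labels) → C = ∅ := fun hfor =>
      hnd (root_nodup h2 hsymm hirr hc ho hfor)
    push Not at hf
    obtain ⟨C, hC, hCe, hne⟩ := hf
    refine ⟨(lab_cross hF hc ho).trans (Nat.mul_le_mul_left _ (by omega)),
      lab_join hF hc ho, C, mem_Zf.2 ⟨?_, hC⟩, hne, ?_⟩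
    · intro e he
      obtain ⟨x, y, rfl, hxy, _, _⟩ := hCe e he
      exact (hF.mem x y).1 hxy
    · intro e he z hz
      obtain ⟨x, y, rfl, hxy, hx, hy⟩ := hCe e he
      rcases Sym2.mem_iff.1 hz with rfl | rfl
      · exact hx
      · exact hy

end Jia
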