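import Pool.Agent.Helper826.Bondy.JB

set_option autoImplicit false

namespace Jia
open Finset
open scoped symmDiff
variable {V : Type*} [DecidableEq V]

omit [DecidableEq V] in
theorem cross_iff (D : Set V) (u v : V) :
    Cross D s(u, v) ↔ (u ∈ D ∧ v ∉ D) ∨ (u ∉ D ∧ v ∈ D) := by
  unfold Cross
  simp only [Sym2.mem_iff, forall_eq_or_imp, forall_eq]
  tauto

theorem Cp_closed_G2b {E : Finset (Sym2 V)} (hNL : NL E) {N : Set V} {w a b : V}
    (ha : a ∈ Cp E N w) (hab : s(a, b) ∈ E) (hb : b ∉ N) : b ∈ Cp E N w := by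
  have hne : a ≠ b := by
    rintro rfl
    exact hNL _ hab (by simp)
  exact ⟨hb, ha.2.trans (Jin.edge hab hne ha.1 hb)⟩

theorem mem_piece_w {E : Finset (Sym2 V)} {N N' T' : Set V} {x w y : V}
    (hx : x ∈ N) (hyx : s(y, x) ∈ E) (hsub : N' ∪ T' ⊆ Cp E N w)
    (hcl : ∀ u v, s(u, v) ∈ E → u ∈ T' → v ∈ T' ∨ v ∈ N') : y ∉ T' := by
  intro hy
  rcases hcl y x hyx hy with h | h
  · exact (hsub (Or.inr h)).1 hx
  · exact (hsub (Or.inl h)).1 hx

theorem piece_conn {E : Finset (Sym2 V)} (hNL : NL E)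
    {N N' T' : Set V} {w : V}
    (hN' : ∀ u ∈ N', ∀ v ∈ N', Jin E N' u v)
    (hsub : N' ∪ T' ⊆ Cp E N w)
    (hd : Disjoint N' T') (hcl : ∀ u v, s(u, v) ∈ E → u ∈ T' → v ∈ T' ∨ v ∈ N')
    (hwT : w ∈ Cp E N w) (hwT' : w ∉ T') :
    ∀ v ∈ Cp E N w \ T', Jin E (Cp E N w \ T') v w := by
  have claim : ∀ v ∈ Cp E N w \ T',
      (∃ n ∈ N', Jin E (Cp E N w \ T') v n) ∨ (∀ y ∈ Cp E N w, Jin E (Cp E N w \ T') v y) := by
    intro v hv
    by_cases h : ∃ n ∈ N', Jin E (Cp E N w \ T') v n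
    · exact Or.inl h
    · right
      intro y hy
      have hvy : Jin E Nᶜ v y := hv.1.2.symm.trans hy.2
      have := Jin.closed hNL (S := Nᶜ) (R := {y | y ∈ Cp E N w \ T' ∧ Jin E (Cp E N w \ T') v y})
        (u := v) (v := y) ?_ hvy ⟨hv, Jin.refl _ _ _⟩
      · exact this.2
      · rintro a b hab haN hbN ⟨haT, hva⟩
        have hbT : b ∈ Cp E N w := Cp_closed_G2b hNL haT.1 hab hbN
        have hbT' : b ∉ T' := by
          intro hb
          have hba : s(b, a) ∈ E := by rw [Sym2.eq_swap]; exact hab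
          rcases hcl b a hba hb with h1 | h1
          · exact haT.2 h1
          · exact h ⟨a, h1, hva⟩
        have hne : a ≠ b := by
          rintro rfl
          exact hNL _ hab (by simp)
        exact ⟨⟨hbT, hbT'⟩, hva.trans (Jin.edge hab hne haT ⟨hbT, hbT'⟩)⟩
  intro v hv
  have hNsub : N' ⊆ Cp E N w \ T' := by
    intro n hn
    exact ⟨hsub (Or.inl hn), fun h => Set.disjoint_left.1 hd hn h⟩
  rcases claim v hv with ⟨n, hn, h1⟩ | h1
  · rcases claim w ⟨hwT, hwT'⟩ with ⟨m, hm, h2⟩ | h2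
    · exact h1.trans (((hN' n hn m hm).mono (Finset.Subset.refl _) hNsub).trans h2.symm)
    · exact (h2 v hv.1).symm
  · exact h1 w hwT

theorem isJn_erase {C : Finset (Sym2 V)} {x w : V} (hC : IsEv C) (hxw : x ≠ w)
    (h : s(x, w) ∈ C) : IsJn (C.erase s(x, w)) x w := by
  have h1 : C.erase s(x, w) = C ∆ {s(x, w)} := by
    ext f
    rw [mem_erase, mem_symmDiff, mem_singleton]
    constructor
    · rintro ⟨h1, h2⟩; exact Or.inl ⟨h2, h1⟩
    · rintro (⟨h1, h2⟩ | ⟨h1, h2⟩)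
      · exact ⟨h2, h1⟩
      · subst h1; exact absurd h h2
  intro y
  have h2 := dg_symmDiff C {s(x, w)} y
  have h3 := isJn_edge hxw y
  have h4 := hC y
  rw [h1]
  rw [← Nat.not_even_iff_odd] at *
  rw [h2]
  tauto

open Classical in
/-- the region between `N` and `N'` -/
theorem piece {E : Finset (Sym2 V)} (hNL : NL E) (hbr : ∀ e ∈ E, ∃ C ∈ Zf E, e ∈ C)
    {N N' T' : Set V} {x w : V} (hN : ∀ u ∈ N, ∀ v ∈ N, Jin E N u v)
    (hN' : ∀ u ∈ N', ∀ v ∈ N', Jin E N' u v)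
    (hx : x ∈ N) (hxw : s(x, w) ∈ E) (hw : w ∉ N) (hsub : N' ∪ T' ⊆ Cp E N w)
    (hd : Disjoint N' T') (hcl : ∀ u v, s(u, v) ∈ E → u ∈ T' → v ∈ T' ∨ v ∈ N') {ρ ρ' : ℕ}
    (hcr : (E.filter (fun e => Cross N e)).card ≤ ρ)
    (hcr' : (E.filter (fun e => Cross N' e)).card ≤ ρ') :
    (E.filter (fun e => Cross (N ∪ (Cp E N w \ T')) e)).card ≤ ρ + ρ' ∧
    (∀ u ∈ N ∪ (Cp E N w \ T'), ∀ v ∈ N ∪ (Cp E N w \ T'), Jin E (N ∪ (Cp E N w \ T')) u v) ∧
    ∃ C ∈ Zf E, C.Nonempty ∧ ∀ e ∈ C, ∀ y ∈ e, y ∈ N ∪ (Cp E N w \ T') := by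
  have hxw' : x ≠ w := by
    rintro rfl
    exact hw hx
  have hwT : w ∈ Cp E N w := ⟨hw, Jin.refl _ _ _⟩
  have hwx : s(w, x) ∈ E := by rw [Sym2.eq_swap]; exact hxw
  have hwT' : w ∉ T' := mem_piece_w hx hwx hsub hcl
  have hconn := piece_conn hNL hN' hsub hd hcl hwT hwT'
  have hND : N ⊆ N ∪ (Cp E N w \ T') := Set.subset_union_left
  have hTD : Cp E N w \ T' ⊆ N ∪ (Cp E N w \ T') := Set.subset_union_right
  refine ⟨?_, ?_, ?_⟩
  · refine le_trans (card_le_card ?_) ((card_union_le _ _).trans (Nat.add_le_add hcr hcr'))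
    intro e he
    rw [mem_filter] at he
    obtain ⟨heE, hce⟩ := he
    rw [mem_union, mem_filter, mem_filter]
    have key : ∀ u v, s(u, v) ∈ E → u ∈ N ∪ (Cp E N w \ T') → v ∉ N ∪ (Cp E N w \ T') →
        Cross N s(u, v) ∨ Cross N' s(u, v) := by
      intro u v huv hu hv
      rw [cross_iff, cross_iff]
      have hvN : v ∉ N := fun h => hv (Or.inl h)
      rcases hu with hu | hu
      · exact Or.inl (Or.inl ⟨hu, hvN⟩)
      · have hvT : v ∈ Cp E N w := Cp_closed_G2b hNL hu.1 huv hvN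
        have hvT' : v ∈ T' := by
          by_contra h
          exact hv (Or.inr ⟨hvT, h⟩)
        have hvu : s(v, u) ∈ E := by rw [Sym2.eq_swap]; exact huv
        rcases hcl v u hvu hvT' with h | h
        · exact absurd h hu.2
        · exact Or.inr (Or.inl ⟨h, fun h' => Set.disjoint_left.1 hd h' hvT'⟩)
    induction e with
    | h u v =>
      rw [cross_iff] at hce
      rcases hce with ⟨h1, h2⟩ | ⟨h1, h2⟩
      · rcases key u v heE h1 h2 with h | h
        · exact Or.inl ⟨heE, h⟩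
        · exact Or.inr ⟨heE, h⟩
      · have heE' : s(v, u) ∈ E := by rw [Sym2.eq_swap]; exact heE
        rcases key v u heE' h2 h1 with h | h
        · rw [Sym2.eq_swap] at h; exact Or.inl ⟨heE, h⟩
        · rw [Sym2.eq_swap] at h; exact Or.inr ⟨heE, h⟩
  · have toX : ∀ u ∈ N ∪ (Cp E N w \ T'), Jin E (N ∪ (Cp E N w \ T')) u x := by
      intro u hu
      rcases hu with hu | hu
      · exact (hN u hu x hx).mono (Finset.Subset.refl _) hND
      · exact ((hconn u hu).mono (Finset.Subset.refl _) hTD).trans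
          (Jin.edge hwx hxw'.symm (Or.inr ⟨hwT, hwT'⟩) (Or.inl hx))
    intro u hu v hv
    exact (toX u hu).trans (toX v hv).symm
  · obtain ⟨C, hC, hxC⟩ := hbr _ hxw
    rw [mem_Zf] at hC
    have hJ : IsJn (C.erase s(x, w)) w x := (isJn_erase hC.2 hxw' hxC).symm
    have hNLC : NL (C.erase s(x, w)) := fun e he => hNL e (hC.1 (erase_subset _ _ he))
    obtain ⟨w2, x2, hwx2, hw2, hx2⟩ : ∃ w2 x2, s(w2, x2) ∈ C.erase s(x, w) ∧
        w2 ∈ Cp E N w ∧ x2 ∉ Cp E N w := by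
      by_contra hcon
      push Not at hcon
      have hh : Jin (C.erase s(x, w)) Set.univ w x :=
        ⟨_, Finset.Subset.refl _, fun _ _ _ _ => trivial, hJ⟩
      have := Jin.closed hNLC (S := Set.univ) (R := Cp E N w)
        (fun a b hab _ _ ha => hcon a b hab ha) hh hwT
      exact this.1 hx
    have hwx2E : s(w2, x2) ∈ E := hC.1 (erase_subset _ _ hwx2)
    have hx2N : x2 ∈ N := by
      by_contra h
      exact hx2 (Cp_closed_G2b hNL hw2 hwx2E h)
    have hw2T' : w2 ∉ T' := mem_piece_w hx2N hwx2E hsub hcl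
    obtain ⟨P1, hP1, hP1', hJ1⟩ := (hconn w2 ⟨hw2, hw2T'⟩).symm
    obtain ⟨P2, hP2, hP2', hJ2⟩ := hN x2 hx2N x hx
    have hne2 : w2 ≠ x2 := by
      rintro rfl
      exact hNL _ hwx2E (by simp)
    have hJZ := ((isJn_edge hxw').trans hJ1).trans ((isJn_edge hne2).trans hJ2)
    refine ⟨({s(x, w)} ∆ P1) ∆ ({s(w2, x2)} ∆ P2), ?_, ?_, ?_⟩
    · rw [mem_Zf]
      constructor
      · intro e he
        simp only [mem_symmDiff, mem_singleton] at he
        by_cases h1 : e = s(x, w)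
        · rw [h1]; exact hxw
        by_cases h2 : e = s(w2, x2)
        · rw [h2]; exact hwx2E
        by_cases h3 : e ∈ P1
        · exact hP1 h3
        by_cases h4 : e ∈ P2
        · exact hP2 h4
        tauto
      · intro y
        have := hJZ y
        rw [← Nat.not_odd_iff_even, this]
        simp
    · refine ⟨s(x, w), ?_⟩
      have h1 : s(x, w) ∉ P1 := fun h => (hP1' _ h x (by simp)).1.1 hx
      have h2 : s(x, w) ∉ P2 := fun h => hw (hP2' _ h w (by simp))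
      have h3 : s(x, w) ≠ s(w2, x2) := fun h => by
        rw [← h] at hwx2
        simp at hwx2
      simp only [mem_symmDiff, mem_singleton]
      tauto
    · intro e he y hy
      simp only [mem_symmDiff, mem_singleton] at he
      by_cases h1 : e = s(x, w)
      · rw [h1, Sym2.mem_iff] at hy
        rcases hy with rfl | rfl
        · exact Or.inl hx
        · exact Or.inr ⟨hwT, hwT'⟩
      by_cases h2 : e = s(w2, x2)
      · rw [h2, Sym2.mem_iff] at hy
        rcases hy with rfl | rfl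
        · exact Or.inr ⟨hw2, hw2T'⟩
        · exact Or.inl hx2N
      by_cases h3 : e ∈ P1
      · exact Or.inr (hP1' e h3 y hy)
      by_cases h4 : e ∈ P2
      · exact Or.inl (hP2' e h4 y hy)
      tauto

end Jia
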