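import Mathlib

set_option autoImplicit false

namespace Jia
open Finset

/-- Mirsky -/
theorem chain_or_antichain {α : Type*} [Nonempty α] (lt : α → α → Prop) (hirr : ∀ a, ¬ lt a a)
    (htr : ∀ a b c, lt a b → lt b c → lt a c) (s : ℕ) (hs : 0 < s) :
    ∀ (L : ℕ) (F : Finset α), L * s ≤ F.card →
      (∃ f : ℕ → α, (∀ i < L, f i ∈ F) ∧ ∀ i j, i < j → j < L → lt (f j) (f i)) ∨
      (∃ G ⊆ F, s ≤ G.card ∧ ∀ a ∈ G, ∀ b ∈ G, a ≠ b → ¬ lt a b) := by
  classical
  intro L
  induction L with
  | zero =>
    intro F hF
    obtain ⟨a⟩ := ‹Nonempty α›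
    left
    exact ⟨fun _ => a, fun i hi => by omega, fun i j _ hj => by omega⟩
  | succ L ih =>
    intro F hF
    set M := F.filter (fun a => ∀ b ∈ F, ¬ lt a b) with hM
    by_cases hcard : s ≤ M.card
    · right
      refine ⟨M, filter_subset _ _, hcard, ?_⟩
      intro a ha b hb _
      exact (mem_filter.1 ha).2 b (mem_filter.1 hb).1
    · push Not at hcard
      have h1 : L * s ≤ (F \ M).card := by
        have h2 : (F \ M).card + M.card = F.card := card_sdiff_add_card_eq_card (filter_subset _ _)
        rw [Nat.succ_mul] at hF
        omega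
      rcases ih (F \ M) h1 with ⟨f, hf1, hf2⟩ | ⟨G, hG1, hG2, hG3⟩
      · left
        have hFne : F.Nonempty := by
          rw [← card_pos]
          rw [Nat.succ_mul] at hF
          omega
        rcases Nat.eq_zero_or_pos L with hL | hL
        · subst hL
          obtain ⟨a, ha⟩ := hFne
          exact ⟨fun _ => a, fun i hi => ha, fun i j _ hj => by omega⟩
        · have h3 := hf1 0 hL
          obtain ⟨h4, h5⟩ := mem_sdiff.1 h3
          have h6 : ∃ b ∈ F, lt (f 0) b := by
            by_contra hcon
            push Not at hcon
            exact h5 (mem_filter.2 ⟨h4, hcon⟩)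
          obtain ⟨b, hb, hlt⟩ := h6
          refine ⟨fun i => if i = 0 then b else f (i - 1), ?_, ?_⟩
          · intro i hi
            by_cases h0 : i = 0
            · simp [h0, hb]
            · simp only [h0, if_false]
              exact (mem_sdiff.1 (hf1 (i - 1) (by omega))).1
          · intro i j hij hj
            have hj0 : j ≠ 0 := by omega
            simp only [hj0, if_false]
            by_cases h0 : i = 0
            · simp only [h0, if_true]
              by_cases hj1 : j - 1 = 0
              · rw [hj1]; exact hlt
              · exact htr _ _ _ (hf2 0 (j - 1) (by omega) (by omega)) hlt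
            · simp only [h0, if_false]
              exact hf2 (i - 1) (j - 1) (by omega) (by omega)
      · right
        exact ⟨G, hG1.trans sdiff_subset, hG2, hG3⟩

end Jia
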