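import Pool.Agent.Helper826.Bondy.G1b
import Pool.Agent.Helper826.Bondy.G2b
import Pool.Agent.Helper826.Bondy.G3b

set_option autoImplicit false

namespace Jia
open Finset
open scoped symmDiff
variable {V : Type*} [DecidableEq V]


omit [DecidableEq V] in
theorem enum_aux {α : Type*} (F : Finset α) (s : ℕ) (hs : 0 < s) (h : s ≤ F.card) :
    ∃ f : ℕ → α, (∀ i < s, f i ∈ F) ∧ ∀ i < s, ∀ j < s, f i = f j → i = j := by
  classical
  have hne : F.Nonempty := card_pos.1 (by omega)
  obtain ⟨a0, ha0⟩ := hne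
  let e := F.equivFin
  refine ⟨fun i => if h : i < F.card then (e.symm ⟨i, h⟩ : α) else a0, ?_, ?_⟩
  · intro i hi
    simp only [dif_pos (lt_of_lt_of_le hi h)]
    exact (e.symm _).2
  · intro i hi j hj hij
    simp only [dif_pos (lt_of_lt_of_le hi h), dif_pos (lt_of_lt_of_le hj h)] at hij
    have := e.symm.injective (Subtype.ext hij)
    simpa using this

open Classical in
theorem dg_restrict {P : Finset (Sym2 V)} {D : Set V} (hD : ∀ e ∈ P, ¬ Cross D e) (v : V) :
    dg (P.filter (fun e => ∀ x ∈ e, x ∈ D)) v = if v ∈ D then dg P v else 0 := by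
  unfold dg
  split_ifs with hv
  · congr 1
    ext e
    simp only [mem_filter]
    constructor
    · rintro ⟨⟨h1, _⟩, h2⟩
      exact ⟨h1, h2⟩
    · rintro ⟨h1, h2⟩
      refine ⟨⟨h1, ?_⟩, h2⟩
      by_contra hc
      exact hD e h1 ⟨hc, fun h' => h' v h2 hv⟩
  · rw [card_eq_zero, filter_eq_empty_iff]
    intro e he h
    rw [mem_filter] at he
    exact hv (he.2 v h)

/-- the component of `x` -/
def Kc (E : Finset (Sym2 V)) (x : V) : Set V := {y | Jin E Set.univ x y}

theorem Kc_eq {E : Finset (Sym2 V)} {x y : V} (h : y ∈ Kc E x) : Kc E y = Kc E x := by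
  have h' : Jin E Set.univ x y := h
  ext z
  exact ⟨fun hz => h'.trans hz, fun hz => h'.symm.trans hz⟩

theorem Kc_no_cross {E : Finset (Sym2 V)} (hNL : NL E) (x : V) : ∀ e ∈ E, ¬ Cross (Kc E x) e := by
  intro e
  induction e using Sym2.ind with
  | _ a b =>
    intro he hc
    have hab : a ≠ b := fun h => hNL _ he (by simpa using h)
    have h1 : Jin E Set.univ a b := Jin.edge he hab trivial trivial
    by_cases ha : a ∈ Kc E x
    · have hb : b ∈ Kc E x := Jin.trans (show Jin E Set.univ x a from ha) h1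
      apply hc.1
      intro y hy
      rcases Sym2.mem_iff.1 hy with rfl | rfl
      · exact ha
      · exact hb
    · have hb : b ∉ Kc E x := by
        intro hb
        exact ha (Jin.trans (show Jin E Set.univ x b from hb) h1.symm)
      apply hc.2
      intro y hy
      rcases Sym2.mem_iff.1 hy with rfl | rfl
      · exact ha
      · exact hb

open Classical in
/-- many disjoint separating connected sets give many disjoint thin sets containing cycles -/
theorem many_thin {E : Finset (Sym2 V)} (hNL : NL E) (hbr : ∀ e ∈ E, ∃ C ∈ Zf E, e ∈ C)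
    (A : Finset V) (ρ s q : ℕ) (hs : 2 ≤ s)
    (hq : (s + A.card) + (A.card ^ 2 + 1) * (2 * s * s) + 1 ≤ q) (N : ℕ → Set V)
    (hdis : ∀ a < q, ∀ b < q, a ≠ b → Disjoint (N a) (N b))
    (hA : ∀ a < q, ∀ x ∈ A, x ∉ N a)
    (hconn : ∀ a < q, ∀ u ∈ N a, ∀ v ∈ N a, Jin E (N a) u v)
    (hcr : ∀ a < q, (E.filter (fun e => Cross (N a) e)).card ≤ ρ)
    (hbad : ∀ a < q, ∃ u v, u ∉ N a ∧ v ∉ N a ∧ (∃ x ∈ N a, s(x, u) ∈ E) ∧
      (∃ x ∈ N a, s(x, v) ∈ E) ∧ ¬ Jin E (N a)ᶜ u v) :
    ThinFam E (↑A : Set V) (2 * ρ) s := by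
  have hne : ∀ a < q, ∃ x, x ∈ N a := by
    intro a ha
    obtain ⟨u, v, _, _, ⟨x, hx, _⟩, _⟩ := hbad a ha
    exact ⟨x, hx⟩
  have hq0 : 0 < q := by omega
  have : Nonempty V := ⟨(hne 0 hq0).choose⟩
  choose! x0 hx0 using hne
  set Ka : ℕ → Set V := fun a => Kc E (x0 a) with hKa
  have hNK : ∀ a < q, N a ⊆ Ka a := by
    intro a ha y hy
    exact (hconn a ha (x0 a) (hx0 a ha) y hy).mono (Subset.refl _) (Set.subset_univ _)
  by_cases hcase : s + A.card ≤ ((range q).image Ka).card
  · -- many components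
    set F := ((range q).image Ka).filter (fun κ => ∀ x ∈ A, x ∉ κ) with hF
    have hF' : (((range q).image Ka).filter (fun κ => ¬ ∀ x ∈ A, x ∉ κ)).card ≤ A.card := by
      refine le_trans (card_le_card ?_) (card_image_le (s := A) (f := Kc E))
      intro κ hκ
      rw [mem_filter, mem_image] at hκ
      obtain ⟨⟨a, _, rfl⟩, h2⟩ := hκ
      push Not at h2
      obtain ⟨x, hxA, hx⟩ := h2
      rw [mem_image]
      exact ⟨x, hxA, Kc_eq hx⟩
    have hFs : s ≤ F.card := by
      have h3 : F.card + (((range q).image Ka).filter (fun κ => ¬ ∀ x ∈ A, x ∉ κ)).card =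
          ((range q).image Ka).card := by
        rw [hF]
        convert Finset.card_filter_add_card_filter_not (s := (range q).image Ka)
          (fun κ => ∀ x ∈ A, x ∉ κ)
      omega
    obtain ⟨D, hD1, hD2⟩ := enum_aux F s (by omega) hFs
    have hD3 : ∀ i < s, ∃ a < q, D i = Ka a := by
      intro i hi
      have := (mem_filter.1 (hD1 i hi)).1
      rw [mem_image] at this
      obtain ⟨a, ha, h⟩ := this
      exact ⟨a, mem_range.1 ha, h.symm⟩
    have hD4 : ∀ i < s, ∀ e ∈ E, ¬ Cross (D i) e := by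
      intro i hi
      obtain ⟨a, _, h⟩ := hD3 i hi
      rw [h]
      exact Kc_no_cross hNL _
    refine ⟨D, ?_, ?_, ?_, ?_, ?_⟩
    · intro i hi j hj hij
      obtain ⟨a, ha, h1⟩ := hD3 i hi
      obtain ⟨b, hb, h2⟩ := hD3 j hj
      rw [Set.disjoint_left]
      intro z hz1 hz2
      apply hij
      apply hD2 i hi j hj
      rw [h1] at hz1 ⊢
      rw [h2] at hz2 ⊢
      rw [hKa] at hz1 hz2 ⊢
      exact (Kc_eq hz1).symm.trans (Kc_eq hz2)
    · intro i hi x hx
      exact (mem_filter.1 (hD1 i hi)).2 x hx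
    · intro i hi
      have : E.filter (fun e => Cross (D i) e) = ∅ := by
        rw [filter_eq_empty_iff]
        exact hD4 i hi
      rw [this]
      simp
    · intro i hi u hu v hv
      obtain ⟨a, _, h⟩ := hD3 i hi
      have huv : Jin E Set.univ u v := by
        rw [h] at hu hv
        exact Jin.trans (Jin.symm (show Jin E Set.univ (x0 a) u from hu)) hv
      obtain ⟨P, hP1, _, hP3⟩ := huv
      refine ⟨P.filter (fun e => ∀ x ∈ e, x ∈ D i), (filter_subset _ _).trans hP1, ?_, ?_⟩
      · intro e he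
        exact (mem_filter.1 he).2
      · intro x
        rw [dg_restrict (fun e he => hD4 i hi e (hP1 he))]
        split_ifs with hx
        · exact hP3 x
        · have h1 : x ≠ u := fun h => hx (h ▸ hu)
          have h2 : x ≠ v := fun h => hx (h ▸ hv)
          simp [h1, h2]
    · intro i hi
      obtain ⟨a, ha, h⟩ := hD3 i hi
      obtain ⟨u, v, _, _, ⟨x, hx, hxu⟩, _⟩ := hbad a ha
      obtain ⟨C, hC, hxC⟩ := hbr _ hxu
      have hCE := mem_Zf.1 hC
      have hnc : ∀ e ∈ C, ¬ Cross (D i) e := fun e he => hD4 i hi e (hCE.1 he)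
      have hxD : x ∈ D i := by rw [h]; exact hNK a ha hx
      refine ⟨C.filter (fun e => ∀ x ∈ e, x ∈ D i), ?_, ?_, ?_⟩
      · rw [mem_Zf]
        refine ⟨(filter_subset _ _).trans hCE.1, ?_⟩
        intro y
        rw [dg_restrict hnc]
        split_ifs
        · exact hCE.2 y
        · simp
      · refine ⟨s(x, u), ?_⟩
        rw [mem_filter]
        refine ⟨hxC, ?_⟩
        by_contra hc
        exact hnc _ hxC ⟨hc, fun h' => h' x (by simp) hxD⟩
      · intro e he
        exact (mem_filter.1 he).2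
  · -- few components
    push Not at hcase
    set r : Set V → V := fun κ => if h : κ.Nonempty then h.some else Classical.arbitrary V with hr
    have hrm : ∀ κ : Set V, κ.Nonempty → r κ ∈ κ := by
      intro κ hκ
      rw [hr]
      simp only [dif_pos hκ]
      exact hκ.some_mem
    have hrK : ∀ a < q, Jin E Set.univ (x0 a) (r (Ka a)) := by
      intro a ha
      exact hrm (Ka a) ⟨x0 a, hNK a ha (hx0 a ha)⟩
    set F0 := (range q).filter (fun a => ¬ r (Ka a) ∈ N a) with hF0
    have hB : ((range q).filter (fun a => r (Ka a) ∈ N a)).card ≤ ((range q).image Ka).card := by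
      refine card_le_card_of_injOn Ka ?_ ?_
      · intro a ha
        have ha' := mem_filter.1 (mem_coe.1 ha)
        exact mem_coe.2 (mem_image_of_mem _ ha'.1)
      · intro a ha b hb hab
        have ha' := mem_filter.1 (mem_coe.1 ha)
        have hb' := mem_filter.1 (mem_coe.1 hb)
        by_contra hne
        have hd := hdis a (mem_range.1 ha'.1) b (mem_range.1 hb'.1) hne
        have h1 := ha'.2
        rw [hab] at h1
        exact Set.disjoint_left.1 hd h1 hb'.2
    have hF0c : (A.card ^ 2 + 1) * (2 * s * s) < F0.card := by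
      have h3 : ((range q).filter (fun a => r (Ka a) ∈ N a)).card + F0.card = q := by
        rw [hF0]
        convert Finset.card_filter_add_card_filter_not (s := range q) (fun a => r (Ka a) ∈ N a)
        rw [card_range]
      omega
    have hF0q : ∀ a ∈ F0, a < q := fun a ha => mem_range.1 (mem_filter.1 ha).1
    have hF0r : ∀ a ∈ F0, r (Ka a) ∉ N a := fun a ha => (mem_filter.1 ha).2
    have hw : ∀ a ∈ F0, ∃ x w, x ∈ N a ∧ s(x, w) ∈ E ∧ w ∉ N a ∧ r (Ka a) ∉ Cp E (N a) w := by
      intro a ha
      obtain ⟨u, v, hu, hv, ⟨x, hx, hxu⟩, ⟨y, hy, hyv⟩, hnj⟩ := hbad a (hF0q a ha)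
      by_cases h1 : Jin E (N a)ᶜ u (r (Ka a))
      · refine ⟨y, v, hy, hyv, hv, ?_⟩
        intro h2
        exact hnj (h1.trans h2.2.symm)
      · refine ⟨x, u, hx, hxu, hu, ?_⟩
        intro h2
        exact h1 h2.2
    choose! x w hx hxw hw hrT using hw
    set T : ℕ → Set V := fun a => Cp E (N a) (w a) with hT
    have hNT : ∀ a, Disjoint (N a) (T a) := by
      intro a
      rw [Set.disjoint_left]
      intro z hz1 hz2
      exact hz2.1 hz1
    have hxne : ∀ a ∈ F0, x a ≠ w a := by
      intro a ha h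
      exact hw a ha (h ▸ hx a ha)
    have hxK : ∀ a ∈ F0, Jin E Set.univ (x0 a) (x a) := fun a ha => hNK a (hF0q a ha) (hx a ha)
    have hTK : ∀ a ∈ F0, N a ∪ T a ⊆ Ka a := by
      intro a ha z hz
      rcases hz with hz | hz
      · exact hNK a (hF0q a ha) hz
      · have h1 : Jin E Set.univ (x a) (w a) := Jin.edge (hxw a ha) (hxne a ha) trivial trivial
        have h2 : Jin E Set.univ (w a) z := hz.2.mono (Subset.refl _) (Set.subset_univ _)
        exact ((hxK a ha).trans h1).trans h2
    have htri : ∀ a ∈ F0, ∀ b ∈ F0, a ≠ b → Disjoint (N a ∪ T a) (N b ∪ T b) ∨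
        N b ∪ T b ⊆ T a ∨ N a ∪ T a ⊆ T b := by
      intro a ha b hb hab
      by_cases hK : Ka a = Ka b
      · have hrb : r (Ka a) = r (Ka b) := by rw [hK]
        refine laminar hNL (hdis a (hF0q a ha) b (hF0q b hb) hab) (hconn a (hF0q a ha))
          (hconn b (hF0q b hb)) (hx a ha) (hxw a ha) (hw a ha) (hx b hb) (hxw b hb) (hw b hb)
          (hF0r a ha) (r := r (Ka a)) ?_ (hrT a ha) ?_ ?_ ?_
        · rw [hrb]; exact hF0r b hb
        · rw [hrb]; exact hrT b hb
        · exact (hxK a ha).symm.trans (hrK a (hF0q a ha))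
        · rw [hrb]
          exact (hxK b hb).symm.trans (hrK b (hF0q b hb))
      · left
        rw [Set.disjoint_left]
        intro z hz1 hz2
        apply hK
        have h1 : z ∈ Kc E (x0 a) := hTK a ha hz1
        have h2 : z ∈ Kc E (x0 b) := hTK b hb hz2
        exact (Kc_eq h1).symm.trans (Kc_eq h2)
    -- keys
    set AT : ℕ → Finset V := fun a => A.filter (fun t => t ∈ T a) with hAT
    set key : ℕ → Option (V × ℕ) := fun a =>
      if h : (AT a).Nonempty then some (h.choose, (AT a).card) else none with hkey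
    set Kset : Finset (Option (V × ℕ)) := Finset.insertNone (A ×ˢ Finset.Icc 1 A.card) with hKset
    have hKc : Kset.card = A.card ^ 2 + 1 := by
      rw [hKset, Finset.card_insertNone, card_product, Nat.card_Icc]
      simp [pow_two]
    have hmaps : ∀ a ∈ F0, key a ∈ Kset := by
      intro a _
      rw [hkey]
      by_cases h : (AT a).Nonempty
      · simp only [dif_pos h]
        rw [hKset, Finset.some_mem_insertNone, mem_product, mem_Icc]
        refine ⟨(mem_filter.1 h.choose_spec).1, card_pos.2 h, card_le_card (filter_subset _ _)⟩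
      · simp only [dif_neg h]
        rw [hKset]
        exact Finset.none_mem_insertNone
    obtain ⟨κ, _, hκ⟩ := Finset.exists_lt_card_fiber_of_mul_lt_card_of_maps_to
      (n := 2 * s * s) hmaps (by rw [hKc]; exact hF0c)
    set F1 := F0.filter (fun a => key a = κ) with hF1
    have hF1F0 : ∀ a ∈ F1, a ∈ F0 := fun a ha => (mem_filter.1 ha).1
    have hF1k : ∀ a ∈ F1, key a = κ := fun a ha => (mem_filter.1 ha).2
    have hkey_none : ∀ a, key a = none → AT a = ∅ := by
      intro a h
      rw [hkey] at h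
      by_contra hne
      have hne' : (AT a).Nonempty := nonempty_iff_ne_empty.2 hne
      simp only [dif_pos hne'] at h
      exact absurd h (by simp)
    have hkey_some : ∀ a t n, key a = some (t, n) → t ∈ AT a ∧ (AT a).card = n := by
      intro a t n h
      rw [hkey] at h
      by_cases hne : (AT a).Nonempty
      · simp only [dif_pos hne, Option.some.injEq, Prod.mk.injEq] at h
        exact ⟨h.1 ▸ hne.choose_spec, h.2⟩
      · simp only [dif_neg hne] at h
        exact absurd h (by simp)
    set lt : ℕ → ℕ → Prop := fun b a => a ∈ F0 ∧ b ∈ F0 ∧ N b ∪ T b ⊆ T a with hlt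
    have hirr : ∀ a, ¬ lt a a := by
      rintro a ⟨ha, _, h⟩
      have h1 : x a ∈ T a := h (Or.inl (hx a ha))
      exact Set.disjoint_left.1 (hNT a) (hx a ha) h1
    have htr : ∀ a b c, lt a b → lt b c → lt a c := by
      rintro a b c ⟨hb, ha, h1⟩ ⟨hc, _, h2⟩
      exact ⟨hc, ha, h1.trans (Set.subset_union_right.trans h2)⟩
    rcases chain_or_antichain lt hirr htr s (by omega) (2 * s) F1 hκ.le with
      ⟨f, hf1, hf2⟩ | ⟨G, hG1, hG2, hG3⟩
    · -- chain
      have hf0 : ∀ i < 2 * s, f i ∈ F0 := fun i hi => hF1F0 _ (hf1 i hi)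
      have hATeq : ∀ i j, i < j → j < 2 * s → AT (f j) = AT (f i) := by
        intro i j hij hj
        have hi : i < 2 * s := hij.trans hj
        have hsub : AT (f j) ⊆ AT (f i) := by
          intro t ht
          rw [hAT, mem_filter] at ht ⊢
          exact ⟨ht.1, (hf2 i j hij hj).2.2 (Or.inr ht.2)⟩
        have k1 := hF1k _ (hf1 i hi)
        have k2 := hF1k _ (hf1 j hj)
        rcases κ with _ | ⟨t, n⟩
        · rw [hkey_none _ k1, hkey_none _ k2]
        · have c1 := (hkey_some _ _ _ k1).2
          have c2 := (hkey_some _ _ _ k2).2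
          exact eq_of_subset_of_card_le hsub (by rw [c1, c2])
      have hpiece : ∀ i < s,
          (E.filter (fun e => Cross (N (f (2 * i)) ∪ (Cp E (N (f (2 * i))) (w (f (2 * i))) \
            T (f (2 * i + 1)))) e)).card ≤ ρ + ρ ∧
          (∀ u ∈ N (f (2 * i)) ∪ (Cp E (N (f (2 * i))) (w (f (2 * i))) \ T (f (2 * i + 1))),
            ∀ v ∈ N (f (2 * i)) ∪ (Cp E (N (f (2 * i))) (w (f (2 * i))) \ T (f (2 * i + 1))),
            Jin E (N (f (2 * i)) ∪ (Cp E (N (f (2 * i))) (w (f (2 * i))) \
              T (f (2 * i + 1)))) u v) ∧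
          ∃ C ∈ Zf E, C.Nonempty ∧ ∀ e ∈ C, ∀ y ∈ e,
            y ∈ N (f (2 * i)) ∪ (Cp E (N (f (2 * i))) (w (f (2 * i))) \ T (f (2 * i + 1))) := by
        intro i hi
        have h0 := hf0 (2 * i) (by omega)
        have h1 := hf0 (2 * i + 1) (by omega)
        refine piece hNL hbr (N' := N (f (2 * i + 1))) (T' := T (f (2 * i + 1)))
          (hconn _ (hF0q _ h0)) (hconn _ (hF0q _ h1)) (hx _ h0) (hxw _ h0) (hw _ h0)
          (hf2 (2 * i) (2 * i + 1) (by omega) (by omega)).2.2 (hNT _) ?_
          (hcr _ (hF0q _ h0)) (hcr _ (hF0q _ h1))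
        intro u v huv hu
        by_cases hv : v ∈ N (f (2 * i + 1))
        · exact Or.inr hv
        · left
          have huv' : u ≠ v := fun h => hNL _ huv (by simpa using h)
          exact ⟨hv, hu.2.trans (Jin.edge huv huv' hu.1 hv)⟩
      have hDQ : ∀ i, N (f (2 * i)) ∪ (Cp E (N (f (2 * i))) (w (f (2 * i))) \ T (f (2 * i + 1))) ⊆
          N (f (2 * i)) ∪ T (f (2 * i)) := by
        intro i z hz
        rcases hz with hz | hz
        · exact Or.inl hz
        · exact Or.inr hz.1
      have hdisj : ∀ i j, i < j → j < s →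
          Disjoint (N (f (2 * i)) ∪ (Cp E (N (f (2 * i))) (w (f (2 * i))) \ T (f (2 * i + 1))))
          (N (f (2 * j)) ∪ (Cp E (N (f (2 * j))) (w (f (2 * j))) \ T (f (2 * j + 1)))) := by
        intro i j hij hj
        have h1 := (hf2 (2 * i + 1) (2 * j) (by omega) (by omega)).2.2
        have h2 := (hf2 (2 * i) (2 * i + 1) (by omega) (by omega)).2.2
        rw [Set.disjoint_left]
        intro z hz1 hz2
        have hz3 : z ∈ T (f (2 * i + 1)) := h1 (hDQ j hz2)
        rcases hz1 with hz1 | hz1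
        · exact Set.disjoint_left.1 (hNT (f (2 * i))) hz1 (h2 (Or.inr hz3))
        · exact hz1.2 hz3
      refine ⟨fun i => N (f (2 * i)) ∪ (Cp E (N (f (2 * i))) (w (f (2 * i))) \
        T (f (2 * i + 1))), ?_, ?_, ?_, ?_, ?_⟩
      · intro i hi j hj hij
        rcases lt_or_gt_of_ne hij with h | h
        · exact hdisj i j h hj
        · exact (hdisj j i h hi).symm
      · intro i hi y hy hyD
        have hyA : y ∈ A := mem_coe.1 hy
        rcases hyD with h | h
        · exact hA _ (hF0q _ (hf0 (2 * i) (by omega))) y hyA h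
        · have h1 : y ∈ AT (f (2 * i)) := mem_filter.2 ⟨hyA, h.1⟩
          rw [← hATeq (2 * i) (2 * i + 1) (by omega) (by omega)] at h1
          exact h.2 (mem_filter.1 h1).2
      · intro i hi
        have := (hpiece i hi).1
        rw [two_mul]
        exact this
      · intro i hi
        exact (hpiece i hi).2.1
      · intro i hi
        exact (hpiece i hi).2.2
    · -- antichain
      have hGd : ∀ a ∈ G, ∀ b ∈ G, a ≠ b → Disjoint (N a ∪ T a) (N b ∪ T b) := by
        intro a ha b hb hab
        have ha0 := hF1F0 a (hG1 ha)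
        have hb0 := hF1F0 b (hG1 hb)
        rcases htri a ha0 b hb0 hab with h | h | h
        · exact h
        · exact absurd ⟨ha0, hb0, h⟩ (hG3 b hb a ha (Ne.symm hab))
        · exact absurd ⟨hb0, ha0, h⟩ (hG3 a ha b hb hab)
      have hκn : κ = none := by
        rcases κ with _ | ⟨t, n⟩
        · rfl
        · exfalso
          obtain ⟨a, ha, b, hb, hab⟩ := Finset.one_lt_card.1 (lt_of_lt_of_le (by omega) hG2)
          have h1 := (hkey_some _ _ _ (hF1k a (hG1 ha))).1
          have h2 := (hkey_some _ _ _ (hF1k b (hG1 hb))).1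
          exact Set.disjoint_left.1 (hGd a ha b hb hab) (Or.inr (mem_filter.1 h1).2)
            (Or.inr (mem_filter.1 h2).2)
      have hTA : ∀ a ∈ G, ∀ t ∈ A, t ∉ T a := by
        intro a ha t ht htT
        have h1 := hkey_none a ((hF1k a (hG1 ha)).trans hκn)
        have h2 : t ∈ AT a := mem_filter.2 ⟨ht, htT⟩
        rw [h1] at h2
        exact absurd h2 (notMem_empty _)
      obtain ⟨g, hg1, hg2⟩ := enum_aux G s (by omega) hG2
      have hpiece : ∀ i < s,
          (E.filter (fun e => Cross (N (g i) ∪ (Cp E (N (g i)) (w (g i)) \ ∅)) e)).card ≤ ρ + 0 ∧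
          (∀ u ∈ N (g i) ∪ (Cp E (N (g i)) (w (g i)) \ ∅),
            ∀ v ∈ N (g i) ∪ (Cp E (N (g i)) (w (g i)) \ ∅),
            Jin E (N (g i) ∪ (Cp E (N (g i)) (w (g i)) \ ∅)) u v) ∧
          ∃ C ∈ Zf E, C.Nonempty ∧ ∀ e ∈ C, ∀ y ∈ e,
            y ∈ N (g i) ∪ (Cp E (N (g i)) (w (g i)) \ ∅) := by
        intro i hi
        have h0 := hF1F0 _ (hG1 (hg1 i hi))
        refine piece hNL hbr (N' := (∅ : Set V)) (T' := (∅ : Set V))
          (hconn _ (hF0q _ h0)) ?_ (hx _ h0) (hxw _ h0) (hw _ h0) ?_ ?_ ?_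
          (hcr _ (hF0q _ h0)) ?_
        · intro u hu
          exact absurd hu (Set.notMem_empty u)
        · rw [Set.union_empty]
          exact Set.empty_subset _
        · exact Set.disjoint_empty _
        · intro u v _ hu
          exact absurd hu (Set.notMem_empty u)
        · have : E.filter (fun e => Cross (∅ : Set V) e) = ∅ := by
            rw [filter_eq_empty_iff]
            intro e _ hc
            exact hc.2 fun y _ => Set.notMem_empty y
          rw [this]
          simp
      have hDQ : ∀ i, N (g i) ∪ (Cp E (N (g i)) (w (g i)) \ ∅) ⊆ N (g i) ∪ T (g i) := by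
        intro i z hz
        rcases hz with hz | hz
        · exact Or.inl hz
        · exact Or.inr hz.1
      refine ⟨fun i => N (g i) ∪ (Cp E (N (g i)) (w (g i)) \ ∅), ?_, ?_, ?_, ?_, ?_⟩
      · intro i hi j hj hij
        have hne : g i ≠ g j := fun h => hij (hg2 i hi j hj h)
        exact (hGd _ (hg1 i hi) _ (hg1 j hj) hne).mono (hDQ i) (hDQ j)
      · intro i hi y hy hyD
        have hyA : y ∈ A := mem_coe.1 hy
        rcases hyD with h | h
        · exact hA _ (hF0q _ (hF1F0 _ (hG1 (hg1 i hi)))) y hyA h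
        · exact hTA _ (hg1 i hi) y hyA h.1
      · intro i hi
        have := (hpiece i hi).1
        show (E.filter (fun e => Cross (N (g i) ∪ (Cp E (N (g i)) (w (g i)) \ ∅)) e)).card ≤ 2 * ρ
        omega
      · intro i hi
        exact (hpiece i hi).2.1
      · intro i hi
        exact (hpiece i hi).2.2

end Jia
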