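import Pool.Agent.Helper826.Jia.W1

set_option autoImplicit false

namespace Jia
open Finset Filter

theorem sq_pos_le_P2b (n : ℕ) : 0 < sq n ∧ sq n ≤ 1 := by
  induction n with
  | zero => simp [sq]
  | succ n ih =>
    obtain ⟨h0, h1⟩ := ih
    unfold sq
    constructor
    · nlinarith
    · nlinarith [sq_nonneg (sq n)]

theorem sq_le_inv (n : ℕ) : sq n ≤ 2 / ((n : ℝ) + 2) := by
  induction n with
  | zero => simp [sq]
  | succ n ih =>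
    obtain ⟨h0, h1⟩ := sq_pos_le_P2b n
    have hs : sq (n + 1) = sq n - (sq n) ^ 2 / 2 := rfl
    rw [hs]
    obtain ⟨m, hm⟩ : ∃ m : ℝ, m = (n : ℝ) + 2 := ⟨_, rfl⟩
    have hm2 : 2 ≤ m := by
      rw [hm]
      have : (0 : ℝ) ≤ n := Nat.cast_nonneg n
      linarith
    have hm0 : 0 < m := by linarith
    rw [← hm] at ih
    push_cast
    have e1 : (n : ℝ) + 1 + 2 = m + 1 := by rw [hm]; ring
    rw [e1]
    obtain ⟨y, hy⟩ : ∃ y : ℝ, y = 2 / m := ⟨_, rfl⟩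
    rw [← hy] at ih
    have hy1 : y ≤ 1 := by rw [hy, div_le_one hm0]; exact hm2
    have h2 : sq n - (sq n) ^ 2 / 2 ≤ y - y ^ 2 / 2 := by
      nlinarith [mul_nonneg (sub_nonneg.2 ih) (by linarith : 0 ≤ 2 - (sq n + y))]
    refine h2.trans ?_
    have h3 : y - y ^ 2 / 2 = (2 * m - 2) / m ^ 2 := by
      rw [hy]
      field_simp
    rw [h3, div_le_div_iff₀ (by positivity) (by linarith)]
    nlinarith

theorem Bq_le (D h : ℕ) : 1 + Bq D h ≤ (D + 1) ^ h := by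
  induction h with
  | zero => simp [Bq]
  | succ h ih =>
    have h1 : Bq D (h + 1) = D * (1 + Bq D h) := rfl
    rw [h1, pow_succ]
    have h2 : 1 ≤ (D + 1) ^ h := Nat.one_le_pow _ _ (by omega)
    have h3 : D * (1 + Bq D h) ≤ D * (D + 1) ^ h := Nat.mul_le_mul_left D ih
    nlinarith

/-- explicit depths -/
theorem depths' (D r : ℕ) :
    sq (2 ^ (r + 2)) + (D : ℝ) * (1 + Bq D (2 ^ (r + 2))) * sq (2 ^ (r + 2) * (D + 1) ^ (2 ^ (r + 2) + 1)) ≤ 1 / 2 ^ r := by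
  obtain ⟨h, hh⟩ : ∃ h : ℕ, h = 2 ^ (r + 2) := ⟨_, rfl⟩
  rw [← hh]
  obtain ⟨Q, hQ⟩ : ∃ Q : ℝ, Q = ((D : ℝ) + 1) ^ (h + 1) := ⟨_, rfl⟩
  have hQ0 : 0 < Q := by rw [hQ]; positivity
  have hp : (0 : ℝ) < 2 ^ r := by positivity
  have hh' : (h : ℝ) = 4 * 2 ^ r := by
    rw [hh]; push_cast; ring
  have h1 : sq h ≤ 1 / (2 * 2 ^ r) := by
    refine (sq_le_inv h).trans ?_
    rw [div_le_div_iff₀ (by positivity) (by positivity), hh']
    linarith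
  have h2 : sq (h * (D + 1) ^ (h + 1)) ≤ 1 / (2 * 2 ^ r * Q) := by
    refine (sq_le_inv _).trans ?_
    push_cast
    rw [← hQ, hh', div_le_div_iff₀ (by positivity) (by positivity)]
    linarith
  have h3 : (D : ℝ) * (1 + Bq D h) ≤ Q := by
    have h4 : ((1 + Bq D h : ℕ) : ℝ) ≤ (((D + 1) ^ h : ℕ) : ℝ) := by exact_mod_cast Bq_le D h
    push_cast at h4
    have h5 : (0 : ℝ) ≤ D := Nat.cast_nonneg D
    have h6 : (0 : ℝ) ≤ ((D : ℝ) + 1) ^ h := by positivity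
    rw [hQ, pow_succ]
    calc (D : ℝ) * (1 + Bq D h) ≤ D * ((D : ℝ) + 1) ^ h := mul_le_mul_of_nonneg_left h4 h5
      _ ≤ ((D : ℝ) + 1) ^ h * (D + 1) := by nlinarith
  have h7 : (D : ℝ) * (1 + Bq D h) * sq (h * (D + 1) ^ (h + 1)) ≤ Q * (1 / (2 * 2 ^ r * Q)) :=
    mul_le_mul h3 h2 (sq_pos_le_P2b _).1.le hQ0.le
  have h8 : Q * (1 / (2 * 2 ^ r * Q)) = 1 / (2 * 2 ^ r) := by
    field_simp
  have h9 : (1 : ℝ) / (2 * 2 ^ r) + 1 / (2 * 2 ^ r) = 1 / 2 ^ r := by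
    field_simp
    norm_num
  linarith

end Jia
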