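import Pool.Agent.Helper826.Bondy.Pd
import Pool.Agent.Helper826.Bondy.K1
import Pool.Agent.Helper826.Bondy.C5b
import Pool.Agent.Helper826.Bondy.G4b
import Pool.Agent.Helper826.Bondy.E0b
import Pool.Agent.Helper826.Bondy.E1b
import Pool.Agent.Helper826.Bondy.E2b
import Pool.Agent.Helper826.Bondy.E3b
import Pool.Agent.Helper826.Bondy.F3b
import Pool.Agent.Helper826.Bondy.DG2
import Pool.Agent.Helper826.Bondy.P2b

set_option autoImplicit false

namespace Jia
open Finset
open scoped symmDiff

theorem ThinFam.mono_rho {E : Finset (Sym2 ℕ)} {A : Set ℕ} {ρ ρ' s : ℕ} (h : ThinFam E A ρ s)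
    (hρ : ρ ≤ ρ') : ThinFam E A ρ' s := by
  obtain ⟨D, h1, h2, h3, h4, h5⟩ := h
  exact ⟨D, h1, h2, fun i hi => (h3 i hi).trans hρ, h4, h5⟩

theorem exists_reindex (S : Finset ℕ) (k : ℕ) (hk : k ≤ S.card) :
    ∃ f : ℕ → ℕ, (∀ i < k, f i ∈ S) ∧ ∀ i < k, ∀ j < k, i ≠ j → f i ≠ f j := by
  refine ⟨fun i => if h : i < S.card then (S.equivFin.symm ⟨i, h⟩ : ℕ) else 0, ?_, ?_⟩
  · intro i hi
    have h : i < S.card := lt_of_lt_of_le hi hk
    simp only [dif_pos h]
    exact (S.equivFin.symm ⟨i, h⟩).2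
  · intro i hi j hj hij heq
    have h1 : i < S.card := lt_of_lt_of_le hi hk
    have h2 : j < S.card := lt_of_lt_of_le hj hk
    simp only [dif_pos h1, dif_pos h2] at heq
    have h3 := S.equivFin.symm.injective (Subtype.ext heq)
    exact hij (by simpa using h3)

theorem exists_nb {E : Finset (Sym2 ℕ)} {D : ℕ} (hNL : NL E)
    (hE : ∀ e ∈ E, ∃ C ∈ Cf E, e ∈ C) (hdeg : ∀ x, dg E x ≤ D) :
    ∃ nb : ℕ → Finset ℕ, FG E D nb := by
  set nb : ℕ → Finset ℕ := fun x => (E.biUnion (fun e => e.toFinset)).filter (fun y => s(x, y) ∈ E)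
    with hnb
  have hmem : ∀ x y, y ∈ nb x ↔ s(x, y) ∈ E := by
    intro x y
    simp only [hnb, mem_filter, mem_biUnion, Sym2.mem_toFinset]
    constructor
    · exact fun h => h.2
    · exact fun h => ⟨⟨_, h, Sym2.mem_mk_right x y⟩, h⟩
  have hcard : ∀ x, (nb x).card = dg E x := by
    intro x
    have hinj : Function.Injective (fun y : ℕ => s(x, y)) := fun y z h => Sym2.congr_right.1 h
    rw [← card_image_of_injective (nb x) hinj]
    unfold dg
    congr 1
    ext e
    simp only [mem_image, mem_filter]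
    constructor
    · rintro ⟨y, hy, rfl⟩
      exact ⟨(hmem x y).1 hy, Sym2.mem_mk_left x y⟩
    · rintro ⟨he, hx⟩
      obtain ⟨y, rfl⟩ := hx
      exact ⟨y, (hmem x y).2 he, rfl⟩
  refine ⟨nb, hmem, hNL, fun x => (hcard x).trans_le (hdeg x), ?_⟩
  rintro x ⟨y, hy⟩
  obtain ⟨C, hC, heC⟩ := hE _ ((hmem x y).1 hy)
  rw [mem_Cf] at hC
  have hev := (cyc_ev hC.2).1 x
  have hpos : 0 < dg C x := by
    unfold dg
    exact card_pos.2 ⟨s(x, y), mem_filter.2 ⟨heC, Sym2.mem_mk_left x y⟩⟩
  have h2 : 2 ≤ dg C x := by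
    obtain ⟨t, ht⟩ := hev
    omega
  have hle : dg C x ≤ dg E x := by
    unfold dg
    exact card_le_card (filter_subset_filter _ hC.1)
  rw [hcard]
  omega

/-- the window lemma: if the cycle space of `E` modulo that of `K` is large then the number of
cycle lengths in `E` is at most about half of the trivial bound -/
theorem window_step {E K : Finset (Sym2 ℕ)} (hKE : K ⊆ E) (hNL : NL E)
    (hE : ∀ e ∈ E, ∃ C ∈ Cf E, e ∈ C) (hK : ∀ e ∈ K, ∃ C ∈ Cf K, e ∈ C) (a p : ℕ)
    (hσ : (Zf K).card ≤ 2 ^ a * (K.card + 1))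
    (hm : 2 ^ pm a p (2 * K.card) * (Zf K).card ≤ (Zf E).card) :
    (ns E : ℝ) * (Zf K).card ≤ (1 / 2 + 1 / 2 ^ p) * ((K.card : ℝ) + 1) * (Zf E).card := by
  classical
  have hZK : 0 < (Zf K).card := Zf_card_pos K
  have hZE : 0 < (Zf E).card := Zf_card_pos E
  have hKc : (0 : ℝ) ≤ (K.card : ℝ) + 1 := by positivity
  have hσR : ((Zf K).card : ℝ) ≤ 2 ^ a * ((K.card : ℝ) + 1) := by exact_mod_cast hσ
  have hevC : ∀ {F C : Finset (Sym2 ℕ)}, C ∈ Cf F → C ∈ Zf F := by
    intro F C hC
    rw [mem_Cf] at hC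
    exact mem_Zf.2 ⟨hC.1, (cyc_ev hC.2).1⟩
  by_cases hcase1 : 2 ^ (a + 1) * (Cf E).card < (Zf E).card
  · -- few cycles
    have h1 : ns E ≤ (Cf E).card := card_image_le
    have h1R : (ns E : ℝ) ≤ (Cf E).card := by exact_mod_cast h1
    have h2R : (2 : ℝ) ^ (a + 1) * (Cf E).card ≤ (Zf E).card := by exact_mod_cast hcase1.le
    have h3 : (ns E : ℝ) * (Zf K).card ≤ (Cf E).card * (2 ^ a * ((K.card : ℝ) + 1)) := by gcongr
    have h4 : ((Cf E).card : ℝ) * (2 ^ a * ((K.card : ℝ) + 1)) =
        (2 ^ (a + 1) * (Cf E).card) * ((K.card : ℝ) + 1) / 2 := by ring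
    have h5 : ((2 : ℝ) ^ (a + 1) * (Cf E).card) * ((K.card : ℝ) + 1) / 2 ≤
        (Zf E).card * ((K.card : ℝ) + 1) / 2 := by gcongr
    have h6 : 0 ≤ (1 / 2 ^ p : ℝ) * (((K.card : ℝ) + 1) * (Zf E).card) := by positivity
    calc (ns E : ℝ) * (Zf K).card ≤ (Zf E).card * ((K.card : ℝ) + 1) / 2 := by
          rw [h4] at h3
          exact h3.trans h5
      _ ≤ (1 / 2 + 1 / 2 ^ p) * ((K.card : ℝ) + 1) * (Zf E).card := by
          have h7 : (1 / 2 + 1 / 2 ^ p) * ((K.card : ℝ) + 1) * (Zf E).card =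
            (Zf E).card * ((K.card : ℝ) + 1) / 2 +
              (1 / 2 ^ p : ℝ) * (((K.card : ℝ) + 1) * (Zf E).card) := by ring
          rw [h7]
          linarith
  · rw [not_lt] at hcase1
    have hdeg : ∀ x, dg E x ≤ pD a := by
      intro x
      have h1 := deg_bound' hNL hE (a + 1) hcase1 x
      unfold pD
      omega
    obtain ⟨nb, hF⟩ := exists_nb hNL hE hdeg
    -- vertices of K
    set A : Finset ℕ := K.biUnion (fun e => e.toFinset) with hA
    have hAset : {x : ℕ | ∃ e ∈ K, x ∈ e} = (↑A : Set ℕ) := by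
      ext x
      simp only [hA, Set.mem_setOf_eq, coe_biUnion, mem_coe, Set.mem_iUnion, Sym2.mem_toFinset,
        exists_prop]
    have hAcard : A.card ≤ 2 * K.card := by
      refine card_biUnion_le.trans ?_
      have h1 : ∀ e ∈ K, (Sym2.toFinset e).card ≤ 2 := by
        intro e _
        induction e using Sym2.ind with
        | _ x y =>
          rw [Sym2.toFinset_mk_eq]
          exact card_le_two
      refine (sum_le_card_nsmul _ _ 2 h1).trans ?_
      rw [smul_eq_mul, mul_comm]
    have hKb : ∀ e ∈ K, ∃ C ∈ Zf K, e ∈ C := by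
      intro e he
      obtain ⟨C, hC, heC⟩ := hK e he
      exact ⟨C, hevC hC, heC⟩
    have hEb : ∀ e ∈ E, ∃ C ∈ Zf E, e ∈ C := by
      intro e he
      obtain ⟨C, hC, heC⟩ := hE e he
      exact ⟨C, hevC hC, heC⟩
    set D : ℕ := pD a with hD
    set M : ℕ := 2 * K.card with hM
    set r : ℕ := a + p with hr
    have hD1 : 1 ≤ D := by rw [hD]; unfold pD; omega
    have hfin : ThinFam E {x | ∃ e ∈ K, x ∈ e} (pr D r) (ps D r p) →
        (ns E : ℝ) * (Zf K).card ≤ (1 / 2 + 1 / 2 ^ p) * ((K.card : ℝ) + 1) * (Zf E).card :=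
      fun hT => thin_crit hNL hKE (pr D r) p hT
    rcases many_branch hF hKE hKb (m := pm a p M) (s := ps D r p) (B := pB D r p M)
      (le_of_eq rfl) hm with hT | ⟨F, hFc, hFb⟩
    · exact hfin (hT.mono_rho (Nat.zero_le _))
    · -- many branch vertices
      set l : ℕ := pl D r with hl
      set q : ℕ := pq D r p M with hq
      set s : ℕ := ps D r p with hs
      have hball := ball_count hF.symm hF.irr hF.card hF.two
      have hcardF : (A.card + q) * (D + 2) ^ (2 * l + 2) < F.card := by
        refine lt_of_le_of_lt ?_ hFc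
        show (A.card + q) * (D + 2) ^ (2 * l + 2) ≤ (M + q) * (D + 2) ^ (2 * l + 2)
        gcongr
      obtain ⟨c, hc1, hc2, hc3⟩ := select hball A l q F hFb hcardF
      have hlhn : ph r + pn D r + 1 = l := rfl
      have hcell : ∀ i, ∃ L : Set ℕ, i < q → (∀ y ∈ L, Rw nb l (c i) y) ∧
          (((E.filter (fun e => Cross L e)).card ≤ D * (D ^ l + 1) ∧
            (∀ u ∈ L, ∀ v ∈ L, Jin E L u v) ∧
            ∃ C ∈ Zf E, C.Nonempty ∧ ∀ e ∈ C, ∀ x ∈ e, x ∈ L) ∨
          (∃ o, o ∈ L ∧ c i ∈ L ∧ s(o, c i) ∈ E ∧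
            (((Cf E).filter (fun C => s(o, c i) ∈ C)).card : ℝ) ≤
              (sq (ph r) + (D : ℝ) * (1 + Bq D (ph r)) * sq (pn D r)) * (Zf E).card) ∨
          (∃ N ⊆ L, (E.filter (fun e => Cross N e)).card ≤ D ^ l + 1 ∧
            (∀ u ∈ N, ∀ v ∈ N, Jin E N u v) ∧
            ∃ u v, u ∉ N ∧ v ∉ N ∧ (∃ x ∈ N, s(x, u) ∈ E) ∧ (∃ x ∈ N, s(x, v) ∈ E) ∧
              ¬ Jin E Nᶜ u v)) := by
        intro i
        by_cases hi : i < q
        · obtain ⟨L, hL1, hL2⟩ := cell hF (ph r) (pn D r) (hFb _ (hc1 i hi))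
          exact ⟨L, fun _ => ⟨hL1, hL2⟩⟩
        · exact ⟨∅, fun h => absurd h hi⟩
      choose L hL using hcell
      have hLA : ∀ i < q, ∀ x ∈ A, x ∉ L i := by
        intro i hi x hx hxL
        exact hc2 i hi x hx (((hL i hi).1 x hxL).symm hF.symm)
      have hLd' : ∀ i j, i < j → j < q → Disjoint (L i) (L j) := by
        intro i j hij hj
        rw [Set.disjoint_left]
        intro y hy1 hy2
        apply hc3 i j hij hj
        have h1 := (hL i (hij.trans hj)).1 y hy1
        have h2 := ((hL j hj).1 y hy2).symm hF.symm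
        have h3 := h1.trans h2
        have h4 : l + (l + 1) = 2 * l + 1 := by ring
        rwa [h4] at h3
      have hLd : ∀ i < q, ∀ j < q, i ≠ j → Disjoint (L i) (L j) := by
        intro i hi j hj hij
        rcases lt_or_gt_of_ne hij with h | h
        · exact hLd' i j h hj
        · exact (hLd' j i h hi).symm
      -- second kind
      by_cases hk2 : ∃ i < q, ∃ o, o ∈ L i ∧ c i ∈ L i ∧ s(o, c i) ∈ E ∧
            (((Cf E).filter (fun C => s(o, c i) ∈ C)).card : ℝ) ≤
              (sq (ph r) + (D : ℝ) * (1 + Bq D (ph r)) * sq (pn D r)) * (Zf E).card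
      · obtain ⟨i, hi, o, ho, hci, hoE, hle⟩ := hk2
        have heK : s(o, c i) ∉ K := by
          intro heK
          refine hLA i hi (c i) ?_ hci
          rw [hA, mem_biUnion]
          exact ⟨_, heK, by rw [Sym2.mem_toFinset]; exact Sym2.mem_mk_right _ _⟩
        have hη : (((Cf E).filter (fun C => s(o, c i) ∈ C)).card : ℝ) ≤
            (1 / 2 ^ r) * (Zf E).card := by
          refine hle.trans ?_
          have := depths' D r
          gcongr
          exact this
        have h1 := thick_crit hKE heK (hEb _ hoE) hη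
        refine h1.trans ?_
        have h2 : (1 / 2 ^ r : ℝ) * (Zf K).card ≤ 1 / 2 ^ p * ((K.card : ℝ) + 1) := by
          calc (1 / 2 ^ r : ℝ) * (Zf K).card ≤ (1 / 2 ^ r) * (2 ^ a * ((K.card : ℝ) + 1)) := by
                gcongr
            _ = 1 / 2 ^ p * ((K.card : ℝ) + 1) := by
                rw [hr, pow_add]; field_simp
        have h3 : (1 / 2 ^ r : ℝ) * (Zf K).card + ((K.card : ℝ) + 1) / 2 ≤
            (1 / 2 + 1 / 2 ^ p) * ((K.card : ℝ) + 1) := by
          have h4 : (1 / 2 + 1 / 2 ^ p) * ((K.card : ℝ) + 1) =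
            1 / 2 ^ p * ((K.card : ℝ) + 1) + ((K.card : ℝ) + 1) / 2 := by ring
          rw [h4]
          linarith
        gcongr
      · push Not at hk2
        -- first kind / third kind
        set K1 : ℕ → Prop := fun i => (E.filter (fun e => Cross (L i) e)).card ≤ D * (D ^ l + 1) ∧
            (∀ u ∈ L i, ∀ v ∈ L i, Jin E (L i) u v) ∧
            ∃ C ∈ Zf E, C.Nonempty ∧ ∀ e ∈ C, ∀ x ∈ e, x ∈ L i with hK1
        set K3 : ℕ → Prop := fun i => ∃ N ⊆ L i, (E.filter (fun e => Cross N e)).card ≤ D ^ l + 1 ∧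
            (∀ u ∈ N, ∀ v ∈ N, Jin E N u v) ∧
            ∃ u v, u ∉ N ∧ v ∉ N ∧ (∃ x ∈ N, s(x, u) ∈ E) ∧ (∃ x ∈ N, s(x, v) ∈ E) ∧
              ¬ Jin E Nᶜ u v with hK3
        have h13 : ∀ i < q, K1 i ∨ K3 i := by
          intro i hi
          rcases (hL i hi).2 with h | ⟨o, h1, h2, h3, h4⟩ | h
          · exact Or.inl h
          · exact absurd h4 (not_le.2 (hk2 i hi o h1 h2 h3))
          · exact Or.inr h
        by_cases hcount : s ≤ ((range q).filter K1).card
        · -- many of the first kind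
          obtain ⟨f, hf1, hf2⟩ := exists_reindex _ s hcount
          have hfq : ∀ i < s, f i < q ∧ K1 (f i) := by
            intro i hi
            have := hf1 i hi
            rw [mem_filter, mem_range] at this
            exact this
          refine hfin ⟨fun i => L (f i), ?_, ?_, ?_, ?_, ?_⟩
          · intro i hi j hj hij
            exact hLd _ (hfq i hi).1 _ (hfq j hj).1 (hf2 i hi j hj hij)
          · intro i hi x hx
            rw [hAset] at hx
            exact hLA _ (hfq i hi).1 x hx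
          · intro i hi
            refine ((hfq i hi).2.1).trans ?_
            show D * (D ^ l + 1) ≤ 2 * (D * (D ^ l + 1) + 1)
            omega
          · intro i hi
            exact (hfq i hi).2.2.1
          · intro i hi
            exact (hfq i hi).2.2.2
        · -- many of the third kind
          rw [not_le] at hcount
          have hsum : q ≤ ((range q).filter K1).card + ((range q).filter K3).card := by
            have h1 : range q ⊆ (range q).filter K1 ∪ (range q).filter K3 := by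
              intro i hi
              rw [mem_union, mem_filter, mem_filter]
              rcases h13 i (mem_range.1 hi) with h | h
              · exact Or.inl ⟨hi, h⟩
              · exact Or.inr ⟨hi, h⟩
            have h2 := (card_le_card h1).trans (card_union_le _ _)
            rwa [card_range] at h2
          have hqdef : q = s + (s + M + (M ^ 2 + 1) * (2 * s * s) + 1) := rfl
          set q' : ℕ := (s + A.card) + (A.card ^ 2 + 1) * (2 * s * s) + 1 with hq'
          have hq'le : q' ≤ ((range q).filter K3).card := by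
            have h1 : q' ≤ s + M + (M ^ 2 + 1) * (2 * s * s) + 1 := by
              rw [hq']
              have h2 : A.card ^ 2 ≤ M ^ 2 := Nat.pow_le_pow_left hAcard 2
              have h3 : (A.card ^ 2 + 1) * (2 * s * s) ≤ (M ^ 2 + 1) * (2 * s * s) :=
                Nat.mul_le_mul_right _ (by omega)
              omega
            omega
          obtain ⟨f, hf1, hf2⟩ := exists_reindex _ q' hq'le
          have hfq : ∀ i < q', f i < q ∧ K3 (f i) := by
            intro i hi
            have := hf1 i hi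
            rw [mem_filter, mem_range] at this
            exact this
          have hchoice : ∀ i, ∃ N : Set ℕ, i < q' → N ⊆ L (f i) ∧
              (E.filter (fun e => Cross N e)).card ≤ D ^ l + 1 ∧
              (∀ u ∈ N, ∀ v ∈ N, Jin E N u v) ∧
              ∃ u v, u ∉ N ∧ v ∉ N ∧ (∃ x ∈ N, s(x, u) ∈ E) ∧ (∃ x ∈ N, s(x, v) ∈ E) ∧
              ¬ Jin E Nᶜ u v := by
            intro i
            by_cases hi : i < q'
            · obtain ⟨N, h1, h2, h3, h4⟩ := (hfq i hi).2
              exact ⟨N, fun _ => ⟨h1, h2, h3, h4⟩⟩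
            · exact ⟨∅, fun h => absurd h hi⟩
          choose N hN using hchoice
          have hs2 : 2 ≤ s := by
            show 2 ≤ 2 ^ (2 ^ pr D r + 2 * pr D r + 2 * p + 10)
            calc 2 = 2 ^ 1 := by norm_num
              _ ≤ 2 ^ (2 ^ pr D r + 2 * pr D r + 2 * p + 10) :=
                Nat.pow_le_pow_right (by norm_num) (le_trans (by norm_num) (Nat.le_add_left 10 _))
          have hT := many_thin hNL hEb A (D ^ l + 1) s q' hs2 (le_of_eq rfl) N
            (by
              intro i hi j hj hij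
              exact (hLd _ (hfq i hi).1 _ (hfq j hj).1 (hf2 i hi j hj hij)).mono (hN i hi).1
                (hN j hj).1)
            (by
              intro i hi x hx hxN
              exact hLA _ (hfq i hi).1 x hx ((hN i hi).1 hxN))
            (fun i hi => (hN i hi).2.2.1)
            (fun i hi => (hN i hi).2.1)
            (fun i hi => (hN i hi).2.2.2)
          rw [← hAset] at hT
          refine hfin (hT.mono_rho ?_)
          show 2 * (D ^ l + 1) ≤ 2 * (D * (D ^ l + 1) + 1)
          have h5 : D ^ l + 1 ≤ D * (D ^ l + 1) := Nat.le_mul_of_pos_left _ (by omega)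
          omega

end Jia
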