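import Pool.Agent.Helper826.Bondy.Pd
import Pool.Agent.Helper826.Bondy.Sq
import Pool.Agent.Helper826.Bondy.K1
import Pool.Agent.Helper826.Bondy.P1b
import Pool.Agent.Helper826.Bondy.W1b

set_option autoImplicit false

namespace Jia
open Finset
open scoped symmDiff

section aux

variable {U : ℕ → Finset (Sym2 ℕ)} {J : ℕ}

theorem chain_mono (hU : ∀ j < J, Stq (U j) (U (j + 1))) {j : ℕ} (m : ℕ) (h : j + m ≤ J) :
    U j ⊆ U (j + m) ∧ 2 ^ m * (Zf (U j)).card ≤ (Zf (U (j + m))).card := by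
  induction m with
  | zero => simp
  | succ m ih =>
    have h1 := ih (by omega)
    have h2 := hU (j + m) (by omega)
    refine ⟨h1.1.trans h2.1, ?_⟩
    have h3 := h2.2.2.2.2.2
    calc 2 ^ (m + 1) * (Zf (U j)).card = 2 * (2 ^ m * (Zf (U j)).card) := by ring
      _ ≤ 2 * (Zf (U (j + m))).card := by have := h1.2; omega
      _ ≤ _ := h3

theorem sg_step (hU : ∀ j < J, Stq (U j) (U (j + 1))) {j m : ℕ} (h : j + m < J) {θ : ℝ}
    (hθ : (ns (U (j + m)) : ℝ) * (Zf (U j)).card ≤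
      θ * (((U j).card : ℝ) + 1) * (Zf (U (j + m))).card) :
    sg (U (j + m + 1)) ≤ (sg (U (j + m)) + θ * sg (U j) + 3 * sg (U j) / 2 ^ m) / 2 := by
  have h2 := hU (j + m) h
  have hm := (chain_mono hU m h.le).2
  obtain ⟨-, -, -, -, hb, hw⟩ := h2
  have hz0 : 0 < ((Zf (U j)).card : ℝ) := by exact_mod_cast Zf_card_pos (U j)
  have hw0 : 0 < ((Zf (U (j + m))).card : ℝ) := by exact_mod_cast Zf_card_pos (U (j + m))
  have hm' : (2 : ℝ) ^ m * ((Zf (U j)).card : ℝ) ≤ ((Zf (U (j + m))).card : ℝ) := by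
    exact_mod_cast hm
  have hb' : (((U (j + m + 1)).card : ℝ)) ≤ ((U (j + m)).card : ℝ) + (ns (U (j + m)) : ℝ) + 3 := by
    exact_mod_cast hb
  have hw' : 2 * ((Zf (U (j + m))).card : ℝ) ≤ ((Zf (U (j + m + 1))).card : ℝ) := by
    exact_mod_cast hw
  have ha0 : (0 : ℝ) ≤ ((U j).card : ℝ) := by positivity
  unfold sg
  have e1 : (((U (j + m + 1)).card : ℝ) + 1) / ((Zf (U (j + m + 1))).card : ℝ) ≤
      (((U (j + m)).card : ℝ) + (ns (U (j + m)) : ℝ) + 3 + 1) / (2 * ((Zf (U (j + m))).card : ℝ)) := by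
    apply div_le_div₀
    · positivity
    · linarith
    · positivity
    · exact hw'
  have e2 : (ns (U (j + m)) : ℝ) / ((Zf (U (j + m))).card : ℝ) ≤
      θ * ((((U j).card : ℝ) + 1) / ((Zf (U j)).card : ℝ)) := by
    rw [← mul_div_assoc, div_le_div_iff₀ hw0 hz0]
    exact hθ
  have e3 : 3 / ((Zf (U (j + m))).card : ℝ) ≤
      3 * ((((U j).card : ℝ) + 1) / ((Zf (U j)).card : ℝ)) / 2 ^ m := by
    rw [← mul_div_assoc, div_div]
    apply div_le_div₀
    · positivity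
    · linarith
    · positivity
    · linarith
  refine e1.trans ?_
  have e4 : (((U (j + m)).card : ℝ) + (ns (U (j + m)) : ℝ) + 3 + 1) / (2 * ((Zf (U (j + m))).card : ℝ))
      = ((((U (j + m)).card : ℝ) + 1) / ((Zf (U (j + m))).card : ℝ)
        + (ns (U (j + m)) : ℝ) / ((Zf (U (j + m))).card : ℝ)
        + 3 / ((Zf (U (j + m))).card : ℝ)) / 2 := by
    field_simp
    ring
  rw [e4]
  linarith

theorem sg_pos (j : ℕ) : 0 < sg (U j) := by
  unfold sg
  have hz0 : 0 < ((Zf (U j)).card : ℝ) := by exact_mod_cast Zf_card_pos (U j)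
  positivity

theorem sg_bound1 (hU : ∀ j < J, Stq (U j) (U (j + 1))) {j : ℕ} (m : ℕ) (h : j + m ≤ J) :
    sg (U (j + m)) ≤ sg (U j) * (1 + 3 * m / 2 ^ m) := by
  induction m with
  | zero => simp
  | succ m ih =>
    have h1 := ih (by omega)
    have h2 := sg_step hU (j := j) (m := m) (by omega) (θ := 1) (by
      have := ns_le (chain_mono hU m (by omega : j + m ≤ J)).1
      have h3 : (ns (U (j + m)) : ℝ) * (Zf (U j)).card ≤
        (Zf (U (j + m))).card * (((U j).card : ℝ) + 1) := by exact_mod_cast this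
      linarith)
    rw [← add_assoc]
    refine h2.trans ?_
    have hp : (0 : ℝ) < 2 ^ m := by positivity
    calc (sg (U (j + m)) + 1 * sg (U j) + 3 * sg (U j) / 2 ^ m) / 2
        ≤ (sg (U j) * (1 + 3 * m / 2 ^ m) + 1 * sg (U j) + 3 * sg (U j) / 2 ^ m) / 2 := by
          linarith
      _ = sg (U j) * (1 + 3 * ((m + 1 : ℕ) : ℝ) / 2 ^ (m + 1)) := by
          push_cast
          rw [pow_succ]
          field_simp
          ring

theorem six_le (t : ℕ) (ht : 5 ≤ t) : 6 * t ≤ 2 ^ t := by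
  induction t, ht using Nat.le_induction with
  | base => norm_num
  | succ t ht ih =>
    rw [pow_succ]
    omega

theorem small_bd {m k : ℕ} (h : 2 * k + 40 ≤ m) : (3 * (m : ℝ) / 2 ^ m : ℝ) ≤ 1 / 2 ^ (k + 6) := by
  obtain ⟨t, rfl⟩ : ∃ t, m = t + (k + 6) := ⟨m - (k + 6), by omega⟩
  have hp1 : (0 : ℝ) < 2 ^ (t + (k + 6)) := by positivity
  have hp2 : (0 : ℝ) < 2 ^ (k + 6) := by positivity
  rw [div_le_div_iff₀ hp1 hp2, pow_add 2 t (k + 6), one_mul]
  have h1 := six_le t (by omega)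
  have h2 : 3 * (t + (k + 6)) ≤ 2 ^ t := by omega
  have h3 : (3 * ((t + (k + 6) : ℕ) : ℝ)) ≤ 2 ^ t := by exact_mod_cast h2
  exact mul_le_mul_of_nonneg_right h3 hp2.le

theorem le_tw_A2b (i x : ℕ) : x ≤ tw i x := by
  induction i with
  | zero => exact le_rfl
  | succ i ih =>
    show x ≤ 2 ^ tw i x
    exact ih.trans (Nat.lt_two_pow_self).le

theorem card_bd (h0 : U 0 = ∅) (hU : ∀ j < J, Stq (U j) (U (j + 1))) (j : ℕ) (h : j ≤ J) :
    (U j).card + 3 ≤ 3 * 2 ^ j := by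
  induction j with
  | zero => simp [h0]
  | succ j ih =>
    have h1 := ih (by omega)
    have h2 := (hU j (by omega)).2.2.2.1
    rw [pow_succ]
    omega

end aux

/-- growth of the chain without using windows -/
theorem sg_mono {U : ℕ → Finset (Sym2 ℕ)} {J : ℕ} (h0 : U 0 = ∅)
    (hU : ∀ j < J, Stq (U j) (U (j + 1))) {k j j' : ℕ} (hj : j + 2 * k + 40 ≤ j') (hJ : j' ≤ J) :
    sg (U j') ≤ (1 + 1 / 2 ^ (k + 6)) * sg (U j) := by
  obtain ⟨m, rfl⟩ : ∃ m, j' = j + m := ⟨j' - j, by omega⟩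
  have h1 := sg_bound1 hU m hJ
  have h2 := small_bd (m := m) (k := k) (by omega)
  have h3 := sg_pos (U := U) j
  refine h1.trans ?_
  rw [mul_comm]
  apply mul_le_mul_of_nonneg_right _ h3.le
  linarith

/-- one window of the chain gains a factor of about two -/
theorem sg_window {U : ℕ → Finset (Sym2 ℕ)} {J : ℕ} (h0 : U 0 = ∅)
    (hU : ∀ j < J, Stq (U j) (U (j + 1))) {k j j' : ℕ} (hj : tw 5 (3 * k + 40) ≤ j)
    (hj' : 2 ^ (4 * j) ≤ j') (hJ : j' ≤ J) (hσ : 1 / 2 ^ k ≤ sg (U j)) :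
    sg (U j') ≤ (1 / 2 + 3 / 2 ^ (k + 6)) * sg (U j) := by
  have hS := sg_pos (U := U) j
  have hjl : 3 * k + 40 ≤ j := (le_tw_A2b 5 _).trans hj
  have h4j : 4 * j < 2 ^ (4 * j) := Nat.lt_two_pow_self
  have hjJ : j ≤ J := by omega
  have hcard : (U j).card ≤ 3 * 2 ^ j := by
    have := card_bd h0 hU j hjJ
    omega
  have hpm := pm_bound k j (U j).card hj hcard
  obtain ⟨m0, hm0⟩ : ∃ m0, m0 = pm k (k + 6) (2 * (U j).card) := ⟨_, rfl⟩
  rw [← hm0] at hpm
  have hz0 : 0 < ((Zf (U j)).card : ℝ) := by exact_mod_cast Zf_card_pos (U j)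
  have hσ' : (Zf (U j)).card ≤ 2 ^ k * ((U j).card + 1) := by
    have h1 := hσ
    unfold sg at h1
    rw [div_le_div_iff₀ (by positivity) hz0] at h1
    have h2 : ((Zf (U j)).card : ℝ) ≤ 2 ^ k * (((U j).card : ℝ) + 1) := by linarith
    exact_mod_cast h2
  have hjcyc : ∀ e ∈ U j, ∃ C ∈ Cf (U j), e ∈ C := by
    have h1 := (hU (j - 1) (by omega)).2.2.1
    rwa [show j - 1 + 1 = j by omega] at h1
  have hwin : ∀ i, j + (m0 + i) ≤ J → (ns (U (j + (m0 + i))) : ℝ) * (Zf (U j)).card ≤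
      (1 / 2 + 1 / 2 ^ (k + 6)) * (((U j).card : ℝ) + 1) * (Zf (U (j + (m0 + i)))).card := by
    intro i hi
    have h1 := hU (j + (m0 + i) - 1) (by omega)
    rw [show j + (m0 + i) - 1 + 1 = j + (m0 + i) by omega] at h1
    have h2 := chain_mono hU (m0 + i) hi
    refine window_step h2.1 h1.2.1 h1.2.2.1 hjcyc k (k + 6) hσ' ?_
    rw [← hm0]
    refine le_trans ?_ h2.2
    apply Nat.mul_le_mul_right
    exact Nat.pow_le_pow_right (by norm_num) (by omega)
  have hrec : ∀ n : ℕ, j + (m0 + n) ≤ J → sg (U (j + (m0 + n))) ≤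
      sg (U j) * ((1 / 2 + 1 / 2 ^ (k + 6)) + 2 / 2 ^ n + 3 * ((m0 + n : ℕ) : ℝ) / 2 ^ (m0 + n)) := by
    intro n
    induction n with
    | zero =>
      intro h
      refine (sg_bound1 hU (m0 + 0) h).trans ?_
      apply mul_le_mul_of_nonneg_left _ hS.le
      have h5 : (0 : ℝ) ≤ 1 / 2 ^ (k + 6) := by positivity
      simp only [pow_zero]
      linarith
    | succ n ih =>
      intro h
      have h1 := ih (by omega)
      have h2 := sg_step hU (j := j) (m := m0 + n) (by omega) (hwin n (by omega))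
      have e1 : j + (m0 + (n + 1)) = j + (m0 + n) + 1 := by ring
      rw [e1]
      refine h2.trans ?_
      calc (sg (U (j + (m0 + n))) + (1 / 2 + 1 / 2 ^ (k + 6)) * sg (U j)
            + 3 * sg (U j) / 2 ^ (m0 + n)) / 2
          ≤ (sg (U j) * ((1 / 2 + 1 / 2 ^ (k + 6)) + 2 / 2 ^ n
            + 3 * ((m0 + n : ℕ) : ℝ) / 2 ^ (m0 + n)) + (1 / 2 + 1 / 2 ^ (k + 6)) * sg (U j)
            + 3 * sg (U j) / 2 ^ (m0 + n)) / 2 := by linarith
        _ = sg (U j) * ((1 / 2 + 1 / 2 ^ (k + 6)) + 2 / 2 ^ (n + 1)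
            + 3 * ((m0 + (n + 1) : ℕ) : ℝ) / 2 ^ (m0 + (n + 1))) := by
          push_cast
          have q1 : (2 : ℝ) ^ (n + 1) = 2 ^ n * 2 := pow_succ _ _
          have q2 : (2 : ℝ) ^ (m0 + n + 1) = 2 ^ (m0 + n) * 2 := pow_succ _ _
          rw [← add_assoc m0 n 1, q1, q2]
          have hp1 : (2 : ℝ) ^ n ≠ 0 := by positivity
          have hp2 : (2 : ℝ) ^ (m0 + n) ≠ 0 := by positivity
          have hp3 : (2 : ℝ) ^ (k + 6) ≠ 0 := by positivity
          generalize (2 : ℝ) ^ (m0 + n) = P at *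
          generalize (2 : ℝ) ^ n = Q at *
          generalize (2 : ℝ) ^ (k + 6) = R at *
          field_simp
          ring
  obtain ⟨n, hn⟩ : ∃ n, j' = j + (m0 + n) := ⟨j' - j - m0, by omega⟩
  subst hn
  have h1 := hrec n hJ
  have h2 := small_bd (m := m0 + n) (k := k) (by omega)
  have h3 : (2 : ℝ) / 2 ^ n ≤ 1 / 2 ^ (k + 6) := by
    rw [div_le_div_iff₀ (by positivity) (by positivity)]
    have h4 : (2 : ℝ) * 2 ^ (k + 6) = 2 ^ (k + 7) := by ring
    rw [h4, one_mul]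
    exact pow_le_pow_right₀ (by norm_num) (by omega)
  refine h1.trans ?_
  rw [mul_comm]
  apply mul_le_mul_of_nonneg_right _ hS.le
  have h5 : (3 : ℝ) / 2 ^ (k + 6) = 3 * (1 / 2 ^ (k + 6)) := by ring
  rw [h5]
  linarith

end Jia

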