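import Pool.Agent.Helper826.Bondy.Pd
import Pool.Agent.Helper826.Bondy.Sq
import Pool.Agent.Helper826.Bondy.P1b
import Pool.Agent.Helper826.Bondy.A2b

set_option autoImplicit false

namespace Jia
open Finset
open scoped symmDiff

theorem tw_ge (i x : ℕ) : x ≤ tw i x := by
  induction i with
  | zero => exact le_rfl
  | succ i ih =>
    unfold tw
    exact ih.trans Nat.lt_two_pow_self.le

theorem jj_step (k : ℕ) : jj k + 2 * k + 40 ≤ 2 ^ (4 * jj k) := by
  have h1 : 3 * k + 40 ≤ jj k := (tw_ge 5 _).trans (jj_large k)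
  have h2 : jj k < 2 ^ jj k := Nat.lt_two_pow_self
  have h3 : 2 ^ (jj k + 1) ≤ 2 ^ (4 * jj k) := Nat.pow_le_pow_right (by norm_num) (by omega)
  rw [pow_succ] at h3
  omega

theorem sg_start {U : ℕ → Finset (Sym2 ℕ)} {J : ℕ} (h0 : U 0 = ∅)
    (hU : ∀ j < J, Stq (U j) (U (j + 1))) (j : ℕ) (hj : j ≤ J) :
    (U j).card + 3 ≤ 3 * 2 ^ j ∧ 2 ^ j ≤ (Zf (U j)).card := by
  induction j with
  | zero =>
    rw [h0]
    refine ⟨by simp, ?_⟩
    have := Zf_card_pos (∅ : Finset (Sym2 ℕ))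
    simpa using this
  | succ j ih =>
    obtain ⟨i1, i2⟩ := ih (by omega)
    obtain ⟨_, _, _, s4, _, s6⟩ := hU j (by omega)
    constructor
    · rw [pow_succ]; omega
    · rw [pow_succ]; omega

theorem sg_start3 {U : ℕ → Finset (Sym2 ℕ)} {J : ℕ} (h0 : U 0 = ∅)
    (hU : ∀ j < J, Stq (U j) (U (j + 1))) (j : ℕ) (hj : j ≤ J) : sg (U j) ≤ 3 := by
  obtain ⟨i1, i2⟩ := sg_start h0 hU j hj
  have i1' : (((U j).card : ℝ) + 3) ≤ 3 * 2 ^ j := by exact_mod_cast i1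
  have i2' : (2:ℝ) ^ j ≤ ((Zf (U j)).card : ℝ) := by exact_mod_cast i2
  have hp : (0:ℝ) < 2 ^ j := pow_pos (by norm_num) _
  have hz : (0:ℝ) < ((Zf (U j)).card : ℝ) := lt_of_lt_of_le hp i2'
  unfold sg
  rw [div_le_iff₀ hz]
  linarith

theorem sg_iter_aux {U : ℕ → Finset (Sym2 ℕ)} {J : ℕ} (h0 : U 0 = ∅)
    (hU : ∀ j < J, Stq (U j) (U (j + 1))) (k : ℕ) (hk : jj k ≤ J) :
    sg (U (jj k)) ≤ 8 * (1 - 1 / 2 ^ (k + 2)) / 2 ^ k := by
  induction k with
  | zero => exact (sg_start3 h0 hU (jj 0) hk).trans (by norm_num)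
  | succ k ih =>
    have hstep := jj_step k
    have hjj : jj (k + 1) = 2 ^ (4 * jj k) := rfl
    have hkJ : jj k ≤ J := by
      rw [hjj] at hk; omega
    have ih' := ih hkJ
    set x : ℝ := 1 / 2 ^ (k + 2) with hx
    have hx0 : 0 < x := by rw [hx]; positivity
    have hpk : (0:ℝ) < 2 ^ k := by positivity
    have hxk : x * 2 ^ k = 1 / 4 := by
      rw [hx, pow_add]; field_simp; norm_num
    have hx4 : x ≤ 1 / 4 := by
      have : (1:ℝ) ≤ 2 ^ k := one_le_pow₀ (by norm_num)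
      nlinarith
    have e3 : (1:ℝ) / 2 ^ (k + 1 + 2) = x / 2 := by
      rw [hx, show k + 1 + 2 = (k + 2) + 1 by ring, pow_succ (2:ℝ) (k + 2)]; field_simp
    have e6 : (3:ℝ) / 2 ^ (k + 6) = 3 * x / 16 := by
      rw [hx, show k + 6 = (k + 2) + 4 by ring, pow_add (2:ℝ) (k + 2) 4]; field_simp; norm_num
    have e6' : (1:ℝ) / 2 ^ (k + 6) = x / 16 := by
      rw [hx, show k + 6 = (k + 2) + 4 by ring, pow_add (2:ℝ) (k + 2) 4]; field_simp; norm_num
    rw [e3, pow_succ (2:ℝ) k]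
    rw [le_div_iff₀ hpk] at ih'
    rw [le_div_iff₀ (by positivity)]
    by_cases hσ : 1 / 2 ^ k ≤ sg (U (jj k))
    · have h1 := sg_window h0 hU (jj_large k) (j' := jj (k + 1)) hjj.ge hk hσ
      rw [e6] at h1
      have h2 : sg (U (jj (k + 1))) * (2 ^ k * 2) ≤
          ((1 / 2 + 3 * x / 16) * sg (U (jj k))) * (2 ^ k * 2) :=
        mul_le_mul_of_nonneg_right h1 (by positivity)
      have h3 : ((1 / 2 + 3 * x / 16) * sg (U (jj k))) * (2 ^ k * 2) =
          (1 + 3 * x / 8) * (sg (U (jj k)) * 2 ^ k) := by ring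
      have h4 : (1 + 3 * x / 8) * (sg (U (jj k)) * 2 ^ k) ≤ (1 + 3 * x / 8) * (8 * (1 - x)) :=
        mul_le_mul_of_nonneg_left ih' (by positivity)
      nlinarith
    · have hσ' := not_le.1 hσ
      have h1 := sg_mono h0 hU (k := k) (j := jj k) (j' := jj (k + 1)) (by rw [hjj]; exact hstep) hk
      rw [e6'] at h1
      rw [lt_div_iff₀ hpk] at hσ'
      have h2 : sg (U (jj (k + 1))) * (2 ^ k * 2) ≤
          ((1 + x / 16) * sg (U (jj k))) * (2 ^ k * 2) :=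
        mul_le_mul_of_nonneg_right h1 (by positivity)
      have h3 : ((1 + x / 16) * sg (U (jj k))) * (2 ^ k * 2) =
          2 * (1 + x / 16) * (sg (U (jj k)) * 2 ^ k) := by ring
      have h4 : 2 * (1 + x / 16) * (sg (U (jj k)) * 2 ^ k) ≤ 2 * (1 + x / 16) * 1 :=
        mul_le_mul_of_nonneg_left hσ'.le (by positivity)
      nlinarith

/-- after `k` windows -/
theorem sg_iter {U : ℕ → Finset (Sym2 ℕ)} {J : ℕ} (h0 : U 0 = ∅)
    (hU : ∀ j < J, Stq (U j) (U (j + 1))) (k : ℕ) (hk : jj k ≤ J) :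
    sg (U (jj k)) ≤ 8 / 2 ^ k := by
  refine (sg_iter_aux h0 hU k hk).trans ?_
  apply div_le_div_of_nonneg_right _ (by positivity)
  have : (0:ℝ) < 1 / 2 ^ (k + 2) := by positivity
  linarith

end Jia
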