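import Pool.Agent.Helper826.Bondy.Pd

set_option autoImplicit false

namespace Jia

theorem jj_succ_eq (k : ℕ) : jj (k + 1) = 2 ^ (4 * jj k) := rfl

attribute [local irreducible] jj tw

theorem logb_le_of_le_pow {x : ℝ} {a : ℕ} (hx : 0 < x) (h : x ≤ 2 ^ a) : Real.logb 2 x ≤ a := by
  rw [Real.logb_le_iff_le_rpow (by norm_num) hx]
  rw [Real.rpow_natCast]
  exact h

theorem logb_le_sub_one {x : ℝ} (hx : 2 ≤ x) : Real.logb 2 x ≤ x - 1 := by
  have h1 : Real.logb 2 x = Real.logb 2 (x / 2) + 1 := by
    have h2 : x = (x / 2) * 2 := by ring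
    have h3 : Real.logb 2 ((x / 2) * 2) = Real.logb 2 (x / 2) + Real.logb 2 2 :=
      Real.logb_mul (by positivity) (by norm_num)
    rw [← h2, Real.logb_self_eq_one (by norm_num)] at h3
    exact h3
  have h4 : Real.log (x / 2) ≤ x / 2 - 1 := Real.log_le_sub_one_of_pos (by positivity)
  have h5 : (1:ℝ)/2 < Real.log 2 := by
    have := Real.log_two_gt_d9
    linarith
  have h6 : Real.logb 2 (x / 2) ≤ x - 2 := by
    unfold Real.logb
    rw [div_le_iff₀ (by linarith)]
    have h7 : 0 ≤ x - 2 := by linarith
    nlinarith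
  linarith

/-- the number of windows is at least the iterated logarithm minus a constant -/
theorem logstar_le : ∃ C0 : ℕ, ∀ k n : ℕ, (n : ℝ) < 3 * 2 ^ jj k →
    sInf {m : ℕ | (Real.logb 2)^[m] (n : ℝ) ≤ 1} ≤ k + C0 := by
  refine ⟨(4 * jj 0 + 3) + 2, ?_⟩
  intro k n hn
  by_contra hcon
  have hbig : ∀ m : ℕ, m ≤ k + ((4 * jj 0 + 3) + 2) → 1 < (Real.logb 2)^[m] (n : ℝ) := by
    intro m hm
    by_contra hm'
    apply hcon
    exact (Nat.sInf_le (by simpa using not_lt.1 hm')).trans hm
  have hclaim : ∀ i : ℕ, i ≤ k →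
      (Real.logb 2)^[i + 1] (n : ℝ) ≤ ((4 * jj (k - i) + 3 : ℕ) : ℝ) := by
    intro i
    induction i with
    | zero =>
      intro _
      rw [Function.iterate_succ_apply', Function.iterate_zero, id]
      have h0 : (1:ℝ) < n := by
        have := hbig 0 (Nat.zero_le _)
        simpa using this
      have h1 : (n:ℝ) ≤ 2 ^ (jj k + 2) := by
        rw [pow_add]
        have : (0:ℝ) < 2 ^ jj k := by positivity
        nlinarith
      refine (logb_le_of_le_pow (by linarith) h1).trans ?_
      rw [Nat.sub_zero]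
      have h2 : jj k + 2 ≤ 4 * jj k + 3 := by omega
      exact_mod_cast h2
    | succ i ih =>
      intro hi
      rw [Function.iterate_succ_apply']
      have h1 := ih (by omega)
      have h0 := hbig (i + 1) (by omega)
      obtain ⟨t, ht⟩ : ∃ t, k - i = t + 1 := ⟨k - i - 1, by omega⟩
      have ht' : k - (i + 1) = t := by omega
      rw [ht, jj_succ_eq] at h1
      rw [ht']
      apply logb_le_of_le_pow (by linarith)
      refine h1.trans ?_
      have h3 : (1:ℕ) ≤ 2 ^ (4 * jj t) := Nat.one_le_two_pow
      have h4 : 4 * 2 ^ (4 * jj t) + 3 ≤ 2 ^ (4 * jj t + 3) := by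
        rw [pow_add]; omega
      exact_mod_cast h4
  have hk := hclaim k le_rfl
  rw [Nat.sub_self] at hk
  generalize 4 * jj 0 + 3 = c at hk hbig hcon
  have hdec : ∀ t : ℕ, t ≤ c → (Real.logb 2)^[k + 1 + t] (n : ℝ) ≤ max ((c : ℝ) - t) 1 := by
    intro t
    induction t with
    | zero =>
      intro _
      refine le_max_of_le_left ?_
      simpa using hk
    | succ t ih =>
      intro ht
      have h1 := ih (by omega)
      have h0 := hbig (k + 1 + t) (by omega)
      rw [← add_assoc, Function.iterate_succ_apply']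
      generalize (Real.logb 2)^[k + 1 + t] (n : ℝ) = x at h0 h1
      rcases le_or_gt 2 x with h2 | h2
      · refine le_max_of_le_left ?_
        have h3 := logb_le_sub_one h2
        have h4 : x ≤ (c:ℝ) - t := by
          rcases le_max_iff.1 h1 with h | h
          · exact h
          · linarith
        push_cast
        linarith
      · refine le_max_of_le_right ?_
        have h5 : x ≤ 2 ^ 1 := by linarith
        have := logb_le_of_le_pow (a := 1) (by linarith) h5
        simpa using this
  have h1 := hdec c le_rfl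
  have h2 := hbig (k + 1 + c) (by omega)
  rw [sub_self] at h1
  have h3 : max (0:ℝ) 1 = 1 := by norm_num
  rw [h3] at h1
  linarith

end Jia
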