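import Pool.Agent.Helper826.Jia.WD
import Pool.Agent.Helper826.Jia.C1

set_option autoImplicit false

/-! ### cycle lengths, joins inside a set, thin families -/
namespace Jia
open Finset
open scoped symmDiff

variable {V : Type*} [DecidableEq V]

/-- the number of different cycle lengths in `E` -/
noncomputable def ns (E : Finset (Sym2 V)) : ℕ := ((Cf E).image Finset.card).card

/-- `u` and `v` are joined inside `S` by edges of `E` -/
def Jin (E : Finset (Sym2 V)) (S : Set V) (u v : V) : Prop :=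
  ∃ P ⊆ E, (∀ e ∈ P, ∀ x ∈ e, x ∈ S) ∧ IsJn P u v

open Classical in
/-- the even sets which do not cross `A` -/
noncomputable def Av (E : Finset (Sym2 V)) (A : Set V) : Finset (Finset (Sym2 V)) :=
  (Zf E).filter (fun z => ∀ e ∈ z, ¬ Cross A e)

/-- `z` is a sum of even sets not crossing `A`, `B`, `C` respectively -/
def InS (E : Finset (Sym2 V)) (A B C : Set V) (z : Finset (Sym2 V)) : Prop :=
  ∃ a ∈ Av E A, ∃ b ∈ Av E B, ∃ c ∈ Av E C, z = (a ∆ b) ∆ c

open Classical in
/-- `s` disjoint connected sets avoiding `A`, each with at most `ρ` crossing edges and containing a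
nonempty even set -/
def ThinFam (E : Finset (Sym2 V)) (A : Set V) (ρ s : ℕ) : Prop :=
  ∃ D : ℕ → Set V,
    (∀ i < s, ∀ j < s, i ≠ j → Disjoint (D i) (D j)) ∧
    (∀ i < s, ∀ x ∈ A, x ∉ D i) ∧
    (∀ i < s, (E.filter (fun e => Cross (D i) e)).card ≤ ρ) ∧
    (∀ i < s, ∀ u ∈ D i, ∀ v ∈ D i, Jin E (D i) u v) ∧
    (∀ i < s, ∃ C ∈ Zf E, C.Nonempty ∧ ∀ e ∈ C, ∀ x ∈ e, x ∈ D i)

end Jia
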