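import Pool.Agent.Helper826.Jia.P1
import Pool.Agent.Helper826.Bondy.A1b
import Pool.Agent.Helper826.Bondy.A3b
import Pool.Agent.Helper826.Bondy.A5b

set_option autoImplicit false

namespace Jia
open Finset
open scoped symmDiff

/-- the cycles of a graph on `Fin N`, relabelled to natural numbers -/
theorem graph_to_nat {n N : ℕ} (G : SimpleGraph (Fin N))
    (hA : ∀ k : ℕ, 3 ≤ k → k ≤ n → ∃ (v : Fin N) (p : G.Walk v v), p.IsCycle ∧ p.length = k) :
    ∃ E : Finset (Sym2 ℕ), E.card = G.edgeSet.ncard ∧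
      ∀ k, 3 ≤ k → k ≤ n → ∃ Z ⊆ E, IsCyc Z ∧ Z.card = k := by
  classical
  set E0 : Finset (Sym2 (Fin N)) := (Set.toFinite G.edgeSet).toFinset with hE
  have hEc : E0.card = G.edgeSet.ncard := by
    rw [Set.ncard_eq_toFinset_card G.edgeSet (Set.toFinite G.edgeSet)]
  have hinj : Function.Injective (Sym2.map (Fin.val : Fin N → ℕ)) :=
    Sym2.map.injective Fin.val_injective
  refine ⟨E0.image (Sym2.map Fin.val), ?_, ?_⟩
  · rw [card_image_of_injective _ hinj, hEc]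
  · intro k hk hkn
    obtain ⟨v, p, hp, hpl⟩ := hA k hk hkn
    obtain ⟨h1, h2, h3⟩ := cyc_of_walk p hp
    refine ⟨p.edges.toFinset.image (Sym2.map Fin.val), ?_, ?_, ?_⟩
    · apply image_subset_image
      intro e he
      rw [hE, Set.Finite.mem_toFinset]
      exact h3 e he
    · exact cyc_map h1 (Fin.val_injective.injOn)
    · rw [card_image_of_injective _ hinj]
      exact h2.trans hpl

/-- Every finite simple graph with cycles of all lengths `3, …, n` has at least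
`n + log₂ n + log* n - C` edges. -/
theorem bondy_core : ∃ C : ℝ, ∀ n : ℕ, 4 ≤ n → ∀ (N : ℕ) (G : SimpleGraph (Fin N)),
    (∀ k : ℕ, 3 ≤ k → k ≤ n → ∃ (v : Fin N) (p : G.Walk v v), p.IsCycle ∧ p.length = k) →
    Real.logb 2 (n : ℝ) + ((sInf {m : ℕ | (Real.logb 2)^[m] (n : ℝ) ≤ 1} : ℕ) : ℝ) - C ≤
      (G.edgeSet.ncard : ℝ) - n := by
  obtain ⟨C0, hC0⟩ := logstar_le
  refine ⟨C0 + 6, ?_⟩
  intro n hn N G hA
  obtain ⟨E, hEc, hcyc⟩ := graph_to_nat G hA
  obtain ⟨ls, hls⟩ : ∃ ls : ℕ, ls = sInf {m : ℕ | (Real.logb 2)^[m] (n : ℝ) ≤ 1} := ⟨_, rfl⟩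
  rw [← hls]
  have hC0' : ∀ k : ℕ, (n : ℝ) < 3 * 2 ^ jj k → ls ≤ k + C0 := by
    intro k hk
    rw [hls]
    exact hC0 k n hk
  obtain ⟨e, he⟩ : ∃ e : ℝ, e = (G.edgeSet.ncard : ℝ) - n - Real.logb 2 n := ⟨_, rfl⟩
  have hcard : (E.card : ℝ) ≤ n + Real.logb 2 n + e := by
    rw [hEc, he]; linarith
  have hκ := kappa_bound hn hcard hcyc
  suffices h : (ls : ℝ) ≤ e + C0 + 6 by
    rw [he] at h; linarith
  by_cases h0 : 3 * 2 ^ jj 0 ≤ n
  · obtain ⟨k, hk⟩ : ∃ k, k = Nat.findGreatest (fun k => 3 * 2 ^ jj k ≤ n) n := ⟨_, rfl⟩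
    have hk1 : 3 * 2 ^ jj k ≤ n := by
      rw [hk]
      exact Nat.findGreatest_spec (P := fun k => 3 * 2 ^ jj k ≤ n) (Nat.zero_le n) h0
    have hjk : ∀ k, k ≤ jj k := by
      intro k
      induction k with
      | zero => exact Nat.zero_le _
      | succ k ih =>
        have h1 : jj k < 2 ^ (4 * jj k) :=
          lt_of_le_of_lt (by omega) (Nat.lt_two_pow_self (n := 4 * jj k))
        have h2 : jj (k + 1) = 2 ^ (4 * jj k) := rfl
        rw [h2]; omega
    have hk2 : ¬ 3 * 2 ^ jj (k + 1) ≤ n := by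
      intro h
      have h1 : k + 1 ≤ n := by
        have h2 := hjk (k + 1)
        have h3 : jj (k + 1) < 2 ^ jj (k + 1) := Nat.lt_two_pow_self
        omega
      have h2 : k + 1 ≤ Nat.findGreatest (fun k => 3 * 2 ^ jj k ≤ n) n :=
        Nat.le_findGreatest h1 h
      omega
    have hls2 : ls ≤ k + 1 + C0 := by
      apply hC0'
      have : n < 3 * 2 ^ jj (k + 1) := not_le.1 hk2
      exact_mod_cast this
    obtain ⟨U, hU0, hUE, hU⟩ := chain_exists' hcyc (jj k) hk1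
    have hsg := sg_iter hU0 hU k le_rfl
    have h1 := hκ (U (jj k)) (hUE _ le_rfl)
    have hZ : (0 : ℝ) < (Zf (U (jj k))).card := by exact_mod_cast Zf_card_pos _
    unfold sg at hsg
    rw [div_le_iff₀ hZ] at hsg
    have h2 : ((Zf (U (jj k))).card : ℝ) ≤
        (2 : ℝ) ^ (e + 2) * (8 / 2 ^ k * (Zf (U (jj k))).card) :=
      h1.trans (mul_le_mul_of_nonneg_left hsg (by positivity))
    have h3 : (1 : ℝ) ≤ (2 : ℝ) ^ (e + 2) * (8 / 2 ^ k) := by
      by_contra hcon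
      push Not at hcon
      have := mul_lt_mul_of_pos_right hcon hZ
      rw [one_mul, mul_assoc] at this
      linarith
    have h4 : (2 : ℝ) ^ (k : ℝ) ≤ (2 : ℝ) ^ (e + 5) := by
      rw [Real.rpow_natCast]
      have h5 : (2 : ℝ) ^ (e + 5) = (2 : ℝ) ^ (e + 2) * 8 := by
        rw [show e + 5 = (e + 2) + 3 by ring, Real.rpow_add (by norm_num)]
        norm_num
      rw [h5]
      rw [mul_div_assoc'] at h3
      rwa [le_div_iff₀ (by positivity), one_mul] at h3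
    have h6 : (k : ℝ) ≤ e + 5 := (Real.rpow_le_rpow_left_iff (by norm_num)).1 h4
    have h7 : (ls : ℝ) ≤ k + 1 + C0 := by exact_mod_cast hls2
    linarith
  · have hls2 : ls ≤ 0 + C0 := by
      apply hC0'
      have : n < 3 * 2 ^ jj 0 := not_le.1 h0
      exact_mod_cast this
    have h1 := hκ ∅ (empty_subset _)
    have h2 : (1 : ℝ) ≤ (Zf (∅ : Finset (Sym2 ℕ))).card := by exact_mod_cast Zf_card_pos _
    have h3 : (1 : ℝ) ≤ (2 : ℝ) ^ (e + 2) := by
      rw [card_empty] at h1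
      push_cast at h1
      linarith
    have h4 : (2 : ℝ) ^ (0 : ℝ) ≤ (2 : ℝ) ^ (e + 2) := by rwa [Real.rpow_zero]
    have h5 : (0 : ℝ) ≤ e + 2 := (Real.rpow_le_rpow_left_iff (by norm_num)).1 h4
    have h6 : (ls : ℝ) ≤ 0 + C0 := by exact_mod_cast hls2
    linarith

end Jia
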