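import Pool.Agent.Helper826.Bondy.BD

set_option autoImplicit false

/-! ### finite graphs -/
namespace Jia
open Finset

/-- `nb` is the neighbourhood function of the finite graph `E`, all degrees are at most `D` -/
structure FG (E : Finset (Sym2 ℕ)) (D : ℕ) (nb : ℕ → Finset ℕ) : Prop where
  mem : ∀ x y, y ∈ nb x ↔ s(x, y) ∈ E
  nl : NL E
  card : ∀ x, (nb x).card ≤ D
  two : ∀ x, (nb x).Nonempty → 2 ≤ (nb x).card

theorem FG.symm {E : Finset (Sym2 ℕ)} {D : ℕ} {nb : ℕ → Finset ℕ} (h : FG E D nb) :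
    ∀ x y, y ∈ nb x → x ∈ nb y := by
  intro x y hy
  rw [h.mem] at hy ⊢
  rwa [Sym2.eq_swap]

theorem FG.irr {E : Finset (Sym2 ℕ)} {D : ℕ} {nb : ℕ → Finset ℕ} (h : FG E D nb) :
    ∀ x, x ∉ nb x := by
  intro x hx
  rw [h.mem] at hx
  exact h.nl _ hx (by simp)

/-- `Rw nb k x y`: there is a walk from `x` to `y` entering at most `k` branch vertices -/
inductive Rw (nb : ℕ → Finset ℕ) : ℕ → ℕ → ℕ → Prop
  | refl (k x : ℕ) : Rw nb k x x
  | thin {k x w y : ℕ} (h : w ∈ nb x) (hw : (nb w).card ≤ 2) (hr : Rw nb k w y) : Rw nb k x y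
  | br {k x w y : ℕ} (h : w ∈ nb x) (hr : Rw nb k w y) : Rw nb (k + 1) x y

end Jia
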