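import Pool.Agent.Helper826.Bondy.JB

set_option autoImplicit false

namespace Jia
open Finset
open scoped symmDiff
variable {V : Type*} [DecidableEq V]

theorem Cp_closed {E : Finset (Sym2 V)} (hNL : NL E) {N : Set V} {w a b : V}
    (ha : a ∈ Cp E N w) (hab : s(a, b) ∈ E) (hb : b ∉ N) : b ∈ Cp E N w := by
  obtain ⟨h1, h2⟩ := ha
  have hne : a ≠ b := by
    rintro rfl
    exact hNL _ hab (by simp)
  exact ⟨hb, h2.trans (Jin.edge hab hne h1 hb)⟩

theorem laminar_aux {E : Finset (Sym2 V)} (hNL : NL E) {N N' : Set V} {x w x' w' r : V}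
    (hdis : Disjoint N N') (hN : ∀ u ∈ N, ∀ v ∈ N, Jin E N u v)
    (hN' : ∀ u ∈ N', ∀ v ∈ N', Jin E N' u v)
    (hx : x ∈ N)
    (hx' : x' ∈ N') (hxw' : s(x', w') ∈ E) (hw' : w' ∉ N')
    (hr' : r ∉ N') (hrT : r ∉ Cp E N w) (hrT' : r ∉ Cp E N' w')
    (hcon : Jin E Set.univ x r) {y : V} (hy : y ∈ N') (hyT : y ∈ Cp E N w) :
    N' ∪ Cp E N' w' ⊆ Cp E N w := by
  have hd1 : ∀ v ∈ N, v ∉ N' := fun v h h' => Set.disjoint_left.1 hdis h h'
  have hd2 : ∀ v ∈ N', v ∉ N := fun v h h' => Set.disjoint_left.1 hdis h' h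
  have hw'T' : w' ∈ Cp E N' w' := ⟨hw', Jin.refl _ _ _⟩
  -- (1)
  have h1 : N' ⊆ Cp E N w := by
    intro z hz
    refine Jin.closed hNL (S := N') (R := Cp E N w) ?_ (hN' y hy z hz) hyT
    intro a b hab _ hb ha
    exact Cp_closed hNL ha hab (hd2 b hb)
  -- (2)
  have h2 : Jin E N'ᶜ x r := by
    have h3 : r ∈ {v | Jin E N'ᶜ x v} ∪ Cp E N w := by
      refine Jin.closed hNL (S := Set.univ) ?_ hcon (Or.inl (Jin.refl _ _ _))
      intro a b hab _ _ ha
      by_cases haT : a ∈ Cp E N w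
      · by_cases hb : b ∈ N
        · left
          exact (hN x hx b hb).mono (Finset.Subset.refl _) (fun v hv => hd1 v hv)
        · right; exact Cp_closed hNL haT hab hb
      · rcases ha with ha | ha
        · have haN' : a ∉ N' := fun h => haT (h1 h)
          by_cases hb : b ∈ N'
          · right; exact h1 hb
          · left
            have hne : a ≠ b := by
              rintro rfl
              exact hNL _ hab (by simp)
            exact Jin.trans ha (Jin.edge hab hne haN' hb)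
        · exact absurd ha haT
    rcases h3 with h3 | h3
    · exact h3
    · exact absurd h3 hrT
  have h4 : ∀ y ∈ N, y ∉ Cp E N' w' := by
    rintro y hyN ⟨_, hy2⟩
    apply hrT'
    refine ⟨hr', hy2.trans ?_⟩
    have h5 : Jin E N'ᶜ x y :=
      (hN x hx y hyN).mono (Finset.Subset.refl _) (fun v hv => hd1 v hv)
    exact h5.symm.trans h2
  have h6 : w' ∉ N := fun h => h4 w' h hw'T'
  have h7 : w' ∈ Cp E N w := Cp_closed hNL (h1 hx') hxw' h6
  have h8 : Cp E N' w' ⊆ Cp E N w := by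
    intro v hv
    have : v ∈ Cp E N w ∩ Cp E N' w' := by
      refine Jin.closed hNL (S := N'ᶜ) ?_ hv.2 ⟨h7, hw'T'⟩
      intro a b hab _ hb ha
      have hbT' : b ∈ Cp E N' w' := Cp_closed hNL ha.2 hab hb
      exact ⟨Cp_closed hNL ha.1 hab (fun h => h4 b h hbT'), hbT'⟩
    exact this.1
  exact Set.union_subset h1 h8

/-- laminarity of the sets `N ∪ Cp E N w` not containing the common root `r` -/
theorem laminar {E : Finset (Sym2 V)} (hNL : NL E) {N N' : Set V} {x w x' w' r : V}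
    (hdis : Disjoint N N') (hN : ∀ u ∈ N, ∀ v ∈ N, Jin E N u v)
    (hN' : ∀ u ∈ N', ∀ v ∈ N', Jin E N' u v)
    (hx : x ∈ N) (hxw : s(x, w) ∈ E) (hw : w ∉ N)
    (hx' : x' ∈ N') (hxw' : s(x', w') ∈ E) (hw' : w' ∉ N')
    (hr : r ∉ N) (hr' : r ∉ N') (hrT : r ∉ Cp E N w) (hrT' : r ∉ Cp E N' w')
    (hcon : Jin E Set.univ x r) (hcon' : Jin E Set.univ x' r) :
    Disjoint (N ∪ Cp E N w) (N' ∪ Cp E N' w') ∨ N' ∪ Cp E N' w' ⊆ Cp E N w ∨
      N ∪ Cp E N w ⊆ Cp E N' w' := by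
  by_cases hA : ∃ y ∈ N', y ∈ Cp E N w
  · obtain ⟨y, hy, hyT⟩ := hA
    right; left
    exact laminar_aux hNL hdis hN hN' hx hx' hxw' hw' hr' hrT hrT' hcon hy hyT
  by_cases hB : ∃ y ∈ N, y ∈ Cp E N' w'
  · obtain ⟨y, hy, hyT⟩ := hB
    right; right
    exact laminar_aux hNL hdis.symm hN' hN hx' hx hxw hw hr hrT' hrT hcon' hy hyT
  push Not at hA hB
  left
  have hd1 : ∀ v ∈ N, v ∉ N' := fun v h h' => Set.disjoint_left.1 hdis h h'
  have hwT : w ∈ Cp E N w := ⟨hw, Jin.refl _ _ _⟩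
  have hTT : ∀ v ∈ Cp E N w, v ∉ Cp E N' w' := by
    intro v hv hv'
    have hsub : w ∈ Cp E N w ∩ Cp E N' w' := by
      refine Jin.closed hNL (S := Nᶜ) ?_ hv.2.symm ⟨hv, hv'⟩
      intro a b hab _ hb ha
      have hbT : b ∈ Cp E N w := Cp_closed hNL ha.1 hab hb
      exact ⟨hbT, Cp_closed hNL ha.2 hab (fun h => hA b h hbT)⟩
    have hwx : s(w, x) ∈ E := by rw [Sym2.eq_swap]; exact hxw
    exact hB x hx (Cp_closed hNL hsub.2 hwx (hd1 x hx))
  rw [Set.disjoint_left]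
  rintro v (hv | hv) (hv' | hv')
  · exact hd1 v hv hv'
  · exact hB v hv hv'
  · exact hA v hv' hv
  · exact hTT v hv hv'

end Jia
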