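import Pool.Agent.Helper826.Bondy.BD

set_option autoImplicit false

/-! ### basic facts on joins inside a set -/
namespace Jia
open Finset
open scoped symmDiff

variable {V : Type*} [DecidableEq V]

theorem Jin.refl (E : Finset (Sym2 V)) (S : Set V) (u : V) : Jin E S u u :=
  ⟨∅, empty_subset _, by simp, isJn_refl u⟩

theorem Jin.symm {E : Finset (Sym2 V)} {S : Set V} {u v : V} (h : Jin E S u v) : Jin E S v u := by
  obtain ⟨P, h1, h2, h3⟩ := h
  exact ⟨P, h1, h2, h3.symm⟩

theorem Jin.trans {E : Finset (Sym2 V)} {S : Set V} {u v w : V} (h : Jin E S u v)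
    (h' : Jin E S v w) : Jin E S u w := by
  obtain ⟨P, h1, h2, h3⟩ := h
  obtain ⟨Q, g1, g2, g3⟩ := h'
  refine ⟨P ∆ Q, ?_, ?_, h3.trans g3⟩
  · intro e he
    rw [mem_symmDiff] at he
    rcases he with he | he
    · exact h1 he.1
    · exact g1 he.1
  · intro e he x hx
    rw [mem_symmDiff] at he
    rcases he with he | he
    · exact h2 e he.1 x hx
    · exact g2 e he.1 x hx

theorem Jin.mono {E E' : Finset (Sym2 V)} {S S' : Set V} {u v : V} (h : Jin E S u v)
    (hE : E ⊆ E') (hS : S ⊆ S') : Jin E' S' u v := by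
  obtain ⟨P, h1, h2, h3⟩ := h
  exact ⟨P, h1.trans hE, fun e he x hx => hS (h2 e he x hx), h3⟩

theorem Jin.edge {E : Finset (Sym2 V)} {S : Set V} {u v : V} (he : s(u, v) ∈ E) (huv : u ≠ v)
    (hu : u ∈ S) (hv : v ∈ S) : Jin E S u v := by
  refine ⟨{s(u, v)}, singleton_subset_iff.2 he, ?_, isJn_edge huv⟩
  intro e he' x hx
  rw [mem_singleton] at he'
  subst he'
  rcases Sym2.mem_iff.1 hx with rfl | rfl
  · exact hu
  · exact hv

/-- one step along a join -/
theorem join_step {P : Finset (Sym2 V)} (hP : NL P) {u v : V} (h : IsJn P u v) (huv : u ≠ v) :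
    ∃ w, w ≠ u ∧ s(u, w) ∈ P ∧ IsJn (P.erase s(u, w)) w v := by
  have hodd : Odd (dg P u) := by
    rw [h u]
    simp [huv]
  have hpos : 0 < dg P u := hodd.pos
  obtain ⟨e, he⟩ := card_pos.1 hpos
  rw [mem_filter] at he
  obtain ⟨heP, hue⟩ := he
  obtain ⟨w, rfl⟩ := Sym2.mem_iff_exists.1 hue
  have hwu : w ≠ u := by
    rintro rfl
    exact hP _ heP (by simp)
  refine ⟨w, hwu, heP, ?_⟩
  have h1 : P.erase s(u, w) = P ∆ {s(u, w)} := by
    ext f
    rw [mem_erase, mem_symmDiff, mem_singleton]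
    constructor
    · rintro ⟨h1, h2⟩; exact Or.inl ⟨h2, h1⟩
    · rintro (⟨h1, h2⟩ | ⟨h1, h2⟩)
      · exact ⟨h2, h1⟩
      · subst h1; exact absurd heP h2
  have h2 : IsJn ({s(u, w)} ∆ P) w v := (isJn_edge hwu.symm).symm.trans h
  rw [h1, symmDiff_comm]
  exact h2

/-- a set closed under adjacency inside `S` contains everything joined to it inside `S` -/
theorem Jin.closed {E : Finset (Sym2 V)} (hNL : NL E) {S R : Set V} {u v : V}
    (hR : ∀ x y, s(x, y) ∈ E → x ∈ S → y ∈ S → x ∈ R → y ∈ R) (h : Jin E S u v) (hu : u ∈ R) :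
    v ∈ R := by
  obtain ⟨P, h1, h2, h3⟩ := h
  obtain ⟨n, hn⟩ : ∃ n, n = P.card := ⟨_, rfl⟩
  induction n generalizing P u with
  | zero =>
    have hP : P = ∅ := card_eq_zero.1 hn.symm
    subst hP
    by_cases huv : u = v
    · exact huv ▸ hu
    · obtain ⟨w, _, hw, _⟩ := join_step (by intro e he; simp at he) h3 huv
      simp at hw
  | succ n ih =>
    by_cases huv : u = v
    · exact huv ▸ hu
    · obtain ⟨w, hwu, hw, hj⟩ := join_step (fun e he => hNL e (h1 he)) h3 huv
      have hus : u ∈ S := h2 _ hw u (by simp)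
      have hws : w ∈ S := h2 _ hw w (by simp)
      refine ih (u := w) (hR u w (h1 hw) hus hws hu) (P.erase s(u, w))
        ((erase_subset _ _).trans h1) (fun e he => h2 e (erase_subset _ _ he)) hj ?_
      rw [card_erase_of_mem hw]; omega

/-- both ends of a nontrivial join lie in `S` -/
theorem Jin.mem {E : Finset (Sym2 V)} (hNL : NL E) {S : Set V} {u v : V} (h : Jin E S u v)
    (huv : u ≠ v) : u ∈ S ∧ v ∈ S := by
  obtain ⟨P, h1, h2, h3⟩ := h
  obtain ⟨w, _, hw, _⟩ := join_step (fun e he => hNL e (h1 he)) h3 huv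
  obtain ⟨w', _, hw', _⟩ := join_step (fun e he => hNL e (h1 he)) h3.symm (Ne.symm huv)
  exact ⟨h2 _ hw u (by simp), h2 _ hw' v (by simp)⟩

/-- the component of `w` in the complement of `N` -/
def Cp (E : Finset (Sym2 V)) (N : Set V) (w : V) : Set V := {v | v ∉ N ∧ Jin E Nᶜ w v}

end Jia
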