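import Mathlib

set_option autoImplicit false

/-! ### parameters -/
namespace Jia
def pD (a : ℕ) : ℕ := 4 * a + 44
def ph (r : ℕ) : ℕ := 2 ^ (r + 2)
def pn (D r : ℕ) : ℕ := 2 ^ (r + 2) * (D + 1) ^ (ph r + 1)
def pl (D r : ℕ) : ℕ := ph r + pn D r + 1
def pr (D r : ℕ) : ℕ := 2 * (D * (D ^ pl D r + 1) + 1)
def ps (D r p : ℕ) : ℕ := 2 ^ (2 ^ pr D r + 2 * pr D r + 2 * p + 10)
def pq (D r p M : ℕ) : ℕ :=
  ps D r p + (ps D r p + M + (M ^ 2 + 1) * (2 * ps D r p * ps D r p) + 1)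
def pB (D r p M : ℕ) : ℕ := (M + pq D r p M) * (D + 2) ^ (2 * pl D r + 2)
/-- sufficient dimension of the cycle space modulo `K` -/
def pm (a p M : ℕ) : ℕ := pD a * pB (pD a) (a + p) p M + ps (pD a) (a + p) p

/-- iterated exponentials -/
def tw : ℕ → ℕ → ℕ
  | 0, x => x
  | i + 1, x => 2 ^ tw i x

/-- window ends -/
def jj : ℕ → ℕ
  | 0 => tw 5 40
  | k + 1 => 2 ^ (4 * jj k)

end Jia
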