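import Mathlib

/-!
Sparse pancyclic graphs: the upper bound `p + log₂ p + log* p`.
-/

set_option autoImplicit false

namespace Pool.Agent.Helper826.Bondy.Upper

/-- Positions of the skip chords. -/
def A (i : ℕ) : ℕ := 2 ^ i - 1 + i

theorem A_zero : A 0 = 0 := by simp [A]

theorem A_add_one (i : ℕ) : A i + 1 = 2 ^ i + i := by
  unfold A
  have := Nat.one_le_two_pow (n := i)
  omega

theorem A_succ (i : ℕ) : A (i + 1) = A i + 2 ^ i + 1 := by
  have h1 := A_add_one i
  have h2 := A_add_one (i + 1)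
  rw [pow_succ] at h2
  omega

theorem A_strictMono : StrictMono A := by
  refine strictMono_nat_of_lt_succ ?_
  intro i
  rw [A_succ]
  have := Nat.one_le_two_pow (n := i)
  omega

/-- A finite set of vertices whose consecutive elements are adjacent, and whose extreme elements are
adjacent, carries a cycle. -/
theorem cycle_of_finset {p : ℕ} (G : SimpleGraph (Fin p)) (V : Finset (Fin p)) (l : ℕ) (hl : 3 ≤ l)
    (hV : V.card = l)
    (hcons : ∀ x ∈ V, ∀ y ∈ V, x < y → (∀ z ∈ V, ¬ (x < z ∧ z < y)) → G.Adj x y)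
    (hend : ∀ x ∈ V, ∀ y ∈ V, (∀ z ∈ V, x ≤ z) → (∀ z ∈ V, z ≤ y) → G.Adj x y) :
    ∃ (v : Fin p) (c : G.Walk v v), c.IsCycle ∧ c.length = l := by
  classical
  rw [← SimpleGraph.cycleGraph_isContained_iff (by omega : 2 < l)]
  obtain ⟨n, rfl⟩ : ∃ n, l = n + 3 := ⟨l - 3, by omega⟩
  let f : Fin (n + 3) ↪o Fin p := V.orderEmbOfFin hV
  have hmem : ∀ i, f i ∈ V := fun i => V.orderEmbOfFin_mem hV i
  have hrange : ∀ z ∈ V, ∃ i, f i = z := by
    intro z hz
    have : z ∈ Set.range (V.orderEmbOfFin hV) := by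
      rw [Finset.range_orderEmbOfFin]; exact hz
    exact this
  have hstep : ∀ i j : Fin (n + 3), (i : ℕ) + 1 = j → G.Adj (f i) (f j) := by
    intro i j hij
    refine hcons _ (hmem i) _ (hmem j) (f.lt_iff_lt.mpr (by rw [Fin.lt_def]; omega)) ?_
    rintro z hz ⟨h1, h2⟩
    obtain ⟨t, rfl⟩ := hrange z hz
    rw [f.lt_iff_lt, Fin.lt_def] at h1 h2
    omega
  have hclose : G.Adj (f 0) (f (Fin.last (n + 2))) := by
    refine hend _ (hmem _) _ (hmem _) ?_ ?_
    · intro z hz
      obtain ⟨t, rfl⟩ := hrange z hz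
      exact f.le_iff_le.mpr (Fin.zero_le t)
    · intro z hz
      obtain ⟨t, rfl⟩ := hrange z hz
      exact f.le_iff_le.mpr (Fin.le_last t)
  have hadj : ∀ i j : Fin (n + 3), (SimpleGraph.cycleGraph (n + 3)).Adj i j → G.Adj (f i) (f j) := by
    have key : ∀ i j : Fin (n + 3), i - j = 1 → G.Adj (f i) (f j) := by
      intro i j h
      have hij : i = j + 1 := by
        rw [sub_eq_iff_eq_add.mp h]; exact add_comm _ _
      by_cases hj : j = Fin.last (n + 2)
      · subst hj
        have : i = 0 := by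
          rw [hij]; exact Fin.last_add_one _
        subst this
        exact hclose
      · refine (hstep j i ?_).symm
        rw [hij, Fin.val_add_one_of_lt (Fin.lt_last_iff_ne_last.mpr hj)]
    intro i j h
    rw [SimpleGraph.cycleGraph_adj] at h
    rcases h with h | h
    · exact key i j h
    · exact (key j i h).symm
  exact ⟨⟨⟨f, fun {i j} h => hadj i j h⟩, f.injective⟩⟩

/-- binary expansions as sums over finite sets -/
theorem exists_bits : ∀ (j s : ℕ), s < 2 ^ j → ∃ S : Finset ℕ, S ⊆ Finset.range j ∧ ∑ i ∈ S, 2 ^ i = s := by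
  intro j
  induction j with
  | zero =>
    intro s hs
    refine ⟨∅, by simp, ?_⟩
    simp at hs
    simp [hs]
  | succ j ih =>
    intro s hs
    by_cases h : s < 2 ^ j
    · obtain ⟨S, hS, hsum⟩ := ih s h
      exact ⟨S, hS.trans (Finset.range_mono (Nat.le_succ j)), hsum⟩
    · push Not at h
      have hs' : s - 2 ^ j < 2 ^ j := by rw [pow_succ] at hs; omega
      obtain ⟨S, hS, hsum⟩ := ih (s - 2 ^ j) hs'
      refine ⟨insert j S, ?_, ?_⟩
      · intro x hx
        rw [Finset.mem_insert] at hx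
        rcases hx with rfl | hx
        · simp
        · have := Finset.mem_range.mp (hS hx)
          rw [Finset.mem_range]; omega
      · rw [Finset.sum_insert, hsum]
        · omega
        · intro hj
          have := Finset.mem_range.mp (hS hj)
          omega


/-- The adjacency relation (oriented from smaller to larger) of the sparse pancyclic graph. -/
def Rel (p k : ℕ) (J : Finset ℕ) (a b : ℕ) : Prop :=
  b = a + 1 ∨ (a = 0 ∧ b = p - 1) ∨ (∃ i < k, a = A i ∧ b = A (i + 1)) ∨ (∃ j ∈ J, a = 0 ∧ b = A j)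

/-- The sparse pancyclic graph. -/
def Gr (p k : ℕ) (J : Finset ℕ) : SimpleGraph (Fin p) where
  Adj x y := (x < y ∧ Rel p k J x y) ∨ (y < x ∧ Rel p k J y x)
  symm := ⟨fun _ _ h => h.symm⟩
  loopless := ⟨fun x h => by rcases h with h | h <;> exact lt_irrefl _ h.1⟩

theorem Gr_adj_of_lt {p k : ℕ} {J : Finset ℕ} {x y : Fin p} (h : x < y) (hr : Rel p k J x y) :
    (Gr p k J).Adj x y := Or.inl ⟨h, hr⟩

/-- number of edges -/
theorem Gr_edges (p k : ℕ) (hp : 1 ≤ p) (J : Finset ℕ) :
    (Gr p k J).edgeSet.ncard ≤ (p - 1) + 1 + k + J.card := by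
  classical
  let e : ℕ → ℕ → Sym2 (Fin p) := fun a b => s(⟨a % p, Nat.mod_lt _ hp⟩, ⟨b % p, Nat.mod_lt _ hp⟩)
  let E : Finset (Sym2 (Fin p)) :=
    ((Finset.range (p - 1)).image (fun a => e a (a + 1)) ∪ {e 0 (p - 1)}) ∪
      (Finset.range k).image (fun i => e (A i) (A (i + 1))) ∪ J.image (fun j => e 0 (A j))
  have hsub : (Gr p k J).edgeSet ⊆ (E : Set (Sym2 (Fin p))) := by
    have key : ∀ x y : Fin p, x < y → Rel p k J x y → s(x, y) ∈ E := by
      intro x y hxy hr
      have hx : (x : ℕ) % p = x := Nat.mod_eq_of_lt x.2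
      have hy : (y : ℕ) % p = y := Nat.mod_eq_of_lt y.2
      have hee : e x y = s(x, y) := by
        simp only [e, hx, hy]
      have hlt : (x : ℕ) < y := hxy
      have hyp := y.2
      rw [← hee]
      simp only [E, Finset.mem_union, Finset.mem_image, Finset.mem_singleton, Finset.mem_range]
      rcases hr with h | h | h | h
      · left; left; left
        exact ⟨x, by omega, by rw [h]⟩
      · left; left; right
        rw [h.1, h.2]
      · left; right
        obtain ⟨i, hi, h1, h2⟩ := h
        exact ⟨i, hi, by rw [h1, h2]⟩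
      · right
        obtain ⟨j, hj, h1, h2⟩ := h
        exact ⟨j, hj, by rw [h1, h2]⟩
    intro z hz
    induction z using Sym2.ind with
    | _ x y =>
      rw [SimpleGraph.mem_edgeSet] at hz
      rcases hz with ⟨h1, h2⟩ | ⟨h1, h2⟩
      · exact key x y h1 h2
      · rw [Sym2.eq_swap]; exact key y x h1 h2
  calc (Gr p k J).edgeSet.ncard ≤ (E : Set (Sym2 (Fin p))).ncard :=
        Set.ncard_le_ncard hsub (Finset.finite_toSet E)
    _ = E.card := Set.ncard_coe_finset E
    _ ≤ _ := by
        refine (Finset.card_union_le _ _).trans ?_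
        refine Nat.add_le_add ?_ Finset.card_image_le
        refine (Finset.card_union_le _ _).trans ?_
        refine Nat.add_le_add ?_ (Finset.card_image_le.trans (by simp))
        refine (Finset.card_union_le _ _).trans ?_
        refine Nat.add_le_add (Finset.card_image_le.trans (by simp)) (by simp)

/-- The set of vertices `x ≤ t` which are not skipped by the chords in `S`. -/
def Keep (p t : ℕ) (S : Finset ℕ) : Finset (Fin p) :=
  {x : Fin p | (x : ℕ) ≤ t ∧ ∀ i ∈ S, ¬ (A i < x ∧ (x : ℕ) < A (i + 1))}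

theorem mem_Keep {p t : ℕ} {S : Finset ℕ} {x : Fin p} :
    x ∈ Keep p t S ↔ (x : ℕ) ≤ t ∧ ∀ i ∈ S, ¬ (A i < x ∧ (x : ℕ) < A (i + 1)) := by
  simp [Keep]

theorem Keep_card (p t : ℕ) (S : Finset ℕ) (ht : t < p) (hS : ∀ i ∈ S, A (i + 1) ≤ t) :
    (Keep p t S).card + ∑ i ∈ S, 2 ^ i = t + 1 := by
  classical
  -- image in ℕ
  have h1 : (Keep p t S).card = ((Keep p t S).map Fin.valEmbedding).card := by simp
  have h2 : (Keep p t S).map Fin.valEmbedding =
      Finset.range (t + 1) \ S.biUnion (fun i => Finset.Ioo (A i) (A (i + 1))) := by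
    ext x
    simp only [Finset.mem_map, mem_Keep, Fin.valEmbedding_apply, Finset.mem_sdiff, Finset.mem_range,
      Finset.mem_biUnion, Finset.mem_Ioo, not_exists, not_and]
    constructor
    · rintro ⟨y, ⟨h1, h2⟩, rfl⟩
      refine ⟨by omega, fun i hi h => ?_⟩
      have := h2 i hi
      intro h'
      exact this h h'
    · rintro ⟨h1, h2⟩
      refine ⟨⟨x, by omega⟩, ⟨by simp; omega, fun i hi h => ?_⟩, rfl⟩
      exact h2 i hi h
  have h3 : (S.biUnion (fun i => Finset.Ioo (A i) (A (i + 1)))).card = ∑ i ∈ S, 2 ^ i := by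
    rw [Finset.card_biUnion]
    · refine Finset.sum_congr rfl ?_
      intro i _
      rw [Nat.card_Ioo, A_succ]
      have := Nat.one_le_two_pow (n := i)
      omega
    · intro i _ j _ hij
      rw [Function.onFun, Finset.disjoint_left]
      intro x hx hx'
      rw [Finset.mem_Ioo] at hx hx'
      rcases lt_or_gt_of_ne hij with h | h
      · have := A_strictMono.monotone (show i + 1 ≤ j by omega)
        omega
      · have := A_strictMono.monotone (show j + 1 ≤ i by omega)
        omega
  have h4 : S.biUnion (fun i => Finset.Ioo (A i) (A (i + 1))) ⊆ Finset.range (t + 1) := by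
    intro x hx
    rw [Finset.mem_biUnion] at hx
    obtain ⟨i, hi, hx⟩ := hx
    rw [Finset.mem_Ioo] at hx
    have := hS i hi
    rw [Finset.mem_range]; omega
  rw [h1, h2, Finset.card_sdiff_of_subset h4, h3, Finset.card_range]
  have h5 := Finset.card_le_card h4
  rw [h3, Finset.card_range] at h5
  omega


theorem Keep_cycle (p k t l : ℕ) (J S : Finset ℕ) (ht : t < p) (hS : ∀ i ∈ S, A (i + 1) ≤ t)
    (hSk : ∀ i ∈ S, i < k) (hrel : Rel p k J 0 t) (hl : 3 ≤ l) (hsum : l + ∑ i ∈ S, 2 ^ i = t + 1) :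
    ∃ (v : Fin p) (c : (Gr p k J).Walk v v), c.IsCycle ∧ c.length = l := by
  have hcard := Keep_card p t S ht hS
  have hV : (Keep p t S).card = l := by omega
  have hmemA : ∀ i ∈ S, ∀ x : Fin p, (x : ℕ) = A (i + 1) → x ∈ Keep p t S := by
    intro i hi x hx
    rw [mem_Keep]
    refine ⟨hx ▸ hS i hi, ?_⟩
    rintro i' hi' ⟨h1, h2⟩
    rw [hx] at h1 h2
    have h3 := A_strictMono.lt_iff_lt.mp h1
    have h4 := A_strictMono.lt_iff_lt.mp h2
    omega
  refine cycle_of_finset (Gr p k J) (Keep p t S) l hl hV ?_ ?_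
  · intro x hx y hy hxy hno
    have hlt : (x : ℕ) < y := hxy
    refine Gr_adj_of_lt hxy ?_
    rw [mem_Keep] at hx hy
    by_cases h : ∀ i ∈ S, ¬ (A i < (x : ℕ) + 1 ∧ (x : ℕ) + 1 < A (i + 1))
    · left
      by_contra hne
      have hlt2 : (x : ℕ) + 1 < y := by omega
      have hyp := y.2
      refine hno ⟨(x : ℕ) + 1, by omega⟩ ?_ ⟨?_, ?_⟩
      · rw [mem_Keep]; exact ⟨by simp; omega, h⟩
      · rw [Fin.lt_def]; simp
      · rw [Fin.lt_def]; simpa using hlt2
    · push Not at h
      obtain ⟨i, hi, h1, h2⟩ := h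
      have hx2 := hx.2 i hi
      have hxA : (x : ℕ) = A i := by
        by_contra hne
        exact hx2 ⟨by omega, by omega⟩
      have hy2 := hy.2 i hi
      have hyA : A (i + 1) ≤ y := by
        by_contra hne
        exact hy2 ⟨by omega, by omega⟩
      have hyE : (y : ℕ) = A (i + 1) := by
        by_contra hne
        have hyp := y.2
        have hlt2 : A (i + 1) < y := by omega
        refine hno ⟨A (i + 1), by omega⟩ (hmemA i hi _ rfl) ⟨?_, ?_⟩
        · rw [Fin.lt_def]; simp; omega
        · rw [Fin.lt_def]; simpa using hlt2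
      right; right; left
      exact ⟨i, hSk i hi, hxA, hyE⟩
  · intro x hx y hy hmin hmax
    have h0 : (⟨0, by omega⟩ : Fin p) ∈ Keep p t S := by
      rw [mem_Keep]; refine ⟨by simp, ?_⟩
      rintro i _ ⟨h1, _⟩
      simp at h1
    have hx0 : (x : ℕ) = 0 := by
      have := hmin _ h0
      rw [Fin.le_def] at this
      simpa using this
    have htm : (⟨t, ht⟩ : Fin p) ∈ Keep p t S := by
      rw [mem_Keep]; refine ⟨le_refl _, ?_⟩
      rintro i hi ⟨_, h2⟩
      have := hS i hi
      simp at h2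
      omega
    have hyt : (y : ℕ) = t := by
      have h1 := hmax _ htm
      rw [Fin.le_def] at h1
      have h2 := (mem_Keep.mp hy).1
      simp at h1
      omega
    have hlt : x < y := by
      rw [Fin.lt_def, hx0, hyt]
      omega
    refine Gr_adj_of_lt hlt ?_
    rw [hx0, hyt]; exact hrel

/-- towers -/
def T : ℕ → ℕ
  | 0 => 2
  | n + 1 => 2 ^ T n

theorem cover : ∀ (n k : ℕ), k ≤ T n → ∃ J : Finset ℕ, J.card ≤ n ∧ (∀ j ∈ J, j ≤ k) ∧
    ∀ l, 3 ≤ l → l ≤ k → ∃ j ∈ J, j + 1 ≤ l ∧ l ≤ A j + 1 := by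
  intro n
  induction n with
  | zero =>
    intro k hk
    refine ⟨∅, by simp, by simp, ?_⟩
    intro l h3 hl
    simp only [T] at hk
    omega
  | succ n ih =>
    intro k hk
    by_cases h : k ≤ T n
    · obtain ⟨J, h1, h2, h3⟩ := ih k h
      exact ⟨J, by omega, h2, h3⟩
    · push Not at h
      obtain ⟨J, h1, h2, h3⟩ := ih (T n) le_rfl
      refine ⟨insert (T n) J, (Finset.card_insert_le _ _).trans (by omega), ?_, ?_⟩
      · intro j hj
        rw [Finset.mem_insert] at hj
        rcases hj with rfl | hj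
        · omega
        · have := h2 j hj; omega
      · intro l hl3 hl
        by_cases hlt : l ≤ T n
        · obtain ⟨j, hj, h4, h5⟩ := h3 l hl3 hlt
          exact ⟨j, Finset.mem_insert_of_mem hj, h4, h5⟩
        · refine ⟨T n, Finset.mem_insert_self _ _, by omega, ?_⟩
          rw [A_add_one]
          simp only [T] at hk
          omega

theorem exists_k (p : ℕ) (hp : 3 ≤ p) : ∃ k, 1 ≤ k ∧ A k < p ∧ p ≤ A (k + 1) := by
  have hex : ∃ k, p ≤ A (k + 1) := ⟨p, by
    have := A_strictMono.id_le (p + 1)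
    simp only [id_eq] at this
    omega⟩
  refine ⟨Nat.find hex, ?_, ?_, Nat.find_spec hex⟩
  · by_contra h
    have h0 : Nat.find hex = 0 := by omega
    have := Nat.find_spec hex
    rw [h0] at this
    simp [A] at this
    omega
  · have h1 : 1 ≤ Nat.find hex := by
      by_contra h
      have h0 : Nat.find hex = 0 := by omega
      have := Nat.find_spec hex
      rw [h0] at this
      simp [A] at this
      omega
    have := Nat.find_min hex (m := Nat.find hex - 1) (by omega)
    rw [Nat.sub_add_cancel h1] at this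
    omega

theorem main (p n : ℕ) (hp : 3 ≤ p) (hn : p ≤ T n) : ∃ G : SimpleGraph (Fin p),
    (∀ l : ℕ, 3 ≤ l → l ≤ p → ∃ (v : Fin p) (c : G.Walk v v), c.IsCycle ∧ c.length = l) ∧
    ∃ k, 2 ^ k ≤ p ∧ G.edgeSet.ncard ≤ p + k + n + 1 := by
  obtain ⟨k, hk1, hk2, hk3⟩ := exists_k p hp
  have hAk := A_add_one k
  have hkp : k ≤ p := by
    have := Nat.one_le_two_pow (n := k)
    omega
  obtain ⟨J, hJ1, hJ2, hJ3⟩ := cover n k (hkp.trans hn)
  refine ⟨Gr p k (insert k J), ?_, k, by omega, ?_⟩
  · intro l hl3 hlp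
    by_cases h1 : p - l < 2 ^ k
    · obtain ⟨S, hS, hsum⟩ := exists_bits k (p - l) h1
      refine Keep_cycle p k (p - 1) l _ S (by omega) ?_ ?_ (Or.inr (Or.inl ⟨rfl, rfl⟩)) hl3 (by omega)
      · intro i hi
        have := Finset.mem_range.mp (hS hi)
        have := A_strictMono.monotone (show i + 1 ≤ k by omega)
        omega
      · intro i hi
        exact Finset.mem_range.mp (hS hi)
    · have hA2 := A_succ k
      have hcase : ∃ j ∈ insert k J, j + 1 ≤ l ∧ l ≤ A j + 1 := by
        by_cases h2 : k + 1 ≤ l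
        · exact ⟨k, Finset.mem_insert_self _ _, h2, by omega⟩
        · obtain ⟨j, hj, h3, h4⟩ := hJ3 l hl3 (by omega)
          exact ⟨j, Finset.mem_insert_of_mem hj, h3, h4⟩
      obtain ⟨j, hj, h3, h4⟩ := hcase
      have hjk : j ≤ k := by
        rw [Finset.mem_insert] at hj
        rcases hj with rfl | hj
        · exact le_rfl
        · exact hJ2 j hj
      have hAj := A_add_one j
      have hAjk := A_strictMono.monotone hjk
      obtain ⟨S, hS, hsum⟩ := exists_bits j (A j + 1 - l) (by omega)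
      refine Keep_cycle p k (A j) l _ S (by omega) ?_ ?_ (Or.inr (Or.inr (Or.inr ⟨j, hj, rfl, rfl⟩)))
        hl3 (by omega)
      · intro i hi
        have := Finset.mem_range.mp (hS hi)
        exact A_strictMono.monotone (show i + 1 ≤ j by omega)
      · intro i hi
        have := Finset.mem_range.mp (hS hi)
        omega
  · have h1 := Gr_edges p k (by omega) (insert k J)
    have h2 := Finset.card_insert_le k J
    omega

end Pool.Agent.Helper826.Bondy.Upper
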